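import Pool.Agent.H998_PL.Base4
import Pool.Agent.H998_BC.Count2

/-! Primes on trajectories, part 14: all starting points. -/

set_option autoImplicit false

namespace Pool.Agent.H998_PL

open Finset
open Pool.Agent.H320R2.PD Pool.Agent.H499R2.ND
open Pool.Agent.H499R2.CO (Tz)
open Pool.Agent.R344.TH

/-- the times of the elements of `P` in a block -/
def BB (P : Set ℤ) (y z : ℝ) (x : ℤ) : Set ℕ := {k : ℕ | (Tz 1)^[k] x ∈ P ∧
  (∀ j ≤ k, y ≤ (((Tz 1)^[j] x : ℤ) : ℝ)) ∧ ∃ j ≤ k, (((Tz 1)^[j] x : ℤ) : ℝ) < z}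

theorem mem_Sh {P : Set ℤ} {y z : ℝ} {h : ℕ} {x : ℤ} :
    x ∈ Sh P y z h ↔ (h : ℕ∞) ≤ (BB P y z x).encard := by
  constructor
  · rintro ⟨s, hs, hs2⟩
    have h1 : (s : Set ℕ) ⊆ BB P y z x := fun k hk => hs2 k hk
    have h2 := Set.encard_le_encard h1
    rwa [Set.encard_coe_eq_coe_finsetCard, hs] at h2
  · intro h1
    obtain ⟨t, ht, htc⟩ := Set.exists_subset_encard_eq h1
    have hf : t.Finite := Set.finite_of_encard_eq_coe htc
    refine ⟨hf.toFinset, ?_, ?_⟩
    · rw [hf.encard_eq_coe_toFinset_card] at htc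
      exact_mod_cast htc
    · intro k hk
      exact ht (hf.mem_toFinset.1 hk)

/-- halvings at the beginning change nothing -/
theorem Sh_two_pow {P : Set ℤ} (hP : ∀ x ∈ P, Odd x) {y z : ℝ} {h e : ℕ} {m : ℤ}
    (hm0 : 0 < m) : 2 ^ e * m ∈ Sh P y z h ↔ m ∈ Sh P y z h := by
  have hTe : (Tz 1)^[e] (2 ^ e * m) = m := by
    rw [iter_pow_two m e e le_rfl]; simp
  have hsh : ∀ j, (Tz 1)^[j] m = (Tz 1)^[j + e] (2 ^ e * m) := by
    intro j
    rw [Function.iterate_add_apply, hTe]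
  have hm0R : (0 : ℝ) < m := by exact_mod_cast hm0
  have hbig : ∀ j ≤ e, (m : ℝ) ≤ (((Tz 1)^[j] (2 ^ e * m) : ℤ) : ℝ) := by
    intro j hj
    rw [iter_pow_two m j e hj]
    push_cast
    exact le_mul_of_one_le_left hm0R.le (one_le_pow₀ (by norm_num))
  constructor
  · rintro ⟨s, hs, hs2⟩
    have hge : ∀ k ∈ s, e ≤ k := by
      intro k hk
      by_contra hcon
      push Not at hcon
      have h1 := hP _ (hs2 k hk).1
      rw [iter_pow_two m k e hcon.le] at h1
      obtain ⟨i, hi⟩ : ∃ i, e - k = i + 1 := ⟨e - k - 1, by omega⟩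
      rw [hi, pow_succ] at h1
      have h2 : Even ((2 : ℤ) ^ i * 2 * m) := ⟨2 ^ i * m, by ring⟩
      exact (Int.not_even_iff_odd.2 h1) h2
    refine ⟨s.image (fun k => k - e), ?_, ?_⟩
    · rw [card_image_of_injOn, hs]
      intro a ha b hb hab
      have h1 := hge a ha
      have h2 := hge b hb
      simp only at hab
      omega
    · intro k hk
      rw [mem_image] at hk
      obtain ⟨k', hk', rfl⟩ := hk
      obtain ⟨h1, h2, j, hj, hjz⟩ := hs2 k' hk'
      have h3 := hge k' hk'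
      refine ⟨?_, ?_, ?_⟩
      · rw [hsh, Nat.sub_add_cancel h3]; exact h1
      · intro i hi
        rw [hsh]; exact h2 _ (by omega)
      · rcases le_or_gt e j with h4 | h4
        · exact ⟨j - e, by omega, by rw [hsh, Nat.sub_add_cancel h4]; exact hjz⟩
        · exact ⟨0, by omega, lt_of_le_of_lt (hbig j h4.le) hjz⟩
  · rintro ⟨s, hs, hs2⟩
    refine ⟨s.image (fun k => k + e), ?_, ?_⟩
    · rw [card_image_of_injective _ (add_left_injective e), hs]
    · intro k hk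
      rw [mem_image] at hk
      obtain ⟨k', hk', rfl⟩ := hk
      obtain ⟨h1, h2, j, hj, hjz⟩ := hs2 k' hk'
      refine ⟨?_, ?_, ?_⟩
      · rw [← hsh]; exact h1
      · intro i hi
        rcases le_or_gt i e with hie | hie
        · have h4 := h2 0 (Nat.zero_le _)
          rw [Function.iterate_zero, id] at h4
          exact h4.trans (hbig i hie)
        · have := h2 (i - e) (by omega)
          rwa [hsh, Nat.sub_add_cancel hie.le] at this
      · exact ⟨j + e, by omega, by rw [← hsh]; exact hjz⟩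

open scoped Classical in
/-- odd starting points -/
theorem count_odd {S : Set ℤ} {ρ z : ℝ} (hρ : 0 ≤ ρ) (hz : 1 ≤ z)
    (h : ∀ A : ℝ, z / 2 ≤ A → PB S A 0 ρ) {X : ℝ} (hX : 0 ≤ X) (F : Finset ℤ)
    (hF : ∀ x ∈ F, Odd x ∧ x ∈ S ∧ 1 ≤ x ∧ (x : ℝ) < X) :
    (F.card : ℝ) ≤ z + ρ * X / 2 := by
  obtain ⟨E, hE⟩ : ∃ E : ℕ, X < 2 ^ E := pow_unbounded_of_one_lt _ (by norm_num)
  have hsub : F ⊆ Icc (1 : ℤ) ⌊z⌋ ∪ ((range E).filter (fun i => z / 2 ≤ X / 2 ^ (i + 1))).biUnion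
      (fun i => cls S (X / 2 ^ (i + 1)) (2 * (X / 2 ^ (i + 1))) 0 1 0) := by
    intro x hx
    obtain ⟨h1, h2, h3, h4⟩ := hF x hx
    have h3R : (1 : ℝ) ≤ x := by exact_mod_cast h3
    rw [mem_union]
    rcases le_or_gt (x : ℝ) z with h5 | h5
    · left
      rw [Finset.mem_Icc, Int.le_floor]
      exact ⟨h3, h5⟩
    · right
      have hx0 : (0 : ℝ) < x := by linarith
      have hex : ∃ i : ℕ, X / 2 ^ (i + 1) ≤ x := by
        refine ⟨E, ?_⟩
        rw [div_le_iff₀ (by positivity)]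
        have e1 : (2 : ℝ) ^ E ≤ 2 ^ (E + 1) := pow_le_pow_right₀ (by norm_num) (by omega)
        have e2 : (2 : ℝ) ^ (E + 1) ≤ x * 2 ^ (E + 1) := le_mul_of_one_le_left (by positivity) h3R
        linarith
      obtain ⟨i, hi⟩ : ∃ i, i = Nat.find hex := ⟨_, rfl⟩
      have hi1 : X / 2 ^ (i + 1) ≤ x := by rw [hi]; exact Nat.find_spec hex
      have hi2 : (x : ℝ) < X / 2 ^ i := by
        rcases Nat.eq_zero_or_pos i with h0 | h0
        · rw [h0]; simpa using h4
        · have := Nat.find_min hex (m := i - 1) (by omega)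
          rw [Nat.sub_add_cancel h0] at this
          push Not at this
          exact this
      have hi3 : 2 * (X / 2 ^ (i + 1)) = X / 2 ^ i := by
        rw [pow_succ]; field_simp
      rw [mem_biUnion]
      refine ⟨i, ?_, ?_⟩
      · rw [mem_filter, mem_range]
        constructor
        · by_contra hcon
          push Not at hcon
          have e1 : (2 : ℝ) ^ E ≤ 2 ^ i := pow_le_pow_right₀ (by norm_num) hcon
          rw [lt_div_iff₀ (by positivity)] at hi2
          have e2 : (2 : ℝ) ^ i ≤ x * 2 ^ i := le_mul_of_one_le_left (by positivity) h3R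
          linarith
        · linarith
      · rw [mem_cls, hi3]
        exact ⟨⟨hi1, hi2⟩, h1, h2, by simp⟩
  have h1 : (F.card : ℝ) ≤ ((Icc (1 : ℤ) ⌊z⌋).card : ℝ)
      + ∑ i ∈ (range E).filter (fun i => z / 2 ≤ X / 2 ^ (i + 1)),
        ((cls S (X / 2 ^ (i + 1)) (2 * (X / 2 ^ (i + 1))) 0 1 0).card : ℝ) := by
    have h2 := (card_le_card hsub).trans (card_union_le _ _)
    have h3 : (((range E).filter (fun i => z / 2 ≤ X / 2 ^ (i + 1))).biUnion
      (fun i => cls S (X / 2 ^ (i + 1)) (2 * (X / 2 ^ (i + 1))) 0 1 0)).card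
      ≤ ∑ i ∈ (range E).filter (fun i => z / 2 ≤ X / 2 ^ (i + 1)),
        (cls S (X / 2 ^ (i + 1)) (2 * (X / 2 ^ (i + 1))) 0 1 0).card := card_biUnion_le
    have h4 := h2.trans (add_le_add (le_refl (Icc (1 : ℤ) ⌊z⌋).card) h3)
    exact_mod_cast h4
  have h2 : ((Icc (1 : ℤ) ⌊z⌋).card : ℝ) ≤ z := by
    rw [Int.card_Icc]
    have h3 : (0 : ℤ) ≤ ⌊z⌋ := Int.floor_nonneg.2 (by linarith)
    have h4 : ((⌊z⌋ + 1 - 1).toNat : ℤ) = ⌊z⌋ := by rw [Int.toNat_of_nonneg (by omega)]; ring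
    have h5 : ((⌊z⌋ + 1 - 1).toNat : ℝ) = (⌊z⌋ : ℝ) := by exact_mod_cast h4
    rw [h5]; exact Int.floor_le z
  have h3 : ∑ i ∈ (range E).filter (fun i => z / 2 ≤ X / 2 ^ (i + 1)),
        ((cls S (X / 2 ^ (i + 1)) (2 * (X / 2 ^ (i + 1))) 0 1 0).card : ℝ) ≤ ρ * X / 2 := by
    calc ∑ i ∈ (range E).filter (fun i => z / 2 ≤ X / 2 ^ (i + 1)),
        ((cls S (X / 2 ^ (i + 1)) (2 * (X / 2 ^ (i + 1))) 0 1 0).card : ℝ)
        ≤ ∑ i ∈ (range E).filter (fun i => z / 2 ≤ X / 2 ^ (i + 1)),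
          ρ * X / 4 * (1 / 2) ^ i := by
          apply sum_le_sum
          intro i hi
          rw [mem_filter] at hi
          refine (h _ hi.2 1 0 isCoprime_one_left).trans (le_of_eq ?_)
          rw [pow_zero, mul_one, pow_succ, one_div, inv_pow]
          field_simp
          ring
      _ ≤ ∑ i ∈ range E, ρ * X / 4 * (1 / 2) ^ i :=
          sum_le_sum_of_subset_of_nonneg (filter_subset _ _) fun i _ _ => by positivity
      _ = ρ * X / 4 * ∑ i ∈ range E, (1 / 2) ^ i := by rw [mul_sum]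
      _ ≤ ρ * X / 4 * 2 := mul_le_mul_of_nonneg_left (geom_half E) (by positivity)
      _ = _ := by ring
  linarith

open scoped Classical in
/-- all starting points -/
theorem count_all {S : Set ℤ} (hS : ∀ (e : ℕ) (m : ℤ), 0 < m → 2 ^ e * m ∈ S → m ∈ S)
    {ρ z : ℝ} (hρ : 0 ≤ ρ) (hz : 1 ≤ z) (h : ∀ A : ℝ, z / 2 ≤ A → PB S A 0 ρ) (N : ℕ) :
    (((Icc (1 : ℤ) N).filter (fun x => x ∈ S)).card : ℝ) ≤ ρ * (N + 1) + z * (Nat.log 2 N + 1) := by
  set O : ℕ → Finset ℤ := fun e => (Icc (1 : ℤ) N).filter (fun x => Odd x ∧ x ∈ S ∧ 2 ^ e * x ≤ N)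
    with hO
  have hsub : (Icc (1 : ℤ) N).filter (fun x => x ∈ S) ⊆ (range (Nat.log 2 N + 1)).biUnion
      (fun e => (O e).image (fun x => 2 ^ e * x)) := by
    intro n hn
    rw [mem_filter, Finset.mem_Icc] at hn
    obtain ⟨⟨hn1, hn2⟩, hnS⟩ := hn
    obtain ⟨e, m, hmo, hm0, hnm⟩ := odd_part (by omega : 0 < n)
    have hm1 : m ≤ 2 ^ e * m := le_mul_of_one_le_left hm0.le (one_le_pow₀ (by norm_num))
    rw [mem_biUnion]
    refine ⟨e, ?_, ?_⟩
    · rw [mem_range]
      have h1 : (2 : ℤ) ^ e ≤ N := by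
        have : (2 : ℤ) ^ e ≤ 2 ^ e * m := le_mul_of_one_le_right (by positivity) (by omega)
        omega
      have h2 : 2 ^ e ≤ N := by exact_mod_cast h1
      have h3 := Nat.le_log_of_pow_le (b := 2) (by norm_num) h2
      omega
    · rw [mem_image]
      refine ⟨m, ?_, hnm.symm⟩
      rw [hO]
      simp only [mem_filter, Finset.mem_Icc]
      exact ⟨⟨by omega, by omega⟩, hmo, hS e m hm0 (hnm ▸ hnS), by omega⟩
  have h1 : (((Icc (1 : ℤ) N).filter (fun x => x ∈ S)).card : ℝ)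
      ≤ ∑ e ∈ range (Nat.log 2 N + 1), ((O e).card : ℝ) := by
    have h2 := (card_le_card hsub).trans card_biUnion_le
    have h3 : ∑ e ∈ range (Nat.log 2 N + 1), ((O e).image (fun x => 2 ^ e * x)).card
      ≤ ∑ e ∈ range (Nat.log 2 N + 1), (O e).card := sum_le_sum fun e _ => card_image_le
    exact_mod_cast h2.trans h3
  have h2 : ∀ e ∈ range (Nat.log 2 N + 1), ((O e).card : ℝ) ≤ z + ρ * (N + 1) / 2 * (1 / 2) ^ e := by
    intro e _
    have h3 := count_odd hρ hz h (X := ((N : ℝ) + 1) / 2 ^ e) (by positivity) (O e) (by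
      intro x hx
      rw [hO] at hx
      simp only [mem_filter, Finset.mem_Icc] at hx
      refine ⟨hx.2.1, hx.2.2.1, hx.1.1, ?_⟩
      rw [lt_div_iff₀ (by positivity)]
      have h4 : ((2 : ℝ) ^ e * x) ≤ N := by exact_mod_cast hx.2.2.2
      linarith)
    refine h3.trans (le_of_eq ?_)
    rw [one_div, inv_pow]; ring
  refine h1.trans ((sum_le_sum h2).trans ?_)
  rw [sum_add_distrib, sum_const, card_range, nsmul_eq_mul, ← mul_sum]
  have h3 := mul_le_mul_of_nonneg_left (geom_half (Nat.log 2 N + 1))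
    (show 0 ≤ ρ * ((N : ℝ) + 1) / 2 by positivity)
  push_cast
  linarith

end Pool.Agent.H998_PL
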