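import Pool.Agent.H998_PL.Sets

/-! Primes on trajectories, part 8: the lowest scales, counting. -/

set_option autoImplicit false

namespace Pool.Agent.H998_PL

open Finset
open Pool.Agent.H320R2.PD Pool.Agent.H499R2.ND
open Pool.Agent.H499R2.CO (Tz)
open Pool.Agent.R344.TH

theorem Wo_div_le {v : List ℕ} (hv : ∀ e ∈ v, 1 ≤ e) : (Wo v : ℝ) / 2 ^ v.sum ≤ (3 / 2) ^ v.length := by
  rw [div_le_iff₀ (by positivity)]
  have := Wo_le hv
  have h2 : (0 : ℝ) < 2 ^ v.sum := by positivity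
  nlinarith

/-- the endpoint of a word from above -/
theorem end_le {v : List ℕ} (hv : ∀ e ∈ v, 1 ≤ e) {A : ℝ} {x p : ℤ} (hx : (x : ℝ) < 2 * A)
    (h : Vw 1 v x p) {T : ℕ} (hT : T ≤ v.sum) (hA : 0 ≤ A) :
    (p : ℝ) ≤ 2 * A * 3 ^ v.length / 2 ^ T + (3 / 2) ^ v.length := by
  unfold Vw at h
  have hR : (3 : ℝ) ^ v.length * x + Wo v = 2 ^ v.sum * p := by
    have : (3 : ℤ) ^ v.length * x + Wo v = 2 ^ v.sum * p := by linarith
    exact_mod_cast this
  have h2 : (0 : ℝ) < 2 ^ v.sum := by positivity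
  have hp : (p : ℝ) = 3 ^ v.length * x / 2 ^ v.sum + Wo v / 2 ^ v.sum := by
    rw [← add_div, hR, mul_div_cancel_left₀ _ h2.ne']
  rw [hp]
  apply add_le_add _ (Wo_div_le hv)
  have h3 : (3 : ℝ) ^ v.length * x ≤ 2 * A * 3 ^ v.length := by
    have : (0 : ℝ) < 3 ^ v.length := by positivity
    nlinarith
  calc 3 ^ v.length * (x : ℝ) / 2 ^ v.sum ≤ 2 * A * 3 ^ v.length / 2 ^ v.sum :=
        div_le_div_of_nonneg_right h3 h2.le
    _ ≤ _ := div_le_div_of_nonneg_left (by positivity) (by positivity)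
        (pow_le_pow_right₀ (by norm_num) hT)

/-- the endpoint of a word from below -/
theorem end_ge {v : List ℕ} {A : ℝ} {x p : ℤ} (hx : A ≤ (x : ℝ)) (hA : 0 ≤ A)
    (h : Vw 1 v x p) {T : ℕ} (hT : v.sum ≤ T) : A * 3 ^ v.length / 2 ^ T ≤ p := by
  unfold Vw at h
  have hR : (3 : ℝ) ^ v.length * x + Wo v = 2 ^ v.sum * p := by
    have : (3 : ℤ) ^ v.length * x + Wo v = 2 ^ v.sum * p := by linarith
    exact_mod_cast this
  have h2 : (0 : ℝ) < 2 ^ v.sum := by positivity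
  have h3 : A * 3 ^ v.length ≤ 2 ^ v.sum * p := by
    have : (0 : ℝ) < 3 ^ v.length := by positivity
    have : (0 : ℝ) ≤ Wo v := Nat.cast_nonneg _
    nlinarith
  calc A * 3 ^ v.length / 2 ^ T ≤ A * 3 ^ v.length / 2 ^ v.sum :=
        div_le_div_of_nonneg_left (by positivity) (by positivity)
          (pow_le_pow_right₀ (by norm_num) hT)
    _ ≤ p := by
        rw [div_le_iff₀ h2]; linarith

theorem GW_mem {cap k Tl Tm : ℕ} {v : List ℕ} (hv : v ∈ FW cap k) (h1 : Tl ≤ v.sum) (h2 : v.sum ≤ Tm) :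
    v ∈ GW cap k Tl Tm := by
  unfold GW; rw [mem_filter]; exact ⟨hv, h1, h2⟩

/-- short beginnings of the word of a good point -/
theorem short_sum {η : ℝ} {cap k₁ K : ℕ} (hK : k₁ ≤ K) {w : List ℕ} (hw : w ∈ FW cap K)
    (htyp : ∀ u v : List ℕ, w = u ++ v → k₁ ≤ v.length →
      Tlo η v.length ≤ v.sum ∧ v.sum ≤ Thi η v.length) {u v : List ℕ} (huv : w = u ++ v)
    (hv : v.length ≤ k₁) : v.sum ≤ Thi η k₁ := by
  have hl : w.length = K := (FW_props hw).1
  have hul : u.length + v.length = K := by rw [← hl, huv, List.length_append]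
  set n := u.length - (k₁ - v.length) with hn
  have h1 : u = u.take n ++ u.drop n := (List.take_append_drop n u).symm
  have h2 : (u.drop n ++ v).length = k₁ := by
    rw [List.length_append, List.length_drop]; omega
  have h3 := htyp (u.take n) (u.drop n ++ v) (by rw [← List.append_assoc, ← h1]; exact huv) h2.ge
  rw [h2, List.sum_append] at h3
  omega

/-- the visits of a good point before its trajectory is below `y` -/
theorem visit_word {P : Set ℤ} (hP : ∀ x ∈ P, Odd x) {A : ℝ} (hA : 0 ≤ A) {η : ℝ} {cap k₁ K m : ℕ}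
    (hK : k₁ ≤ K) {c x : ℤ} (hx : x ∈ cls Set.univ A (2 * A) m 1 c) (hg : Good η cap k₁ K x) {y : ℝ}
    (hy : 2 * A * 3 ^ K / 2 ^ (Tlo η K) + (3 / 2) ^ K < y) {t : ℕ} (ht : (Tz 1)^[t] x ∈ P)
    (hty : ∀ j ≤ t, y ≤ (((Tz 1)^[j] x : ℤ) : ℝ)) :
    ∃ v : List ℕ, v.sum = t ∧ v.length ≤ K ∧ v ∈ FW cap v.length ∧ v.sum ≤ Thi η K ∧
      x ∈ XP P A v.length m c v ∧
      (k₁ ≤ v.length → v ∈ GW cap v.length (Tlo η v.length) (Thi η v.length)) ∧
      (v.length < k₁ → v.sum ≤ Thi η k₁) := by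
  obtain ⟨hxo, w, x', hw, hx', hV, htyp⟩ := hg
  have hwp := FW_props hw
  have hxA := hx
  rw [mem_cls] at hxA
  have hwt := htyp [] w rfl (by rw [hwp.1]; exact hK)
  rw [hwp.1] at hwt
  have hx'y : (x' : ℝ) < y := by
    have := end_le hwp.2 hxA.1.2 hV hwt.1 hA
    rw [hwp.1] at this
    linarith
  have htw : t < w.sum := by
    by_contra hcon
    push Not at hcon
    have h1 := hty w.sum hcon
    rw [time_end hwp.2 hxo hx' hV] at h1
    linarith
  obtain ⟨u, v, huv, hvt, hVv⟩ := time_odd hwp.2 hxo hx' hV htw.le (hP _ ht)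
  have hvF := FW_suffix hw huv
  have hvl : v.length ≤ K := by
    have : u.length + v.length = K := by rw [← hwp.1, huv, List.length_append]
    omega
  refine ⟨v, hvt, hvl, hvF, by omega, mem_XP_of hx rfl (hP _ ht) ht hVv, ?_, ?_⟩
  · intro hk
    have := htyp u v huv hk
    exact GW_mem hvF this.1 this.2
  · intro hk
    exact short_sum hK hw htyp huv hk.le

/-- typical visits of a good point at levels between `y` and `z` -/
theorem visit_Sh {P : Set ℤ} (hP : ∀ x ∈ P, Odd x) {A : ℝ} (hA : 0 ≤ A) {η : ℝ} {cap k₁ k₃ K m : ℕ}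
    (hk3 : k₃ ≤ K) {c x : ℤ} (hx : x ∈ cls Set.univ A (2 * A) m 1 c) (hg : Good η cap k₁ K x)
    {y z : ℝ} (hy1 : ∀ k, k₁ ≤ k → k ≤ k₃ → y ≤ A * 3 ^ k / 2 ^ (Thi η k))
    (hy2 : y ≤ A / 2 ^ (Thi η k₁))
    (hz : ∀ k, k₁ ≤ k → k ≤ k₃ → 2 * A * 3 ^ k / 2 ^ (Tlo η k) + (3 / 2) ^ k < z) {k : ℕ}
    (hk1 : k₁ ≤ k) (hk3' : k ≤ k₃) {v : List ℕ} (hv : v ∈ GW cap k (Tlo η k) (Thi η k))
    (hxv : x ∈ XP P A k m c v) : x ∈ Sh P y z 1 := by
  obtain ⟨hxo, w, x', hw, hx', hV, htyp⟩ := hg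
  have hwp := FW_props hw
  have hxA := hx
  rw [mem_cls] at hxA
  unfold GW at hv
  rw [mem_filter] at hv
  have hvp := FW_props hv.1
  obtain ⟨p, hpP, hVp⟩ := XP_word hxv
  have hpo := hP p hpP
  -- `v` is a beginning of `w`
  obtain ⟨u, hu⟩ : ∃ u, w = u ++ v := by
    have h1 : w = w.take (K - k) ++ w.drop (K - k) := (List.take_append_drop _ w).symm
    have hlet : ∀ a ∈ w.take (K - k) ++ w.drop (K - k), 1 ≤ a := by rw [← h1]; exact hwp.2
    have hV' : Vw 1 (w.take (K - k) ++ w.drop (K - k)) x x' := by rw [← h1]; exact hV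
    obtain ⟨M₁, hM₁, h3, _⟩ := Vw_split _ _ hlet x x' hx' hV'
    have h4 : w.drop (K - k) = v := word_unique (by decide) _
      (fun a ha => hlet a (List.mem_append_right _ ha)) v hvp.2
      (by rw [List.length_drop, hwp.1, hvp.1]; omega) x M₁ p hM₁ hpo h3 hVp
    exact ⟨w.take (K - k), by rw [← h4]; exact h1⟩
  have htime := time_end hvp.2 hxo hpo hVp
  refine ⟨{v.sum}, card_singleton _, ?_⟩
  intro t ht
  rw [mem_singleton] at ht
  subst ht
  refine ⟨by rw [htime]; exact hpP, ?_, v.sum, le_rfl, ?_⟩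
  · intro j hj
    obtain ⟨u₁, v₁, M₁, h1, h2, h3, h4, _, h6⟩ := time_word v hvp.2 x p hxo hpo hVp j hj
    have hwv₁ : w = (u ++ u₁) ++ v₁ := by rw [hu, h1, List.append_assoc]
    have hM₁y : y ≤ (M₁ : ℝ) := by
      rcases le_or_gt k₁ v₁.length with h7 | h7
      · have h8 := htyp _ _ hwv₁ h7
        have h9 : v₁.length ≤ k₃ := by
          have : v₁.length ≤ v.length := by rw [h1, List.length_append]; omega
          rw [hvp.1] at this; omega
        exact (hy1 _ h7 h9).trans (end_ge hxA.1.1 hA h4 h8.2)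
      · have h8 := short_sum (by omega) hw htyp hwv₁ h7.le
        refine hy2.trans (le_trans ?_ (end_ge hxA.1.1 hA h4 h8))
        apply div_le_div_of_nonneg_right _ (by positivity)
        exact le_mul_of_one_le_right hA (one_le_pow₀ (by norm_num))
    rw [h6]
    push_cast
    have hMnn : (0 : ℝ) ≤ M₁ := by
      have h9 := end_ge hxA.1.1 hA h4 (le_refl v₁.sum)
      have : (0 : ℝ) ≤ A * 3 ^ v₁.length / 2 ^ v₁.sum := by positivity
      linarith
    have : (M₁ : ℝ) ≤ 2 ^ (v₁.sum - j) * M₁ := le_mul_of_one_le_left hMnn (one_le_pow₀ (by norm_num))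
    linarith
  · rw [htime]
    have := end_le hvp.2 hxA.1.2 hVp hv.2.1 hA
    rw [hvp.1] at this
    exact lt_of_le_of_lt this (hz k hk1 hk3')

open scoped Classical in
/-- the union over the words -/
noncomputable def ZZ (P : Set ℤ) (A : ℝ) (η : ℝ) (cap m : ℕ) (c : ℤ) (k : ℕ) : Finset ℤ :=
  (GW cap k (Tlo η k) (Thi η k)).biUnion fun v => XP P A k m c v

theorem XP_disj {P : Set ℤ} {A : ℝ} {cap k Tl Tm m : ℕ} {c : ℤ} (hP : ∀ x ∈ P, Odd x) :
    ((GW cap k Tl Tm : Finset (List ℕ)) : Set (List ℕ)).PairwiseDisjoint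
      (fun v => XP P A k m c v) := by
  intro w hw w' hw' hww
  rw [Function.onFun, Finset.disjoint_left]
  intro M hM hM'
  apply hww
  rw [mem_coe] at hw hw'
  unfold GW at hw hw'
  rw [mem_filter] at hw hw'
  have hw1 := FW_props hw.1
  have hw2 := FW_props hw'.1
  obtain ⟨x, hx, hV⟩ := XP_word hM
  obtain ⟨x', hx', hV'⟩ := XP_word hM'
  exact word_unique (by decide) w hw1.2 w' hw2.2 (hw1.1.trans hw2.1.symm) M x x' (hP _ hx)
    (hP _ hx') hV hV'

theorem XP_sub {P : Set ℤ} (hP : ∀ x ∈ P, Odd x) {A : ℝ} {cap k Tl Tm m : ℕ} {c : ℤ} {v : List ℕ}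
    (hv : v ∈ GW cap k Tl Tm) : XP P A k m c v ⊆ cls Set.univ A (2 * A) m 1 c := by
  classical
  intro x hx
  unfold GW at hv
  rw [mem_filter] at hv
  have hvp := FW_props hv.1
  obtain ⟨p, hp, hV⟩ := XP_word hx
  unfold XP at hx
  rw [mem_filter, mem_XX] at hx
  have hMo : Odd x := by
    rcases eq_or_ne v [] with rfl | hne
    · unfold Vw at hV; simp [Wo] at hV; rw [hV]; exact hP _ hp
    · exact Vw_odd_left (by decide) hvp.2 hne hV
  rw [mem_cls]
  exact ⟨hx.1.1, hMo, Set.mem_univ _, hx.1.2.2⟩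

open scoped Classical in
/-- the sum over the starting points of the number of pairs of times -/
noncomputable def PTot (P : Set ℤ) (A : ℝ) (cap K t₂ m : ℕ) (c : ℤ) : ℝ :=
  ∑ x ∈ cls Set.univ A (2 * A) m 1 c,
    (((PT P A cap K t₂ m c x).card : ℝ) * ((PT P A cap K t₂ m c x).card : ℝ)
      - ((PT P A cap K t₂ m c x).card : ℝ))

theorem sq_sub_nonneg (n : ℕ) : 0 ≤ (n : ℝ) * n - n := by
  have h : n ≤ n * n := by
    rcases Nat.eq_zero_or_pos n with rfl | h
    · simp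
    · exact Nat.le_mul_of_pos_left n h
  have : (n : ℝ) ≤ n * n := by exact_mod_cast h
  linarith

theorem PTot_le {P : Set ℤ} (hP : ∀ x ∈ P, 0 < x ∧ x.toNat.Prime) (hPo : ∀ x ∈ P, Odd x) {C X₀ : ℝ}
    (hC : 0 < C)
    (hpair : ∀ L : ℝ, X₀ ≤ L → ∀ τ n : ℕ, 1 ≤ τ → (2 : ℝ) ^ τ * 3 ^ n ≤ Real.sqrt L →
      ∀ u v : ℤ, IsCoprime u 3 →
      ((cls (Pt P τ) L (2 * L) n u v).card : ℝ) ≤ C * (L / (3 ^ n * (Real.log L) ^ 2)))
    {A : ℝ} (hA : 0 < A) (cap K t₂ m : ℕ) (c : ℤ) {lam0 : ℝ} (hlam : 0 < lam0)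
    (h0 : lam0 ≤ Real.log (A / 2 ^ t₂)) (h1 : X₀ ≤ A / 2 ^ t₂) 
    (h2 : (2 : ℝ) ^ t₂ * 3 ^ (K + m) ≤ Real.sqrt (A / 2 ^ t₂)) :
    PTot P A cap K t₂ m c
      ≤ 2 * (((K : ℝ) + 1) * t₂ * (C * (A / 3 ^ m) / lam0 ^ 2 + 2 * 2 ^ t₂)) := by
  classical
  have hPto : ∀ τ, ∀ x ∈ Pt P τ, Odd x := fun τ x hx => hPo x hx.1
  have hYY : ∀ q ∈ range (K + 1) ×ˢ Icc 1 t₂, ((YY P A cap t₂ m c q).card : ℝ)
      ≤ C * (A / 3 ^ m) / lam0 ^ 2 + 2 * 2 ^ t₂ := by
    rintro ⟨k, τ⟩ hq
    rw [mem_product, mem_range, mem_Icc] at hq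
    obtain ⟨hk, hτ1, hτ2⟩ := hq
    simp only at hk hτ1 hτ2
    have hsum : ((YY P A cap t₂ m c (k, τ)).card : ℝ)
        ≤ ∑ v ∈ GW cap k 0 t₂, ((XP (Pt P τ) A k m c v).card : ℝ) := by
      unfold YY
      exact_mod_cast card_biUnion_le
    refine hsum.trans ?_
    have hterm : ∀ v ∈ GW cap k 0 t₂, ((XP (Pt P τ) A k m c v).card : ℝ)
        ≤ C * (A / 3 ^ m) / lam0 ^ 2 * wwt v + 2 := by
      intro v hv
      unfold GW at hv
      rw [mem_filter] at hv
      have hvp := FW_props hv.1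
      have hXP := XP_card (hPto τ) hA.le (m := m) (c := c) hvp.1 hvp.2
      rw [abs_le] at hXP
      set L := A * 3 ^ k / 2 ^ v.sum with hL
      have hLge : A / 2 ^ t₂ ≤ L := by
        rw [hL]
        calc A / 2 ^ t₂ ≤ A / 2 ^ v.sum := div_le_div_of_nonneg_left hA.le (by positivity)
              (pow_le_pow_right₀ (by norm_num) hv.2.2)
          _ ≤ _ := by
              apply div_le_div_of_nonneg_right _ (by positivity)
              exact le_mul_of_one_le_right hA.le (one_le_pow₀ (by norm_num))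
      have hLlog : lam0 ≤ Real.log L := h0.trans (Real.log_le_log (by positivity) hLge)
      have hb := hpair L (h1.trans hLge) τ (k + m) hτ1 (by
        calc (2 : ℝ) ^ τ * 3 ^ (k + m) ≤ 2 ^ t₂ * 3 ^ (K + m) := by
              apply mul_le_mul (pow_le_pow_right₀ (by norm_num) hτ2)
                (pow_le_pow_right₀ (by norm_num) (by omega)) (by positivity) (by positivity)
          _ ≤ Real.sqrt (A / 2 ^ t₂) := h2
          _ ≤ Real.sqrt L := Real.sqrt_le_sqrt hLge) (2 ^ v.sum) (Wo v + 3 ^ k * c) (cop_two_pow _)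
      have hb2 : C * (L / (3 ^ (k + m) * (Real.log L) ^ 2)) ≤ C * (A / 3 ^ m) / lam0 ^ 2 * wwt v := by
        have e1 : C * (A / 3 ^ m) / lam0 ^ 2 * wwt v = C * (L / (3 ^ (k + m) * lam0 ^ 2)) := by
          rw [hL, pow_add]
          unfold wwt
          rw [one_div, inv_pow]
          field_simp
        rw [e1]
        apply mul_le_mul_of_nonneg_left _ hC.le
        apply div_le_div_of_nonneg_left (by positivity) (by positivity)
        apply mul_le_mul_of_nonneg_left _ (by positivity)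
        exact pow_le_pow_left₀ hlam.le hLlog 2
      linarith [hXP.2]
    refine (sum_le_sum hterm).trans ?_
    rw [sum_add_distrib, ← mul_sum, sum_const, nsmul_eq_mul]
    have hmass : ∑ v ∈ GW cap k 0 t₂, wwt v ≤ 1 := by
      refine le_trans ?_ (sum_wwt_le cap k)
      unfold GW
      apply sum_le_sum_of_subset_of_nonneg (filter_subset _ _)
      intro w _ _; unfold wwt; positivity
    have hc := GW_card cap k 0 t₂
    have hpos : 0 ≤ C * (A / 3 ^ m) / lam0 ^ 2 := by positivity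
    have := mul_le_mul_of_nonneg_left hmass hpos
    linarith
  unfold PTot
  have hx : ∀ x ∈ cls Set.univ A (2 * A) m 1 c,
      (((PT P A cap K t₂ m c x).card : ℝ) * ((PT P A cap K t₂ m c x).card : ℝ)
      - ((PT P A cap K t₂ m c x).card : ℝ))
      ≤ 2 * ∑ q ∈ range (K + 1) ×ˢ Icc 1 t₂, (if x ∈ YY P A cap t₂ m c q then (1 : ℝ) else 0) := by
    intro x hx
    have hxo : Odd x := by rw [mem_cls] at hx; exact hx.2.1
    have h3 := pair_le hPo (A := A) (cap := cap) (K := K) (t₂ := t₂) (m := m) (c := c) hxo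
    have h4 : ∑ q ∈ range (K + 1) ×ˢ Icc 1 t₂, (if x ∈ YY P A cap t₂ m c q then (1 : ℝ) else 0)
        = (((range (K + 1) ×ˢ Icc 1 t₂).filter (fun q => x ∈ YY P A cap t₂ m c q)).card : ℝ) := by
      rw [card_filter]; push_cast; rfl
    rw [h4]
    set n := (PT P A cap K t₂ m c x).card with hn
    have h5 : n ≤ n * n := by
      rcases Nat.eq_zero_or_pos n with h | h
      · rw [h]
      · exact Nat.le_mul_of_pos_left n h
    have h6 : ((n * n - n : ℕ) : ℝ) = (n : ℝ) * n - n := by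
      rw [Nat.cast_sub h5]; push_cast; ring
    rw [← h6]
    exact_mod_cast h3
  refine (sum_le_sum hx).trans ?_
  rw [← mul_sum, sum_comm]
  apply mul_le_mul_of_nonneg_left _ (by norm_num)
  have h7 : ∀ q ∈ range (K + 1) ×ˢ Icc 1 t₂,
      ∑ x ∈ cls Set.univ A (2 * A) m 1 c, (if x ∈ YY P A cap t₂ m c q then (1 : ℝ) else 0)
      ≤ C * (A / 3 ^ m) / lam0 ^ 2 + 2 * 2 ^ t₂ := by
    intro q hq
    refine le_trans ?_ (hYY q hq)
    have : ∑ x ∈ cls Set.univ A (2 * A) m 1 c, (if x ∈ YY P A cap t₂ m c q then (1 : ℝ) else 0)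
        = (((cls Set.univ A (2 * A) m 1 c).filter (fun x => x ∈ YY P A cap t₂ m c q)).card : ℝ) := by
      rw [card_filter]; push_cast; rfl
    rw [this]
    exact_mod_cast card_le_card (fun x hx => (mem_filter.1 hx).2)
  refine (sum_le_sum h7).trans (le_of_eq ?_)
  rw [sum_const, card_product, card_range, Nat.card_Icc, nsmul_eq_mul, Nat.add_sub_cancel]
  push_cast
  ring

open scoped Classical in
/-- COUNT, upper bound for one visit -/
theorem count_up {P : Set ℤ} (hP : ∀ x ∈ P, Odd x) {A : ℝ} (hA : 0 ≤ A) {η : ℝ} {cap k₁ K m : ℕ}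
    (hK : k₁ ≤ K) (c : ℤ) {y : ℝ} (z : ℝ)
    (hy : 2 * A * 3 ^ K / 2 ^ (Tlo η K) + (3 / 2) ^ K < y) :
    ((cls (Sh P y z 1) A (2 * A) m 1 c).card : ℝ)
      ≤ (((cls Set.univ A (2 * A) m 1 c).filter (fun x => ¬ Good η cap k₁ K x)).card : ℝ)
        + ∑ k ∈ range k₁, ∑ v ∈ GW cap k 0 (Thi η k₁), ((XP P A k m c v).card : ℝ)
        + ∑ k ∈ Icc k₁ K, ∑ v ∈ GW cap k (Tlo η k) (Thi η k), ((XP P A k m c v).card : ℝ) := by
  have hsub : cls (Sh P y z 1) A (2 * A) m 1 c
      ⊆ ((cls Set.univ A (2 * A) m 1 c).filter (fun x => ¬ Good η cap k₁ K x))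
        ∪ ((range k₁).biUnion fun k => (GW cap k 0 (Thi η k₁)).biUnion fun v => XP P A k m c v)
        ∪ ((Icc k₁ K).biUnion fun k => (GW cap k (Tlo η k) (Thi η k)).biUnion fun v => XP P A k m c v) := by
    intro x hx
    rw [mem_cls] at hx
    obtain ⟨h1, h2, ⟨s, hs, hs2⟩, h4⟩ := hx
    have hxc : x ∈ cls Set.univ A (2 * A) m 1 c := by
      rw [mem_cls]; exact ⟨h1, h2, Set.mem_univ _, h4⟩
    obtain ⟨t, ht⟩ : s.Nonempty := by rw [← card_pos, hs]; norm_num
    obtain ⟨h5, h6, _⟩ := hs2 t ht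
    rw [mem_union, mem_union]
    by_cases hg : Good η cap k₁ K x
    · obtain ⟨v, h7, h8, h9, h10, h11, h12, h13⟩ := visit_word hP hA hK hxc hg hy h5 h6
      rcases le_or_gt k₁ v.length with hk | hk
      · right
        rw [mem_biUnion]
        exact ⟨v.length, mem_Icc.2 ⟨hk, h8⟩, mem_biUnion.2 ⟨v, h12 hk, h11⟩⟩
      · left; right
        rw [mem_biUnion]
        exact ⟨v.length, mem_range.2 hk, mem_biUnion.2
          ⟨v, GW_mem h9 (Nat.zero_le _) (h13 hk), h11⟩⟩
    · left; left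
      rw [mem_filter]; exact ⟨hxc, hg⟩
  have h1 := (card_le_card hsub).trans ((card_union_le _ _).trans
    (Nat.add_le_add_right (card_union_le _ _) _))
  have h2 : (((range k₁).biUnion fun k => (GW cap k 0 (Thi η k₁)).biUnion fun v => XP P A k m c v).card)
      ≤ ∑ k ∈ range k₁, ∑ v ∈ GW cap k 0 (Thi η k₁), (XP P A k m c v).card :=
    card_biUnion_le.trans (sum_le_sum fun k _ => card_biUnion_le)
  have h3 : (((Icc k₁ K).biUnion fun k => (GW cap k (Tlo η k) (Thi η k)).biUnion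
      fun v => XP P A k m c v).card)
      ≤ ∑ k ∈ Icc k₁ K, ∑ v ∈ GW cap k (Tlo η k) (Thi η k), (XP P A k m c v).card :=
    card_biUnion_le.trans (sum_le_sum fun k _ => card_biUnion_le)
  have h4 := h1.trans (add_le_add (add_le_add (le_refl _) h2) h3)
  exact_mod_cast h4

open scoped Classical in
/-- COUNT, several visits -/
theorem count_many {P : Set ℤ} (hP : ∀ x ∈ P, Odd x) {A : ℝ} (hA : 0 ≤ A) {η : ℝ} {cap k₁ K t₂ m : ℕ}
    (hK : k₁ ≤ K) (ht₂ : Thi η K ≤ t₂) (c : ℤ) {y : ℝ} (z : ℝ)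
    (hy : 2 * A * 3 ^ K / 2 ^ (Tlo η K) + (3 / 2) ^ K < y) (h : ℕ) :
    ((cls (Sh P y z h) A (2 * A) m 1 c).card : ℝ) * ((h : ℝ) * h - h)
      ≤ (((cls Set.univ A (2 * A) m 1 c).filter (fun x => ¬ Good η cap k₁ K x)).card : ℝ)
          * ((h : ℝ) * h - h) + PTot P A cap K t₂ m c := by
  have hh := sq_sub_nonneg h
  set Bad := (cls Set.univ A (2 * A) m 1 c).filter (fun x => ¬ Good η cap k₁ K x) with hBad
  set Fh := (cls Set.univ A (2 * A) m 1 c).filter (fun x => h ≤ (PT P A cap K t₂ m c x).card) with hFh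
  have hsub : cls (Sh P y z h) A (2 * A) m 1 c ⊆ Bad ∪ Fh := by
    intro x hx
    rw [mem_cls] at hx
    obtain ⟨h1, h2, ⟨s, hs, hs2⟩, h4⟩ := hx
    have hxc : x ∈ cls Set.univ A (2 * A) m 1 c := by
      rw [mem_cls]; exact ⟨h1, h2, Set.mem_univ _, h4⟩
    rw [mem_union, hBad, mem_filter, hFh, mem_filter]
    by_cases hg : Good η cap k₁ K x
    · right
      refine ⟨hxc, ?_⟩
      rw [← hs]
      apply card_le_card
      intro t ht
      obtain ⟨h5, h6, _⟩ := hs2 t ht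
      obtain ⟨v, h7, h8, h9, h10, h11, h12, h13⟩ := visit_word hP hA hK hxc hg hy h5 h6
      unfold PT
      rw [mem_filter, mem_range]
      exact ⟨by omega, v.length, h8, v, GW_mem h9 (Nat.zero_le _) (by omega), h7, h11⟩
    · left; exact ⟨hxc, hg⟩
  have h1 : ((cls (Sh P y z h) A (2 * A) m 1 c).card : ℝ) ≤ (Bad.card : ℝ) + (Fh.card : ℝ) := by
    exact_mod_cast (card_le_card hsub).trans (card_union_le _ _)
  have h2 : (Fh.card : ℝ) * ((h : ℝ) * h - h) ≤ PTot P A cap K t₂ m c := by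
    unfold PTot
    calc (Fh.card : ℝ) * ((h : ℝ) * h - h) = ∑ _x ∈ Fh, ((h : ℝ) * h - h) := by
          rw [sum_const, nsmul_eq_mul]
      _ ≤ ∑ x ∈ Fh, (((PT P A cap K t₂ m c x).card : ℝ) * ((PT P A cap K t₂ m c x).card : ℝ)
            - ((PT P A cap K t₂ m c x).card : ℝ)) := by
          apply sum_le_sum
          intro x hx
          have h3 := (mem_filter.1 hx).2
          have h4 : (h : ℝ) ≤ ((PT P A cap K t₂ m c x).card : ℝ) := by exact_mod_cast h3
          rcases Nat.eq_zero_or_pos h with h0 | h0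
          · rw [h0]; simp only [Nat.cast_zero, mul_zero, sub_zero]
            exact sq_sub_nonneg _
          · have h5 : (1 : ℝ) ≤ h := by exact_mod_cast h0
            nlinarith
      _ ≤ _ := by
          apply sum_le_sum_of_subset_of_nonneg (filter_subset _ _)
          intro x _ _; exact sq_sub_nonneg _
  nlinarith [mul_le_mul_of_nonneg_right h1 hh]

open scoped Classical in
/-- COUNT, no visit -/
theorem count_none {P : Set ℤ} (hP : ∀ x ∈ P, Odd x) {A : ℝ} (hA : 0 ≤ A) {η : ℝ}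
    {cap k₁ k₃ K t₂ m : ℕ} (hk : k₁ ≤ K) (hk3 : k₃ ≤ K) (ht₂ : ∀ k ≤ K, Thi η k ≤ t₂) (c : ℤ) {y z : ℝ}
    (hy1 : ∀ k, k₁ ≤ k → k ≤ k₃ → y ≤ A * 3 ^ k / 2 ^ (Thi η k))
    (hy2 : y ≤ A / 2 ^ (Thi η k₁))
    (hz : ∀ k, k₁ ≤ k → k ≤ k₃ → 2 * A * 3 ^ k / 2 ^ (Tlo η k) + (3 / 2) ^ k < z) :
    ((cls (Sh P y z 1)ᶜ A (2 * A) m 1 c).card : ℝ)
      ≤ ((cls Set.univ A (2 * A) m 1 c).card : ℝ)
        + ((Icc k₁ k₃).card : ℝ)
          * (((cls Set.univ A (2 * A) m 1 c).filter (fun x => ¬ Good η cap k₁ K x)).card : ℝ)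
        - ∑ k ∈ Icc k₁ k₃, ∑ v ∈ GW cap k (Tlo η k) (Thi η k), ((XP P A k m c v).card : ℝ)
        + 1 / 2 * PTot P A cap K t₂ m c := by
  set All := cls Set.univ A (2 * A) m 1 c with hAll
  set Bad := All.filter (fun x => ¬ Good η cap k₁ K x) with hBad
  set G := All.filter (fun x => Good η cap k₁ K x) with hG
  have hGB : (G.card : ℝ) + (Bad.card : ℝ) = All.card := by
    have := card_filter_add_card_filter_not (s := All) (fun x => Good η cap k₁ K x)
    exact_mod_cast this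
  set N' : ℤ → ℕ := fun x => ((Icc k₁ k₃).filter (fun k => x ∈ ZZ P A η cap m c k)).card with hN'
  -- points of `G` not in `Sh` have `N' = 0`
  have hsub : cls (Sh P y z 1)ᶜ A (2 * A) m 1 c ⊆ Bad ∪ G.filter (fun x => N' x = 0) := by
    intro x hx
    rw [mem_cls] at hx
    obtain ⟨h1, h2, h3, h4⟩ := hx
    have hxc : x ∈ All := by
      rw [hAll, mem_cls]; exact ⟨h1, h2, Set.mem_univ _, h4⟩
    rw [mem_union, hBad, mem_filter, mem_filter, hG, mem_filter]
    by_cases hg : Good η cap k₁ K x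
    · right
      refine ⟨⟨hxc, hg⟩, ?_⟩
      rw [hN']
      simp only
      rw [card_eq_zero, filter_eq_empty_iff]
      intro k hkI hxZ
      rw [mem_Icc] at hkI
      unfold ZZ at hxZ
      rw [mem_biUnion] at hxZ
      obtain ⟨v, hv, hxv⟩ := hxZ
      exact h3 (visit_Sh hP hA hk3 hxc hg hy1 hy2 hz hkI.1 hkI.2 hv hxv)
    · left; exact ⟨hxc, hg⟩
  have h1 : ((cls (Sh P y z 1)ᶜ A (2 * A) m 1 c).card : ℝ)
      ≤ (Bad.card : ℝ) + ((G.filter (fun x => N' x = 0)).card : ℝ) := by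
    exact_mod_cast (card_le_card hsub).trans (card_union_le _ _)
  -- `N'` is at most the number of times
  have hN'PT : ∀ x ∈ All, N' x ≤ (PT P A cap K t₂ m c x).card := by
    intro x hx
    have hxo : Odd x := by
      rw [hAll, mem_cls] at hx; exact hx.2.1
    have hdata : ∀ k : ℕ, ∃ v : List ℕ, x ∈ ZZ P A η cap m c k →
        v ∈ GW cap k (Tlo η k) (Thi η k) ∧ x ∈ XP P A k m c v := by
      intro k
      by_cases h : x ∈ ZZ P A η cap m c k
      · unfold ZZ at h
        rw [mem_biUnion] at h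
        obtain ⟨v, hv, hxv⟩ := h
        exact ⟨v, fun _ => ⟨hv, hxv⟩⟩
      · exact ⟨[], fun h' => (h h').elim⟩
    choose f hf using hdata
    apply card_le_card_of_injOn (fun k => (f k).sum)
    · intro k hk'
      rw [mem_coe, mem_filter, mem_Icc] at hk'
      obtain ⟨h3, h4⟩ := hf k hk'.2
      unfold GW at h3
      rw [mem_filter] at h3
      have h5 := ht₂ k (by omega)
      rw [mem_coe]
      unfold PT
      rw [mem_filter, mem_range]
      exact ⟨by simp only; omega, k, by omega, f k, GW_mem h3.1 (Nat.zero_le _) (by omega), rfl, h4⟩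
    · intro k hk' l hl' hkl
      rw [mem_coe, mem_filter, mem_Icc] at hk' hl'
      obtain ⟨h3, h4⟩ := hf k hk'.2
      obtain ⟨h3', h4'⟩ := hf l hl'.2
      unfold GW at h3 h3'
      rw [mem_filter] at h3 h3'
      have hp := FW_props h3.1
      have hp' := FW_props h3'.1
      obtain ⟨p, hpP, hV⟩ := XP_word h4
      obtain ⟨p', hpP', hV'⟩ := XP_word h4'
      have e1 := time_end hp.2 hxo (hP _ hpP) hV
      have e2 := time_end hp'.2 hxo (hP _ hpP') hV'
      have hkl' : (f k).sum = (f l).sum := hkl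
      rw [hkl', e2] at e1
      subst e1
      -- two words from `x` to the same end with the same size
      unfold Vw at hV hV'
      rw [hp.1] at hV
      rw [hp'.1, ← hkl', ← hV] at hV'
      by_contra hne
      have key : ∀ (i j : ℕ) (vi vj : List ℕ), (∀ e ∈ vi, 1 ≤ e) → (∀ e ∈ vj, 1 ≤ e) →
          vi.length = i → vj.length = j → i < j → vi.sum = vj.sum → Vw 1 vi x p' → Vw 1 vj x p' →
          False := by
        intro i j vi vj hvi hvj hli hlj hij hsum hVi hVj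
        have h7 : vj = vj.take (j - i) ++ vj.drop (j - i) := (List.take_append_drop _ vj).symm
        have hlet : ∀ a ∈ vj.take (j - i) ++ vj.drop (j - i), 1 ≤ a := by rw [← h7]; exact hvj
        have hV7 : Vw 1 (vj.take (j - i) ++ vj.drop (j - i)) x p' := by rw [← h7]; exact hVj
        obtain ⟨M₁, hM₁, h8, h9⟩ := Vw_split _ _ hlet x p' (hP _ hpP') hV7
        have h10 : vj.drop (j - i) = vi := word_unique (by decide) _
          (fun a ha => hlet a (List.mem_append_right _ ha)) vi hvi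
          (by rw [List.length_drop, hlj, hli]; omega) x M₁ p' hM₁ (hP _ hpP') h8 hVi
        have h11 : vj.sum = (vj.take (j - i)).sum + vi.sum := by
          conv_lhs => rw [h7]
          rw [List.sum_append, h10]
        have h12 : (vj.take (j - i)).sum = 0 := by omega
        have h13 : (vj.take (j - i)).length = j - i := by
          rw [List.length_take, hlj]; omega
        have h14 : vj.take (j - i) ≠ [] := by
          intro h; rw [h] at h13; simp at h13; omega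
        obtain ⟨a, u', hu'⟩ := List.exists_cons_of_ne_nil h14
        have h15 : 1 ≤ a := hlet a (by rw [hu']; simp)
        rw [hu', List.sum_cons] at h12
        omega
      have hVk : Vw 1 (f k) x p' := by unfold Vw; rw [hp.1, hV, hkl']
      have hVl : Vw 1 (f l) x p' := by
        unfold Vw; rw [hp'.1, hV', hV, hkl']
      rcases lt_or_gt_of_ne hne with h7 | h7
      · exact key k l (f k) (f l) hp.2 hp'.2 hp.1 hp'.1 h7 hkl' hVk hVl
      · exact key l k (f l) (f k) hp'.2 hp.2 hp'.1 hp.1 h7 hkl'.symm hVl hVk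
  have h2 : ((G.filter (fun x => N' x = 0)).card : ℝ)
      ≤ ∑ x ∈ G, (1 - (N' x : ℝ) + 1 / 2 * ((N' x : ℝ) * N' x - N' x)) := by
    rw [card_filter]
    push_cast
    apply sum_le_sum
    intro x _
    rcases Nat.eq_zero_or_pos (N' x) with h0 | h0
    · rw [if_pos h0, h0]; norm_num
    · rw [if_neg (by omega)]
      have h3 : (1 : ℝ) ≤ N' x := by exact_mod_cast h0
      rcases Nat.lt_or_ge (N' x) 2 with h4 | h4
      · have h5 : N' x = 1 := by omega
        rw [h5]; norm_num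
      · have h5 : (2 : ℝ) ≤ N' x := by exact_mod_cast h4
        nlinarith
  have h3 : ∑ x ∈ G, (1 / 2 * ((N' x : ℝ) * N' x - N' x)) ≤ 1 / 2 * PTot P A cap K t₂ m c := by
    rw [← mul_sum]
    apply mul_le_mul_of_nonneg_left _ (by norm_num)
    unfold PTot
    calc ∑ x ∈ G, ((N' x : ℝ) * N' x - N' x)
        ≤ ∑ x ∈ G, (((PT P A cap K t₂ m c x).card : ℝ) * ((PT P A cap K t₂ m c x).card : ℝ)
            - ((PT P A cap K t₂ m c x).card : ℝ)) := by
          apply sum_le_sum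
          intro x hx
          have h4 := hN'PT x (mem_filter.1 hx).1
          have h5 : (N' x : ℝ) ≤ ((PT P A cap K t₂ m c x).card : ℝ) := by exact_mod_cast h4
          rcases Nat.eq_zero_or_pos (N' x) with h0 | h0
          · rw [h0]; simp only [Nat.cast_zero, mul_zero, sub_zero]
            exact sq_sub_nonneg _
          · have h5 : (1 : ℝ) ≤ N' x := by exact_mod_cast h0
            nlinarith
      _ ≤ _ := by
          apply sum_le_sum_of_subset_of_nonneg (filter_subset _ _)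
          intro x _ _; exact sq_sub_nonneg _
  have h4 : ∑ k ∈ Icc k₁ k₃, ∑ v ∈ GW cap k (Tlo η k) (Thi η k), ((XP P A k m c v).card : ℝ)
      - ((Icc k₁ k₃).card : ℝ) * (Bad.card : ℝ) ≤ ∑ x ∈ G, (N' x : ℝ) := by
    have e1 : ∑ x ∈ G, (N' x : ℝ) = ∑ k ∈ Icc k₁ k₃, ((G.filter (fun x => x ∈ ZZ P A η cap m c k)).card : ℝ) := by
      rw [hN']
      simp only [card_filter]
      push_cast
      rw [sum_comm]
    rw [e1]
    have e2 : ∑ k ∈ Icc k₁ k₃, ∑ v ∈ GW cap k (Tlo η k) (Thi η k), ((XP P A k m c v).card : ℝ)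
        - ((Icc k₁ k₃).card : ℝ) * (Bad.card : ℝ)
        = ∑ k ∈ Icc k₁ k₃, (∑ v ∈ GW cap k (Tlo η k) (Thi η k), ((XP P A k m c v).card : ℝ)
          - (Bad.card : ℝ)) := by
      rw [sum_sub_distrib, sum_const, nsmul_eq_mul]
    rw [e2]
    apply sum_le_sum
    intro k _
    have e3 : (ZZ P A η cap m c k).card = ∑ v ∈ GW cap k (Tlo η k) (Thi η k), (XP P A k m c v).card := by
      unfold ZZ
      exact card_biUnion (XP_disj hP)
    have e4 : ZZ P A η cap m c k ⊆ (G.filter (fun x => x ∈ ZZ P A η cap m c k)) ∪ Bad := by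
      intro x hx
      have hxA : x ∈ All := by
        unfold ZZ at hx
        rw [mem_biUnion] at hx
        obtain ⟨v, hv, hxv⟩ := hx
        exact XP_sub hP hv hxv
      rw [mem_union, mem_filter, hG, hBad, mem_filter, mem_filter]
      by_cases hg : Good η cap k₁ K x
      · left; exact ⟨⟨hxA, hg⟩, hx⟩
      · right; exact ⟨hxA, hg⟩
    have e5 : ((ZZ P A η cap m c k).card : ℝ)
        ≤ ((G.filter (fun x => x ∈ ZZ P A η cap m c k)).card : ℝ) + (Bad.card : ℝ) := by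
      exact_mod_cast (card_le_card e4).trans (card_union_le _ _)
    rw [e3] at e5
    push_cast at e5
    linarith
  have h5 : ∑ x ∈ G, (1 - (N' x : ℝ) + 1 / 2 * ((N' x : ℝ) * N' x - N' x))
      = (G.card : ℝ) - ∑ x ∈ G, (N' x : ℝ) + ∑ x ∈ G, (1 / 2 * ((N' x : ℝ) * N' x - N' x)) := by
    rw [sum_add_distrib, sum_sub_distrib, sum_const, nsmul_eq_mul, mul_one]
  linarith

end Pool.Agent.H998_PL
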