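import Pool.Agent.H998_PL.Fac

/-! Primes on trajectories, part 11: the lowest scales, bounds for the ingredients. -/

set_option autoImplicit false

namespace Pool.Agent.H998_PL

open Finset
open Pool.Agent.H320R2.PD Pool.Agent.H499R2.ND

section

variable {P R : Set ℤ} {θ δ η ε₁ l a L₀ ε' C₁ : ℝ} {m m' K k₁ k₃ : ℕ}

/-- the mass of the words that are not typical -/
noncomputable def el (η l : ℝ) : ℝ := Real.exp (-(η ^ 2 * (3 * Real.sqrt l) / 32))

theorem el_pos (η l : ℝ) : 0 < el η l := Real.exp_pos _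

theorem Par.elk {Lb : ℝ} (h : Par δ η ε₁ l a Lb m m' K k₁ k₃) {k : ℕ} (hk : k₁ ≤ k) :
    Real.exp (-(η ^ 2 * k / 32)) ≤ el η l := by
  unfold el
  apply Real.exp_le_exp.2
  have h1 : (k₁ : ℝ) ≤ k := by exact_mod_cast hk
  have h2 := h.k1sq
  have h3 : η ^ 2 * (3 * Real.sqrt l) ≤ η ^ 2 * k := mul_le_mul_of_nonneg_left (by linarith) (sq_nonneg η)
  linarith

theorem exp_sq (x : ℝ) : Real.exp x ^ 2 = Real.exp (2 * x) := by
  rw [← Real.exp_nat_mul]; push_cast; rfl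

theorem Tlo_le_Thi {η : ℝ} (hη : 0 ≤ η) (k : ℕ) : Tlo η k ≤ Thi η k := by
  have hk : (0 : ℝ) ≤ k := Nat.cast_nonneg k
  have h1 : Tlo η k ≤ 2 * k := by
    unfold Tlo
    rw [Nat.ceil_le]
    push_cast
    nlinarith
  have h2 : 2 * k ≤ Thi η k := by
    unfold Thi
    rw [Nat.le_floor_iff (by positivity)]
    push_cast
    nlinarith
  omega

/-- the number of starting points with a typical word and endpoint in `P` -/
theorem xp_bounds (hP : Eqd P R θ) (hC₁ : 0 < C₁)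
    (hmix : ∀ k m m' A : ℕ, 1 ≤ k → 1 ≤ m' → m' ≤ k → 3 * k ≤ A →
      ∑ T ∈ range (k * A + 1), dev (FWT A k T) wwt (fun w => (Wo w : ℤ)) (k + m) m'
        ≤ C₁ * (1 / (m' : ℝ) + (m : ℝ) ^ 3 / (k : ℝ) ^ 2)) (hm' : 1 ≤ m') (hε' : 0 ≤ ε')
    (hL₀ : ∀ L : ℝ, L₀ ≤ L → ∀ c : ℤ, c % 3 ∈ R →
      |((cls P L (2 * L) m' 1 c).card : ℝ) - θ * (3 / 2) * (L / (3 ^ m' * Real.log L))|
        ≤ ε' * (L / (3 ^ m' * Real.log L)))
    (hδ : 0 < δ) (hδ1 : δ ≤ 1 / 50) (hη : 0 < η) (hη1 : η ≤ 1 / 20) (hε₁ : 0 < ε₁) (hε1 : ε₁ ≤ δ / 10)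
    (h : Par δ η ε₁ l a (max L₀ (Real.exp 100)) m m' K k₁ k₃) (c : ℤ) {k : ℕ} (hk1 : k₁ ≤ k)
    (hk : k ≤ K) :
    (∑ w ∈ GW (2 * (3 * K)) k (Tlo η k) (Thi η k), ((XP P (Real.exp a) k m c w).card : ℝ))
      ≤ Real.exp a / 3 ^ m * ((θ * (3 / 2) * sig R + (ε' + 264 * (C₁ * (1 / (m' : ℝ) + ε₁))))
          / ((1 - 2 * δ) * l)) + 2 * 2 ^ (Thi η K) ∧
    Real.exp a / 3 ^ m * (θ * (3 / 2) * sig R / a - (ε' + 264 * (C₁ * (1 / (m' : ℝ) + ε₁))
          + 5 * el η l) / ((1 - 2 * δ) * l)) - 2 * 2 ^ (Thi η K)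
      ≤ (∑ w ∈ GW (2 * (3 * K)) k (Tlo η k) (Thi η k), ((XP P (Real.exp a) k m c w).card : ℝ)) := by
  have hl := h.l1
  have hk0 : 1 ≤ k := h.one.trans hk1
  have hkR : (0 : ℝ) < k := by exact_mod_cast hk0
  have hThi3 : Thi η k ≤ 3 * k := by
    have h1 := Thi_le hη.le k
    have h2 : (Thi η k : ℝ) ≤ 3 * k := by nlinarith
    exact_mod_cast h2
  have hTm : Thi η k ≤ k * (2 * (3 * K)) := by nlinarith
  have hf6 := h.f6 hδ hη hη1 hε1 hk
  have hLb : max L₀ (Real.exp 100) ≤ Real.exp a * 3 ^ k / 2 ^ (Thi η k) := by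
    refine h.big.trans (le_trans (Real.exp_le_exp.2 ?_) hf6)
    nlinarith
  have hlamle : (1 - 2 * δ) * l ≤ Real.log (Real.exp a * 3 ^ k / 2 ^ (Thi η k)) := by
    rw [← Real.log_exp ((1 - 2 * δ) * l)]
    exact Real.log_le_log (Real.exp_pos _) hf6
  have hsqrt : (3 : ℝ) ^ (k + m) ≤ Real.sqrt (Real.exp a * 3 ^ k / 2 ^ (Thi η k)) := by
    refine (h.three_pow hδ1 hη1 hk).trans ?_
    apply Real.le_sqrt_of_sq_le
    rw [exp_sq]
    refine le_trans (Real.exp_le_exp.2 ?_) hf6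
    nlinarith
  have hlam1 : Real.log (Real.exp a * 3 ^ k / 2 ^ (Tlo η k)) ≤ a := by
    have h1 := upL η a k
    have h2 : Real.exp (a - k * km η) ≤ Real.exp a := by
      apply Real.exp_le_exp.2
      have := km_ge hη1
      have : 0 ≤ (k : ℝ) * km η := by positivity
      linarith
    rw [← Real.log_exp a]
    have h3 := Real.log_le_log (by positivity) (h1.trans h2)
    rwa [Real.log_exp] at h3 ⊢
  have hlam0 : 0 < (1 - 2 * δ) * l := by
    have : 0 < 1 - 2 * δ := by linarith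
    positivity
  have hmain := Nk_bounds hP hm' hε' hL₀ (Real.exp_pos a) (2 * (3 * K)) k m (Tlo η k) (Thi η k)
    (h.hm'.trans hk1) hTm c hLb hsqrt hlam0 hlamle hlam1 (Tlo_le_Thi hη.le k)
  have hdev : ∑ T ∈ range (k * (2 * (3 * K)) + 1),
      dev (FWT (2 * (3 * K)) k T) wwt (fun w => (Wo w : ℤ)) (k + m) m' ≤ C₁ * (1 / (m' : ℝ) + ε₁) := by
    refine (hmix k m m' (2 * (3 * K)) hk0 hm' (h.hm'.trans hk1) (by omega)).trans ?_
    apply mul_le_mul_of_nonneg_left _ hC₁.le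
    apply add_le_add_right
    rw [div_le_iff₀ (by positivity)]
    refine h.m3.trans ?_
    apply mul_le_mul_of_nonneg_left _ hε₁.le
    have h1 : 3 * Real.sqrt l ≤ k := h.k1sq.trans (by exact_mod_cast hk1)
    have h2 : (3 * Real.sqrt l) ^ 2 ≤ (k : ℝ) ^ 2 := pow_le_pow_left₀ (by positivity) h1 2
    rw [mul_pow, Real.sq_sqrt (by linarith)] at h2
    linarith
  have h2pow : (2 : ℝ) ^ (Thi η k) ≤ 2 ^ (Thi η K) :=
    pow_le_pow_right₀ (by norm_num) (Thi_mono hη.le hk)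
  have hm1 := massR_le R (3 * K) k (Tlo η k) (Thi η k) hk0
  have hm2 := massR_ge R (h := 3 * K) hk0 (by omega) hη (by linarith)
  have hel := h.elk hk1
  have hA3 : 0 < Real.exp a / 3 ^ m := by positivity
  have hθ := hP.th
  constructor
  · refine hmain.1.trans ?_
    apply add_le_add _ (by linarith)
    apply mul_le_mul_of_nonneg_left _ hA3.le
    rw [← add_div]
    apply div_le_div_of_nonneg_right _ hlam0.le
    have h1 : θ * (3 / 2) * ∑ T ∈ Icc (Tlo η k) (Thi η k), massR R (2 * (3 * K)) k T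
        ≤ θ * (3 / 2) * sig R := mul_le_mul_of_nonneg_left hm1 (by linarith [hθ.1])
    linarith
  · refine le_trans ?_ hmain.2
    apply sub_le_sub _ (by linarith)
    apply mul_le_mul_of_nonneg_left _ hA3.le
    have ha0 : 0 < a := by linarith [h.a1]
    have hala : (1 - 2 * δ) * l ≤ a := hlamle.trans (by
      refine le_trans ?_ hlam1
      apply Real.log_le_log (by positivity)
      exact div_le_div_of_nonneg_left (by positivity) (by positivity)
        (pow_le_pow_right₀ (by norm_num) (Tlo_le_Thi hη.le k)))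
    have h1 : θ * (3 / 2) * (sig R - 3 * el η l)
        ≤ θ * (3 / 2) * ∑ T ∈ Icc (Tlo η k) (Thi η k), massR R (2 * (3 * K)) k T :=
      mul_le_mul_of_nonneg_left (by linarith) (by linarith [hθ.1])
    have h2 : θ * (3 / 2) * sig R / a - 5 * el η l / ((1 - 2 * δ) * l)
        ≤ (θ * (3 / 2) * ∑ T ∈ Icc (Tlo η k) (Thi η k), massR R (2 * (3 * K)) k T) / a := by
      have e1 : θ * (3 / 2) * (3 * el η l) ≤ 5 * el η l := by
        have := el_pos η l
        nlinarith [hθ.2]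
      have e2 : θ * (3 / 2) * sig R / a - 5 * el η l / a
          ≤ (θ * (3 / 2) * ∑ T ∈ Icc (Tlo η k) (Thi η k), massR R (2 * (3 * K)) k T) / a := by
        rw [← sub_div]
        apply div_le_div_of_nonneg_right _ ha0.le
        linarith
      have e3 : 5 * el η l / a ≤ 5 * el η l / ((1 - 2 * δ) * l) :=
        div_le_div_of_nonneg_left (by linarith [el_pos η l]) hlam0 hala
      linarith
    have h3 : (ε' + 264 * ∑ T ∈ range (k * (2 * (3 * K)) + 1),
      dev (FWT (2 * (3 * K)) k T) wwt (fun w => (Wo w : ℤ)) (k + m) m') / ((1 - 2 * δ) * l)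
      ≤ (ε' + 264 * (C₁ * (1 / (m' : ℝ) + ε₁))) / ((1 - 2 * δ) * l) := by
      apply div_le_div_of_nonneg_right _ hlam0.le
      linarith
    rw [add_div (ε' + 264 * (C₁ * (1 / (m' : ℝ) + ε₁)))]
    linarith

/-- the first letters -/
theorem early_bound (hP : Eqd P R θ) (hδ : 0 < δ) (hδ1 : δ ≤ 1 / 50) (hη : 0 < η) (hη1 : η ≤ 1 / 20)
    (hε1 : ε₁ ≤ δ / 10) (h : Par δ η ε₁ l a (max L₀ (Real.exp 100)) m m' K k₁ k₃) (c : ℤ)
    {k : ℕ} (hk : k ≤ k₁) :
    (∑ v ∈ GW (2 * (3 * K)) k 0 (Thi η k₁), ((XP P (Real.exp a) k m c v).card : ℝ))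
      ≤ 264 * (Real.exp a / 3 ^ m) / ((1 - 2 * δ) * l) + 2 * 2 ^ (Thi η K) := by
  have hl := h.l1
  have hlam0 : 0 < (1 - 2 * δ) * l := by
    have : 0 < 1 - 2 * δ := by linarith
    positivity
  have hf4 := h.f4' hδ hη hη1 hε1
  have hterm : ∀ v ∈ GW (2 * (3 * K)) k 0 (Thi η k₁), ((XP P (Real.exp a) k m c v).card : ℝ)
      ≤ 264 * (Real.exp a / 3 ^ m) / ((1 - 2 * δ) * l) * wwt v + 2 := by
    intro v hv
    unfold GW at hv
    rw [mem_filter] at hv
    have hvp := FW_props hv.1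
    have hXP := XP_card hP.odd (Real.exp_pos a).le (m := m) (c := c) hvp.1 hvp.2
    rw [abs_le] at hXP
    set L := Real.exp a * 3 ^ k / 2 ^ v.sum with hL
    have hLge : Real.exp (l - 0.25 * (δ * l)) ≤ L := by
      rw [hL]
      refine hf4.trans ?_
      calc Real.exp a / 2 ^ (Thi η k₁) ≤ Real.exp a / 2 ^ v.sum :=
            div_le_div_of_nonneg_left (Real.exp_pos a).le (by positivity)
              (pow_le_pow_right₀ (by norm_num) hv.2.2)
        _ ≤ _ := by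
            apply div_le_div_of_nonneg_right _ (by positivity)
            exact le_mul_of_one_le_right (Real.exp_pos a).le (one_le_pow₀ (by norm_num))
    have hδl : δ * l ≤ 1 / 50 * l := mul_le_mul_of_nonneg_right hδ1 (by linarith)
    have hδl0 : 0 < δ * l := by positivity
    have hLge2 : Real.exp ((1 - 2 * δ) * l) ≤ L := by
      refine le_trans (Real.exp_le_exp.2 ?_) hLge
      nlinarith
    have hLlog : (1 - 2 * δ) * l ≤ Real.log L := by
      rw [← Real.log_exp ((1 - 2 * δ) * l)]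
      exact Real.log_le_log (Real.exp_pos _) hLge2
    have h100 : Real.exp 100 ≤ L := by
      refine (Real.exp_le_exp.2 ?_).trans hLge2
      nlinarith
    have hsq : (3 : ℝ) ^ (k + m) ≤ Real.sqrt L := by
      refine (h.three_pow hδ1 hη1 (hk.trans h.k1K)).trans ?_
      apply Real.le_sqrt_of_sq_le
      rw [exp_sq]
      refine le_trans (Real.exp_le_exp.2 ?_) hLge2
      nlinarith
    have hb := bt3 hP.prime h100 (k + m) hsq (cop_two_pow v.sum) (Wo v + 3 ^ k * c)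
    have hb2 : 264 * (L / (3 ^ (k + m) * Real.log L))
        ≤ 264 * (Real.exp a / 3 ^ m) / ((1 - 2 * δ) * l) * wwt v := by
      have e1 : 264 * (Real.exp a / 3 ^ m) / ((1 - 2 * δ) * l) * wwt v
          = 264 * (L / (3 ^ (k + m) * ((1 - 2 * δ) * l))) := by
        rw [hL, pow_add]
        unfold wwt
        rw [one_div, inv_pow]
        have : 0 < 1 - 2 * δ := by linarith
        field_simp
      rw [e1]
      apply mul_le_mul_of_nonneg_left _ (by norm_num)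
      apply div_le_div_of_nonneg_left (by positivity) (by positivity)
      exact mul_le_mul_of_nonneg_left hLlog (by positivity)
    linarith [hXP.2]
  refine (sum_le_sum hterm).trans ?_
  rw [sum_add_distrib, ← mul_sum, sum_const, nsmul_eq_mul]
  have hmass : ∑ v ∈ GW (2 * (3 * K)) k 0 (Thi η k₁), wwt v ≤ 1 := by
    refine le_trans ?_ (sum_wwt_le (2 * (3 * K)) k)
    unfold GW
    apply sum_le_sum_of_subset_of_nonneg (filter_subset _ _)
    intro w _ _; unfold wwt; positivity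
  have hc := GW_card (2 * (3 * K)) k 0 (Thi η k₁)
  have h2pow : (2 : ℝ) ^ (Thi η k₁) ≤ 2 ^ (Thi η K) :=
    pow_le_pow_right₀ (by norm_num) (Thi_mono hη.le h.k1K)
  have hpos : 0 ≤ 264 * (Real.exp a / 3 ^ m) / ((1 - 2 * δ) * l) := by positivity
  have := mul_le_mul_of_nonneg_left hmass hpos
  linarith

open scoped Classical in
/-- the points that are not good -/
theorem bad_bound {Lb : ℝ} (hδ1 : δ ≤ 1 / 50) (hη : 0 < η) (hη1 : η ≤ 1 / 20)
    (h : Par δ η ε₁ l a Lb m m' K k₁ k₃) (c : ℤ) :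
    (((cls Set.univ (Real.exp a) (2 * Real.exp a) m 1 c).filter
      (fun x => ¬ Good η (2 * (3 * K)) k₁ K x)).card : ℝ)
      ≤ Real.exp a / (2 * 3 ^ m) * (l * el η l) + 2 * l * 2 ^ (Thi η K) := by
  have hl := h.l1
  have hKl := h.K_le hδ1 hη1
  refine (bad_card (Real.exp_pos a).le (2 * (3 * K)) k₁ K m h.k1K c).trans ?_
  have hA : 0 < Real.exp a / (2 * 3 ^ m) := by positivity
  have hterm : ∀ k ∈ Icc k₁ K, Real.exp a / (2 * 3 ^ m)
      * (1 - ∑ w ∈ GW (2 * (3 * K)) k (Tlo η k) (Thi η k), wwt w) + 1 + 2 ^ (Thi η k)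
      ≤ Real.exp a / (2 * 3 ^ m) * (3 * el η l) + 2 * 2 ^ (Thi η K) := by
    intro k hk
    rw [mem_Icc] at hk
    have h1 := mass_typ (cap := 2 * (3 * K)) (h.one.trans hk.1) (by omega) hη (by linarith)
    have h2 := h.elk hk.1
    have h3 : (2 : ℝ) ^ (Thi η k) ≤ 2 ^ (Thi η K) :=
      pow_le_pow_right₀ (by norm_num) (Thi_mono hη.le hk.2)
    have h4 : (1 : ℝ) ≤ 2 ^ (Thi η K) := one_le_pow₀ (by norm_num)
    have h5 := mul_le_mul_of_nonneg_left (h1.trans (mul_le_mul_of_nonneg_left h2 (by norm_num))) hA.le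
    linarith
  refine (sum_le_sum hterm).trans ?_
  rw [sum_const, Nat.card_Icc, nsmul_eq_mul]
  have h1 : ((K + 1 - k₁ : ℕ) : ℝ) ≤ l / 12 := by
    have : K + 1 - k₁ ≤ K := by have := h.one; omega
    have h2 : ((K + 1 - k₁ : ℕ) : ℝ) ≤ K := by exact_mod_cast this
    linarith
  have h2 : 0 ≤ Real.exp a / (2 * 3 ^ m) * (3 * el η l) + 2 * 2 ^ (Thi η K) := by
    have := el_pos η l
    positivity
  refine (mul_le_mul_of_nonneg_right h1 h2).trans ?_
  have h3 : 0 ≤ Real.exp a / (2 * 3 ^ m) * (l * el η l) := by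
    have := el_pos η l
    positivity
  have h4 : 0 ≤ l * 2 ^ (Thi η K) := by positivity
  have h5 : l / 12 * (Real.exp a / (2 * 3 ^ m) * (3 * el η l) + 2 * 2 ^ (Thi η K))
      = 1 / 4 * (Real.exp a / (2 * 3 ^ m) * (l * el η l)) + 1 / 6 * (l * 2 ^ (Thi η K)) := by ring
  rw [h5]
  linarith

/-- the pairs of times -/
theorem ptot_bound {Lb C X₀ : ℝ} (hP : ∀ x ∈ P, 0 < x ∧ x.toNat.Prime) (hPo : ∀ x ∈ P, Odd x)
    (hC : 0 < C)
    (hpair : ∀ L : ℝ, X₀ ≤ L → ∀ τ n : ℕ, 1 ≤ τ → (2 : ℝ) ^ τ * 3 ^ n ≤ Real.sqrt L →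
      ∀ u v : ℤ, IsCoprime u 3 →
      ((cls (Pt P τ) L (2 * L) n u v).card : ℝ) ≤ C * (L / (3 ^ n * (Real.log L) ^ 2)))
    (hδ : 0 < δ) (hδ1 : δ ≤ 1 / 50) (hη : 0 < η) (hη1 : η ≤ 1 / 20)
    (h : Par δ η ε₁ l a Lb m m' K k₁ k₃) (hLb : X₀ ≤ Lb) (c : ℤ) :
    PTot P (Real.exp a) (2 * (3 * K)) K (Thi η K) m c
      ≤ Real.exp a / (2 * 3 ^ m) * (1200 * C * δ ^ 2) + l ^ 2 * 2 ^ (Thi η K) := by
  have hl := h.l1
  have hKl := h.K_le hδ1 hη1
  have hf8 := h.f8' hδ1 hη hη1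
  have h1 := PTot_le hP hPo hC hpair (Real.exp_pos a) (2 * (3 * K)) K (Thi η K) m c
    (lam0 := l / 2) (by linarith) (by
      rw [← Real.log_exp (l / 2)]
      refine Real.log_le_log (Real.exp_pos _) (le_trans (Real.exp_le_exp.2 ?_) hf8)
      linarith) (by
      refine hLb.trans (h.big.trans (le_trans (Real.exp_le_exp.2 ?_) hf8))
      linarith) (by
      apply Real.le_sqrt_of_sq_le
      have e1 := h.f8 hδ1 hη hη1
      have e2 := h.three_pow hδ1 hη1 (le_refl K)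
      calc ((2 : ℝ) ^ (Thi η K) * 3 ^ (K + m)) ^ 2
          ≤ (Real.exp (0.1185 * l) * Real.exp (0.095 * l)) ^ 2 := by
            apply pow_le_pow_left₀ (by positivity)
            exact mul_le_mul e1 e2 (by positivity) (Real.exp_pos _).le
        _ = Real.exp (2 * (0.1185 * l + 0.095 * l)) := by
            rw [← Real.exp_add, ← Real.exp_nat_mul]; push_cast; rfl
        _ ≤ Real.exp (0.88 * l) := Real.exp_le_exp.2 (by linarith)
        _ ≤ _ := hf8)
  refine h1.trans ?_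
  -- the number of pairs of indices
  have hK2 : (K : ℝ) ≤ δ * l / 0.24 := by
    rw [le_div_iff₀ (by norm_num)]
    have := h.Kle
    have h2 := km_ge hη1
    have h3 : (K : ℝ) * 0.24 ≤ K * km η := mul_le_mul_of_nonneg_left h2 (Nat.cast_nonneg _)
    linarith
  have hK1 : (1 : ℝ) ≤ K := by exact_mod_cast h.one.trans h.k1K
  have ht2 : (Thi η K : ℝ) ≤ 2.05 * K := (Thi_le hη.le K).trans
    (mul_le_mul_of_nonneg_right (by linarith) (Nat.cast_nonneg _))
  have hprod : ((K : ℝ) + 1) * (Thi η K : ℝ) ≤ 72 * (δ * l) ^ 2 := by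
    have e1 : (K : ℝ) + 1 ≤ 2 * K := by linarith
    have e2 : ((K : ℝ) + 1) * (Thi η K : ℝ) ≤ (2 * K) * (2.05 * K) :=
      mul_le_mul e1 ht2 (Nat.cast_nonneg _) (by positivity)
    have e3 : (K : ℝ) ^ 2 ≤ (δ * l / 0.24) ^ 2 := pow_le_pow_left₀ (Nat.cast_nonneg _) hK2 2
    have e4 : (δ * l / 0.24) ^ 2 = (δ * l) ^ 2 / 0.0576 := by rw [div_pow]; norm_num
    rw [e4, le_div_iff₀ (by norm_num)] at e3
    nlinarith [sq_nonneg (δ * l)]
  have hprod2 : ((K : ℝ) + 1) * (Thi η K : ℝ) ≤ l ^ 2 / 4 := by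
    have e1 : (δ * l) ^ 2 ≤ (1 / 50 * l) ^ 2 :=
      pow_le_pow_left₀ (by positivity) (mul_le_mul_of_nonneg_right hδ1 (by linarith)) 2
    nlinarith [sq_nonneg l]
  have hA : 0 < Real.exp a / (2 * 3 ^ m) := by positivity
  have e0 : C * (Real.exp a / 3 ^ m) / (l / 2) ^ 2 = 8 * C * (Real.exp a / (2 * 3 ^ m)) / l ^ 2 := by
    field_simp
    ring
  have hpos1 : 0 ≤ 8 * C * (Real.exp a / (2 * 3 ^ m)) / l ^ 2 := by positivity
  calc 2 * (((K : ℝ) + 1) * (Thi η K : ℕ) * (C * (Real.exp a / 3 ^ m) / (l / 2) ^ 2 + 2 * 2 ^ (Thi η K)))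
      = 2 * (((K : ℝ) + 1) * (Thi η K : ℝ)) * (8 * C * (Real.exp a / (2 * 3 ^ m)) / l ^ 2)
        + 4 * (((K : ℝ) + 1) * (Thi η K : ℝ)) * 2 ^ (Thi η K) := by rw [e0]; ring
    _ ≤ 2 * (72 * (δ * l) ^ 2) * (8 * C * (Real.exp a / (2 * 3 ^ m)) / l ^ 2)
        + 4 * (l ^ 2 / 4) * 2 ^ (Thi η K) := by
        apply add_le_add
        · exact mul_le_mul_of_nonneg_right (by linarith) hpos1
        · exact mul_le_mul_of_nonneg_right (by linarith) (by positivity)
    _ = Real.exp a / (2 * 3 ^ m) * (1152 * C * δ ^ 2) + l ^ 2 * 2 ^ (Thi η K) := by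
        field_simp
        ring
    _ ≤ _ := by
        have : Real.exp a / (2 * 3 ^ m) * (1152 * C * δ ^ 2) ≤ Real.exp a / (2 * 3 ^ m) * (1200 * C * δ ^ 2) := by
          apply mul_le_mul_of_nonneg_left _ hA.le
          have : 0 < C * δ ^ 2 := by positivity
          linarith
        linarith

end

end Pool.Agent.H998_PL
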