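import Pool.Agent.H998_PL.Base3

/-! Primes on trajectories, part 13: all scales. -/

set_option autoImplicit false

namespace Pool.Agent.H998_PL

open Finset
open Pool.Agent.H320R2.PD Pool.Agent.H499R2.ND
open Pool.Agent.R344.TH

theorem kap0_nonneg {θ : ℝ} (hθ : 0 ≤ θ) (R : Set ℤ) : 0 ≤ kap0 θ R := by
  unfold kap0
  have := sig_nonneg R
  have := log43
  positivity

theorem kap0_le {θ : ℝ} (hθ : 0 ≤ θ) (hθ1 : θ ≤ 1) (R : Set ℤ) : kap0 θ R ≤ 12 := by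
  unfold kap0
  have h1 := sig_nonneg R
  have h2 := sig_le R
  have h3 := log43
  rw [div_le_iff₀ (by linarith)]
  have : θ * sig R ≤ 1 * 1 := mul_le_mul hθ1 h2 h1 (by norm_num)
  nlinarith

/-- THE LOWEST SCALES -/
theorem base_all {P R : Set ℤ} {θ : ℝ} (hP : Eqd P R θ) : ∃ C₂ : ℝ, 0 < C₂ ∧ ∀ δ : ℝ, 0 < δ →
    δ ≤ 1 / 50 → ∀ ε : ℝ, 0 < ε → ∃ l₀ : ℝ, 1 ≤ l₀ ∧ ∀ l : ℝ, l₀ ≤ l → ∀ a : ℝ, l - Real.log 2 ≤ a →
      a ≤ l + 3 * Real.sqrt l → ∀ m : ℕ, (m : ℝ) ≤ a ^ (1 / 4 : ℝ) →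
      PB (Sh P (Real.exp (l / (1 + δ))) (Real.exp l) 1) (Real.exp a) m
        (kap0 θ R * δ + C₂ * δ ^ 2 + ε) ∧
      PB (Sh P (Real.exp (l / (1 + δ))) (Real.exp l) 1)ᶜ (Real.exp a) m
        (1 - kap0 θ R * δ + C₂ * δ ^ 2 + ε) ∧
      ∀ j : ℕ, 2 ≤ j → PB (Sh P (Real.exp (l / (1 + δ))) (Real.exp l) j) (Real.exp a) m
        (C₂ * δ ^ 2 / ((j : ℝ) * j - j) + 1 / l ^ 2) := by
  obtain ⟨C₁, hC₁, hmix⟩ := mix2
  obtain ⟨C, X₀, hC, _, hpair⟩ := pair_cls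
  refine ⟨1200 * C + 50, by positivity, ?_⟩
  intro δ hδ hδ1 ε hε
  -- parameters
  obtain ⟨η, hη⟩ : ∃ η : ℝ, η = min (1 / 20) (ε / 280) := ⟨_, rfl⟩
  have hη0 : 0 < η := by rw [hη]; positivity
  have hη1 : η ≤ 1 / 20 := by rw [hη]; exact min_le_left _ _
  have hη2 : η ≤ ε / 280 := by rw [hη]; exact min_le_right _ _
  obtain ⟨ε₁, hε₁⟩ : ∃ ε₁ : ℝ, ε₁ = min (δ / 10) (min (ε / 4400) (ε / (400 * (264 * C₁)))) := ⟨_, rfl⟩
  have hε₁0 : 0 < ε₁ := by rw [hε₁]; positivity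
  have hε₁1 : ε₁ ≤ δ / 10 := by rw [hε₁]; exact min_le_left _ _
  have hε₁2 : ε₁ ≤ ε / 4400 := by rw [hε₁]; exact (min_le_right _ _).trans (min_le_left _ _)
  have hε₁3 : ε₁ ≤ ε / (400 * (264 * C₁)) := by
    rw [hε₁]; exact (min_le_right _ _).trans (min_le_right _ _)
  obtain ⟨m', hm'⟩ := exists_nat_ge (max 1 (400 * (264 * C₁) / ε))
  have hm'1 : 1 ≤ m' := by
    have : (1 : ℝ) ≤ m' := (le_max_left _ _).trans hm'
    exact_mod_cast this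
  have hm'2 : 400 * (264 * C₁) / ε ≤ m' := (le_max_right _ _).trans hm'
  have hm'R : (0 : ℝ) < m' := by exact_mod_cast hm'1
  set ε₃ : ℝ := ε / 400 + 264 * (C₁ * (1 / (m' : ℝ) + ε₁)) with hε₃
  have hε₃0 : 0 ≤ ε₃ := by positivity
  have hε₃1 : ε₃ ≤ ε / 80 := by
    have h1 : 264 * C₁ * (1 / (m' : ℝ)) ≤ ε / 400 := by
      rw [mul_one_div, div_le_iff₀ hm'R]
      rw [div_le_iff₀ hε] at hm'2
      linarith
    have h2 : 264 * C₁ * ε₁ ≤ ε / 400 := by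
      rw [le_div_iff₀ (by positivity)] at hε₁3
      linarith
    rw [hε₃]
    have : 264 * (C₁ * (1 / (m' : ℝ) + ε₁)) = 264 * C₁ * (1 / (m' : ℝ)) + 264 * C₁ * ε₁ := by ring
    linarith
  obtain ⟨L₀, hL₀⟩ := hP.eqd m' hm'1 (ε / 400) (by positivity)
  set L₁ := max L₀ X₀ with hL₁
  have hL₁' : ∀ L : ℝ, L₁ ≤ L → ∀ c : ℤ, c % 3 ∈ R →
      |((cls P L (2 * L) m' 1 c).card : ℝ) - θ * (3 / 2) * (L / (3 ^ m' * Real.log L))|
        ≤ ε / 400 * (L / (3 ^ m' * Real.log L)) := fun L hL => hL₀ L ((le_max_left _ _).trans hL)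
  obtain ⟨l₁, hl₁⟩ := params hδ hδ1 hη0 hη1 hε₁0 hε₁1 (max L₁ (Real.exp 100)) m'
  obtain ⟨l₂, hl₂1, hl₂⟩ := el_ev η hη0
  refine ⟨max (max l₁ l₂) (max 1 (8 / ε)), le_trans (le_max_left _ _) (le_max_right _ _), ?_⟩
  intro l hl a ha1 ha2 m hm
  have hll₁ : l₁ ≤ l := (le_max_left _ _).trans ((le_max_left _ _).trans hl)
  have hll₂ : l₂ ≤ l := (le_max_right _ _).trans ((le_max_left _ _).trans hl)
  have hl1 : 1 ≤ l := (le_max_left _ _).trans ((le_max_right _ _).trans hl)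
  have hlε : 8 / ε ≤ l := (le_max_right _ _).trans ((le_max_right _ _).trans hl)
  have hsmall := hl₂ l hll₂
  have hsq : 1 / l ^ 2 ≤ ε / 8 := by
    rw [div_le_iff₀ (by positivity)]
    rw [div_le_iff₀ hε] at hlε
    have : l ≤ l ^ 2 := by nlinarith
    nlinarith
  have hel := el_pos η l
  have hexp := Real.exp_pos (-(l / 2))
  have g1 : 0 ≤ l ^ 2 * el η l := by positivity
  have g2 : 0 ≤ l * el η l := by positivity
  obtain ⟨K, k₁, k₃, hpar⟩ := hl₁ l hll₁ a ha1 ha2 m hm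
  have hxp := fun (c : ℤ) (k : ℕ) (hk1 : k₁ ≤ k) (hk : k ≤ K) =>
    xp_bounds hP hC₁ hmix hm'1 (by positivity : (0 : ℝ) ≤ ε / 400) hL₁' hδ hδ1 hη0 hη1 hε₁0 hε₁1 hpar c
      hk1 hk
  have hpt := fun c : ℤ => ptot_bound hP.prime hP.odd hC (hpair P hP.prime) hδ hδ1 hη0 hη1 hpar
    ((le_max_right L₀ X₀).trans (le_max_left _ _)) c
  have hA : 0 < Real.exp a / (2 * 3 ^ m) := by positivity
  refine ⟨PB_of fun c => ?_, PB_of fun c => ?_, fun j hj => PB_of fun c => ?_⟩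
  · refine (base_up hP hδ hδ1 hη0 hη1 hε₁0 hε₁1 hpar hε₃0 c
      (fun k hk1 hk => (hxp c k hk1 hk).1)).trans ?_
    apply mul_le_mul_of_nonneg_left _ hA.le
    have : 0 < C * δ ^ 2 := by positivity
    nlinarith [sq_nonneg δ]
  · refine (base_lo hP hδ hδ1 hη0 hη1 hε₁0 hε₁1 hpar hε₃0 c
      (fun k hk1 hk => (hxp c k hk1 hk).2) hC (hpt c)).trans ?_
    apply mul_le_mul_of_nonneg_left _ hA.le
    have : 0 < C * δ ^ 2 := by positivity
    nlinarith [sq_nonneg δ]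
  · refine (base_many hP.odd hδ hδ1 hη0 hη1 hpar c (hpt c) j hj).trans ?_
    apply mul_le_mul_of_nonneg_left _ hA.le
    have hjR : (2 : ℝ) ≤ j := by exact_mod_cast hj
    have hjj : (0 : ℝ) < (j : ℝ) * j - j := by nlinarith
    have h1 : 1200 * C * δ ^ 2 / ((j : ℝ) * j - j) ≤ (1200 * C + 50) * δ ^ 2 / ((j : ℝ) * j - j) := by
      apply div_le_div_of_nonneg_right _ hjj.le
      nlinarith [sq_nonneg δ]
    linarith

/-- ALL SCALES -/
theorem all_PB {P R : Set ℤ} {θ : ℝ} (hP : Eqd P R θ) : ∃ C₂ K₂ : ℝ, 0 < C₂ ∧ 0 < K₂ ∧ ∀ δ : ℝ, 0 < δ →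
    δ ≤ 1 / 50 → ∃ l₀ : ℝ, 1 ≤ l₀ ∧ ∀ l : ℝ, l₀ ≤ l → ∀ A : ℝ, Real.exp l / 2 ≤ A →
      PB (Sh P (Real.exp (l / (1 + δ))) (Real.exp l) 1) A 0 (kap0 θ R * δ + C₂ * δ ^ 2) ∧
      PB (Sh P (Real.exp (l / (1 + δ))) (Real.exp l) 1)ᶜ A 0 (1 - kap0 θ R * δ + C₂ * δ ^ 2) ∧
      ∀ j : ℕ, 2 ≤ j → PB (Sh P (Real.exp (l / (1 + δ))) (Real.exp l) j) A 0
        (C₂ * δ ^ 2 / ((j : ℝ) * j - j) + K₂ / l ^ 2) := by
  obtain ⟨C₂, hC₂, hbase⟩ := base_all hP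
  obtain ⟨l₁, K, hl₁, hK, hchain⟩ := H998_BC.chain_PB (d := 1) (by norm_num) isCoprime_one_left
    (γ := 1 / 2) (by norm_num) (by norm_num) 2 (by norm_num)
  refine ⟨C₂ + 1, 1 + K, by positivity, by positivity, ?_⟩
  intro δ hδ hδ1
  obtain ⟨l₂, hl₂, hb⟩ := hbase δ hδ hδ1 (δ ^ 2 / 2) (by positivity)
  refine ⟨max (max l₁ l₂) (max 1 (2 * K / δ ^ 2)), le_trans (le_max_left _ _) (le_max_right _ _), ?_⟩
  intro l hl A hA
  have hll₁ : l₁ ≤ l := (le_max_left _ _).trans ((le_max_left _ _).trans hl)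
  have hll₂ : l₂ ≤ l := (le_max_right _ _).trans ((le_max_left _ _).trans hl)
  have hl1 : 1 ≤ l := (le_max_left _ _).trans ((le_max_right _ _).trans hl)
  have hlK : 2 * K / δ ^ 2 ≤ l := (le_max_right _ _).trans ((le_max_right _ _).trans hl)
  have hKl : K / l ^ 2 ≤ δ ^ 2 / 2 := by
    rw [div_le_iff₀ (by positivity)]
    rw [div_le_iff₀ (by positivity)] at hlK
    have h1 : l ≤ l ^ 2 := by nlinarith
    have h2 : l * δ ^ 2 ≤ l ^ 2 * δ ^ 2 := mul_le_mul_of_nonneg_right h1 (by positivity)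
    linarith
  have hl0 : 0 < l := by linarith
  have hA0 : 0 < A := lt_of_lt_of_le (by positivity) hA
  have hlog : Real.log (Real.exp l) = l := Real.log_exp l
  have hκ0 := kap0_nonneg hP.th.1 R
  have hκ1 := kap0_le hP.th.1 hP.th.2 R
  have hδ12 : kap0 θ R * δ ≤ 12 * (1 / 50) := mul_le_mul hκ1 hδ1 hδ.le (by norm_num)
  have hrange : ∀ A' : ℝ, Real.exp l / 2 ≤ A' →
      Real.log A' ≤ Real.log (Real.exp l) + 3 * (Real.log (Real.exp l)) ^ (1 / 2 : ℝ) → ∀ m : ℕ,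
      (m : ℝ) ≤ (Real.log A') ^ ((1 / 2 : ℝ) / 2) →
      0 < A' ∧ Real.exp (Real.log A') = A' ∧ l - Real.log 2 ≤ Real.log A' ∧
        Real.log A' ≤ l + 3 * Real.sqrt l ∧ (m : ℝ) ≤ (Real.log A') ^ (1 / 4 : ℝ) := by
    intro A' h1 h2 m h3
    have h4 : 0 < A' := lt_of_lt_of_le (by positivity) h1
    refine ⟨h4, Real.exp_log h4, ?_, ?_, ?_⟩
    · rw [← Real.log_exp l, ← Real.log_div (Real.exp_pos l).ne' (by norm_num)]
      exact Real.log_le_log (by positivity) h1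
    · rw [hlog] at h2; rw [Real.sqrt_eq_rpow]; exact h2
    · norm_num at h3 ⊢; exact h3
  have hchain' := hchain (Real.exp l) (Real.exp_pos l) (by rw [hlog]; exact hll₁)
  have hm0 : ((0 : ℕ) : ℝ) ≤ (Real.log A) ^ ((1 / 2 : ℝ) / 2) := by
    rw [Nat.cast_zero]
    apply Real.rpow_nonneg
    have h5 : Real.log (Real.exp l / 2) ≤ Real.log A := Real.log_le_log (by positivity) hA
    rw [Real.log_div (Real.exp_pos l).ne' (by norm_num), Real.log_exp] at h5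
    have := Real.log_two_lt_d9
    linarith
  rw [hlog] at hchain'
  have hyz : Real.exp (l / (1 + δ)) ≤ 2 * Real.exp l := by
    have h1 : Real.exp (l / (1 + δ)) ≤ Real.exp l := by
      apply Real.exp_le_exp.2
      exact div_le_self hl0.le (by linarith)
    linarith [Real.exp_pos l]
  refine ⟨?_, ?_, fun j hj => ?_⟩
  · have h1 := hchain' (Sh P (Real.exp (l / (1 + δ))) (Real.exp l) 1)
      (kap0 θ R * δ + C₂ * δ ^ 2 + δ ^ 2 / 2) (by positivity) (Sh_fwd P (Real.exp_pos l) 1)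
      (fun A' h1 h2 m h3 => by
        obtain ⟨g1, g2, g3, g4, g5⟩ := hrange A' h1 (by rw [hlog]; exact h2) m h3
        have := (hb l hll₂ (Real.log A') g3 g4 m g5).1
        rwa [g2] at this) A hA 0 hm0
    intro u v hu
    refine (h1 u v hu).trans ?_
    apply mul_le_mul_of_nonneg_right _ (by positivity)
    linarith
  · have h1 := hchain' (Sh P (Real.exp (l / (1 + δ))) (Real.exp l) 1)ᶜ
      (1 - kap0 θ R * δ + C₂ * δ ^ 2 + δ ^ 2 / 2) (by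
        have : 0 ≤ C₂ * δ ^ 2 + δ ^ 2 / 2 := by positivity
        linarith) (Sh_compl_fwd P (Real.exp_pos l) hyz 1)
      (fun A' h1 h2 m h3 => by
        obtain ⟨g1, g2, g3, g4, g5⟩ := hrange A' h1 (by rw [hlog]; exact h2) m h3
        have := (hb l hll₂ (Real.log A') g3 g4 m g5).2.1
        rwa [g2] at this) A hA 0 hm0
    intro u v hu
    refine (h1 u v hu).trans ?_
    apply mul_le_mul_of_nonneg_right _ (by positivity)
    linarith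
  · have hjR : (2 : ℝ) ≤ j := by exact_mod_cast hj
    have hjj : (0 : ℝ) < (j : ℝ) * j - j := by nlinarith
    have h1 := hchain' (Sh P (Real.exp (l / (1 + δ))) (Real.exp l) j)
      (C₂ * δ ^ 2 / ((j : ℝ) * j - j) + 1 / l ^ 2) (by positivity) (Sh_fwd P (Real.exp_pos l) j)
      (fun A' h1 h2 m h3 => by
        obtain ⟨g1, g2, g3, g4, g5⟩ := hrange A' h1 (by rw [hlog]; exact h2) m h3
        have := (hb l hll₂ (Real.log A') g3 g4 m g5).2.2 j hj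
        rwa [g2] at this) A hA 0 hm0
    intro u v hu
    refine (h1 u v hu).trans ?_
    apply mul_le_mul_of_nonneg_right _ (by positivity)
    have e1 : C₂ * δ ^ 2 / ((j : ℝ) * j - j) ≤ (C₂ + 1) * δ ^ 2 / ((j : ℝ) * j - j) := by
      apply div_le_div_of_nonneg_right _ hjj.le
      nlinarith [sq_nonneg δ]
    have e2 : (1 + K) / l ^ 2 = 1 / l ^ 2 + K / l ^ 2 := by ring
    rw [e2]; linarith

end Pool.Agent.H998_PL
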