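import Pool.Agent.H998_PL.Trunc
import Pool.Agent.H998_BC.Tot

/-! Primes on trajectories, part 17: blocks. -/

set_option autoImplicit false

namespace Pool.Agent.H998_PL

open Finset
open Pool.Agent.H320R2.PD Pool.Agent.H499R2.ND
open Pool.Agent.H499R2.CO (Tz)
open Pool.Agent.R344.TH
open Pool.Agent.H998_BC (sum_tele)

open scoped Classical in
theorem sum_cast (S : Set ℤ) (N : ℕ) :
    ∑ n ∈ Icc 1 N, (if (n : ℤ) ∈ S then (1 : ℝ) else 0)
      = (((Icc (1 : ℤ) N).filter (fun x => x ∈ S)).card : ℝ) := by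
  have h1 : Icc (1 : ℤ) N = (Icc 1 N).image (fun n : ℕ => (n : ℤ)) := by
    ext x
    simp only [mem_image, Finset.mem_Icc]
    constructor
    · rintro ⟨h1, h2⟩
      exact ⟨x.toNat, ⟨by omega, by omega⟩, by omega⟩
    · rintro ⟨n, ⟨h1, h2⟩, rfl⟩
      exact ⟨by omega, by omega⟩
  rw [card_filter, h1]
  push_cast
  rw [sum_image]
  intro a _ b _ hab
  simp only at hab
  exact_mod_cast hab

theorem Sh_even {P : Set ℤ} (hP : ∀ x ∈ P, Odd x) {y z : ℝ} {h : ℕ} (e : ℕ) (m : ℤ) (hm : 0 < m)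
    (hx : 2 ^ e * m ∈ Sh P y z h) : m ∈ Sh P y z h := (Sh_two_pow hP hm).1 hx

theorem Shc_even {P : Set ℤ} (hP : ∀ x ∈ P, Odd x) {y z : ℝ} {h : ℕ} (e : ℕ) (m : ℤ) (hm : 0 < m)
    (hx : 2 ^ e * m ∈ (Sh P y z h)ᶜ) : m ∈ (Sh P y z h)ᶜ := fun h' => hx ((Sh_two_pow hP hm).2 h')

/-- the properties of the scale `l` -/
structure Scale (P : Set ℤ) (δ l κ C₂ K₂ : ℝ) : Prop where
  l1 : 1 ≤ l
  one : ∀ A : ℝ, Real.exp l / 2 ≤ A → PB (Sh P (Real.exp (l / (1 + δ))) (Real.exp l) 1) A 0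
    (κ * δ + C₂ * δ ^ 2)
  none : ∀ A : ℝ, Real.exp l / 2 ≤ A → PB (Sh P (Real.exp (l / (1 + δ))) (Real.exp l) 1)ᶜ A 0
    (1 - κ * δ + C₂ * δ ^ 2)
  many : ∀ A : ℝ, Real.exp l / 2 ≤ A → ∀ j : ℕ, 2 ≤ j →
    PB (Sh P (Real.exp (l / (1 + δ))) (Real.exp l) j) A 0 (C₂ * δ ^ 2 / ((j : ℝ) * j - j) + K₂ / l ^ 2)

theorem block_up {P : Set ℤ} (hP : ∀ x ∈ P, Odd x) {δ l κ C₂ K₂ : ℝ} (hs : Scale P δ l κ C₂ K₂)
    (hδ : 0 < δ) (hκ : 0 ≤ κ) (hC : 0 ≤ C₂) (hK : 0 ≤ K₂) (N Q : ℕ) (hQ : 1 ≤ Q) :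
    ∑ n ∈ Icc 1 N, tr Q (BB P (Real.exp (l / (1 + δ))) (Real.exp l) (n : ℤ)).encard
      ≤ (κ * δ + 2 * C₂ * δ ^ 2 + Q * (K₂ / l ^ 2)) * (N + 1)
        + Q * (Real.exp l * (Nat.log 2 N + 1)) := by
  classical
  set z := Real.exp l with hz
  have hz1 : 1 ≤ z := by rw [hz]; exact Real.one_le_exp (by linarith [hs.l1])
  have h1 : ∑ n ∈ Icc 1 N, tr Q (BB P (Real.exp (l / (1 + δ))) z (n : ℤ)).encard
      = ∑ j ∈ Icc 1 Q, (((Icc (1 : ℤ) N).filter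
        (fun x => x ∈ Sh P (Real.exp (l / (1 + δ))) z j)).card : ℝ) := by
    simp_rw [tr_eq]
    rw [sum_comm]
    apply sum_congr rfl
    intro j _
    rw [← sum_cast]
    apply sum_congr rfl
    intro n _
    simp only [mem_Sh]
  have hW : 0 ≤ z * (Nat.log 2 N + 1 : ℝ) := by positivity
  have hl2 : 0 ≤ K₂ / l ^ 2 := by have := hs.l1; positivity
  have h2 : ∀ j ∈ Icc 1 Q, (((Icc (1 : ℤ) N).filter
        (fun x => x ∈ Sh P (Real.exp (l / (1 + δ))) z j)).card : ℝ)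
      ≤ (if j = 1 then (κ * δ + C₂ * δ ^ 2) * ((N : ℝ) + 1) else C₂ * δ ^ 2 * (1 / ((j : ℝ) * (j - 1))) * (N + 1))
        + (K₂ / l ^ 2 * (N + 1) + z * (Nat.log 2 N + 1)) := by
    intro j hj
    rw [Finset.mem_Icc] at hj
    split_ifs with hj1
    · subst hj1
      have h3 := count_all (Sh_even hP (y := Real.exp (l / (1 + δ))) (z := z) (h := 1))
        (by positivity) hz1 hs.one N
      have : 0 ≤ K₂ / l ^ 2 * ((N : ℝ) + 1) := by positivity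
      linarith
    · have hj2 : 2 ≤ j := by omega
      have hjR : (2 : ℝ) ≤ j := by exact_mod_cast hj2
      have hjj : 0 < (j : ℝ) * j - j := by nlinarith
      have h3 := count_all (Sh_even hP (y := Real.exp (l / (1 + δ))) (z := z) (h := j))
        (by positivity) hz1 (fun A hA => hs.many A hA j hj2) N
      have h4 : C₂ * δ ^ 2 / ((j : ℝ) * j - j) = C₂ * δ ^ 2 * (1 / ((j : ℝ) * (j - 1))) := by
        rw [show (j : ℝ) * j - j = j * (j - 1) by ring]; ring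
      rw [h4] at h3
      linarith
  rw [h1]
  refine (sum_le_sum h2).trans ?_
  rw [sum_add_distrib, sum_const, nsmul_eq_mul, Nat.card_Icc, Nat.add_sub_cancel]
  have h5 : ∑ j ∈ Icc 1 Q, (if j = 1 then (κ * δ + C₂ * δ ^ 2) * ((N : ℝ) + 1)
      else C₂ * δ ^ 2 * (1 / ((j : ℝ) * (j - 1))) * (N + 1))
      ≤ (κ * δ + 2 * C₂ * δ ^ 2) * (N + 1) := by
    rw [← Finset.sum_filter_add_sum_filter_not (Icc 1 Q) (fun j => j = 1)]
    have e1 : (Icc 1 Q).filter (fun j => j = 1) = {1} := by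
      ext j; simp only [mem_filter, Finset.mem_Icc, mem_singleton]; omega
    have e2 : ∑ j ∈ (Icc 1 Q).filter (fun j => ¬ j = 1), (if j = 1 then (κ * δ + C₂ * δ ^ 2) * ((N : ℝ) + 1)
      else C₂ * δ ^ 2 * (1 / ((j : ℝ) * (j - 1))) * (N + 1))
        = C₂ * δ ^ 2 * (N + 1) * ∑ j ∈ (Icc 1 Q).filter (fun j => ¬ j = 1), 1 / ((j : ℝ) * (j - 1)) := by
      rw [mul_sum]
      apply sum_congr rfl
      intro j hj
      rw [if_neg (mem_filter.1 hj).2]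
      ring
    have e3 := sum_tele ((Icc 1 Q).filter (fun j => ¬ j = 1)) (by
      intro j hj
      rw [mem_filter, Finset.mem_Icc] at hj
      omega)
    rw [e1, sum_singleton, if_pos rfl, e2]
    have e4 := mul_le_mul_of_nonneg_left e3 (show 0 ≤ C₂ * δ ^ 2 * ((N : ℝ) + 1) by positivity)
    linarith
  have h6 : (Q : ℝ) * (K₂ / l ^ 2 * (N + 1) + z * (Nat.log 2 N + 1))
      = Q * (K₂ / l ^ 2) * (N + 1) + Q * (z * (Nat.log 2 N + 1)) := by ring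
  rw [h6]
  linarith

open scoped Classical in
theorem block_lo {P : Set ℤ} (hP : ∀ x ∈ P, Odd x) {δ l κ C₂ K₂ : ℝ} (hs : Scale P δ l κ C₂ K₂)
    (hρ : 0 ≤ 1 - κ * δ + C₂ * δ ^ 2) (N : ℕ) :
    (N : ℝ) - ((1 - κ * δ + C₂ * δ ^ 2) * (N + 1) + Real.exp l * (Nat.log 2 N + 1))
      ≤ ∑ n ∈ Icc 1 N, (if (n : ℤ) ∈ Sh P (Real.exp (l / (1 + δ))) (Real.exp l) 1 then (1 : ℝ) else 0) := by
  have hz1 : 1 ≤ Real.exp l := Real.one_le_exp (by linarith [hs.l1])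
  have h1 := count_all (Shc_even hP (y := Real.exp (l / (1 + δ))) (z := Real.exp l) (h := 1))
        hρ hz1 hs.none N
  have h1' : (((Icc (1 : ℤ) N).filter
      (fun x => ¬ x ∈ Sh P (Real.exp (l / (1 + δ))) (Real.exp l) 1)).card : ℝ)
      ≤ (1 - κ * δ + C₂ * δ ^ 2) * (N + 1) + Real.exp l * (Nat.log 2 N + 1) := by
    refine le_trans (le_of_eq ?_) h1
    congr 2
    ext x
    simp only [mem_filter, Set.mem_compl_iff]
  have h2 : (((Icc (1 : ℤ) N).filter (fun x => x ∈ Sh P (Real.exp (l / (1 + δ))) (Real.exp l) 1)).card : ℝ)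
      + (((Icc (1 : ℤ) N).filter
        (fun x => ¬ x ∈ Sh P (Real.exp (l / (1 + δ))) (Real.exp l) 1)).card : ℝ) = N := by
    have := card_filter_add_card_filter_not (s := Icc (1 : ℤ) N)
      (fun x => x ∈ Sh P (Real.exp (l / (1 + δ))) (Real.exp l) 1)
    rw [Int.card_Icc] at this
    have h3 : ((N : ℤ) + 1 - 1).toNat = N := by omega
    rw [h3] at this
    exact_mod_cast this
  rw [sum_cast]
  linarith

/-- the scales -/
noncomputable def ls (L δ : ℝ) (i : ℕ) : ℝ := L / (1 + δ) ^ i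

theorem ls_succ (L δ : ℝ) (i : ℕ) : ls L δ (i + 1) = ls L δ i / (1 + δ) := by
  unfold ls; rw [pow_succ, div_div]

theorem ls_anti {L δ : ℝ} (hL : 0 ≤ L) (hδ : 0 < δ) : Antitone (ls L δ) := by
  apply antitone_nat_of_succ_le
  intro i
  rw [ls_succ]
  apply div_le_self
  · unfold ls; positivity
  · linarith

theorem sum_up {P : Set ℤ} (hP : ∀ x ∈ P, Odd x) {L δ κ C₂ K₂ Y : ℝ} (hL : 0 ≤ L) (I : ℕ)
    (hs : ∀ i < I, Scale P δ (ls L δ (1 + i)) κ C₂ K₂) (hY : Real.exp (ls L δ (1 + I)) ≤ Y)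
    (hδ : 0 < δ) (hκ : 0 ≤ κ) (hC : 0 ≤ C₂) (hK : 0 ≤ K₂) (N Q : ℕ) (hQ : 1 ≤ Q) :
    ∑ n ∈ Icc 1 N, tr Q (HT P Y (n : ℤ)).encard
      ≤ ∑ n ∈ Icc 1 N, tr Q (HT P (Real.exp (ls L δ 1)) (n : ℤ)).encard
        + ∑ i ∈ range I, ((κ * δ + 2 * C₂ * δ ^ 2 + Q * (K₂ / ls L δ (1 + i) ^ 2)) * (N + 1)
        + Q * (Real.exp (ls L δ (1 + i)) * (Nat.log 2 N + 1))) := by
  have hz : Antitone (fun i => Real.exp (ls L δ i)) := fun a b hab =>
    Real.exp_le_exp.2 (ls_anti hL hδ hab)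
  have h1 : ∀ n ∈ Icc 1 N, tr Q (HT P Y (n : ℤ)).encard
      ≤ tr Q (HT P (Real.exp (ls L δ 1)) (n : ℤ)).encard
        + ∑ i ∈ range I, tr Q (BB P (Real.exp (ls L δ (1 + i) / (1 + δ)))
          (Real.exp (ls L δ (1 + i))) (n : ℤ)).encard := by
    intro n _
    have h2 : (HT P Y (n : ℤ)).encard ≤ (HT P (Real.exp (ls L δ (1 + I))) (n : ℤ)).encard := by
      apply Set.encard_le_encard
      intro k hk
      exact ⟨hk.1, fun j hj => hY.trans (hk.2 j hj)⟩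
    have h3 : (HT P (Real.exp (ls L δ (1 + I))) (n : ℤ)).encard
        = (HT P (Real.exp (ls L δ 1)) (n : ℤ)).encard
          + ∑ i ∈ range I, (BB P (Real.exp (ls L δ (1 + i) / (1 + δ)))
            (Real.exp (ls L δ (1 + i))) (n : ℤ)).encard := by
      refine (HT_blocks P hz (n : ℤ) 1 I).trans ?_
      congr 1
      apply sum_congr rfl
      intro i _
      rw [ls_succ]
    rw [h3] at h2
    exact (tr_mono Q h2).trans (tr_sum Q _ _ I)
  refine (sum_le_sum h1).trans ?_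
  rw [sum_add_distrib, sum_comm]
  apply add_le_add le_rfl
  apply sum_le_sum
  intro i hi
  exact block_up hP (hs i (mem_range.1 hi)) hδ hκ hC hK N Q hQ

theorem sum_lo {P : Set ℤ} (hP : ∀ x ∈ P, Odd x) {L δ κ C₂ K₂ Y : ℝ} (hL : 0 ≤ L) (I : ℕ)
    (hs : ∀ i < I, Scale P δ (ls L δ (1 + i)) κ C₂ K₂) (hY : Y ≤ Real.exp (ls L δ (1 + I)))
    (hδ : 0 < δ) (hρ : 0 ≤ 1 - κ * δ + C₂ * δ ^ 2) (N Q : ℕ) (hQ : I ≤ Q) :
    ∑ i ∈ range I, ((N : ℝ) - ((1 - κ * δ + C₂ * δ ^ 2) * (N + 1)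
        + Real.exp (ls L δ (1 + i)) * (Nat.log 2 N + 1)))
      ≤ ∑ n ∈ Icc 1 N, tr Q (HT P Y (n : ℤ)).encard := by
  classical
  have hz : Antitone (fun i => Real.exp (ls L δ i)) := fun a b hab =>
    Real.exp_le_exp.2 (ls_anti hL hδ hab)
  refine (sum_le_sum fun i hi => block_lo hP (hs i (mem_range.1 hi)) hρ N).trans ?_
  rw [sum_comm]
  apply sum_le_sum
  intro n _
  set F := (range I).filter (fun i => (n : ℤ) ∈ Sh P (Real.exp (ls L δ (1 + i) / (1 + δ)))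
    (Real.exp (ls L δ (1 + i))) 1) with hF
  have h1 : ∑ i ∈ range I, (if (n : ℤ) ∈ Sh P (Real.exp (ls L δ (1 + i) / (1 + δ)))
    (Real.exp (ls L δ (1 + i))) 1 then (1 : ℝ) else 0) = (F.card : ℝ) := by
    rw [hF, card_filter]; push_cast; rfl
  rw [h1]
  apply le_tr
  · have h2 : (HT P (Real.exp (ls L δ (1 + I))) (n : ℤ)).encard ≤ (HT P Y (n : ℤ)).encard := by
      apply Set.encard_le_encard
      intro k hk
      exact ⟨hk.1, fun j hj => hY.trans (hk.2 j hj)⟩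
    have h3 : (HT P (Real.exp (ls L δ (1 + I))) (n : ℤ)).encard
        = (HT P (Real.exp (ls L δ 1)) (n : ℤ)).encard
          + ∑ i ∈ range I, (BB P (Real.exp (ls L δ (1 + i) / (1 + δ)))
            (Real.exp (ls L δ (1 + i))) (n : ℤ)).encard := by
      refine (HT_blocks P hz (n : ℤ) 1 I).trans ?_
      congr 1
      apply sum_congr rfl
      intro i _
      rw [ls_succ]
    rw [h3] at h2
    refine le_trans ?_ (le_trans le_add_self h2)
    have h4 : (F.card : ℕ∞) = ∑ i ∈ range I, (if (n : ℤ) ∈ Sh P (Real.exp (ls L δ (1 + i) / (1 + δ)))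
        (Real.exp (ls L δ (1 + i))) 1 then (1 : ℕ∞) else 0) := by
      rw [hF, card_filter]; push_cast; rfl
    rw [h4]
    apply sum_le_sum
    intro i _
    split_ifs with h5
    · rw [mem_Sh] at h5
      exact_mod_cast h5
    · exact zero_le
  · refine le_trans ?_ hQ
    have := card_filter_le (range I) (fun i => (n : ℤ) ∈ Sh P (Real.exp (ls L δ (1 + i) / (1 + δ)))
      (Real.exp (ls L δ (1 + i))) 1)
    rwa [card_range] at this

end Pool.Agent.H998_PL
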