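import Pool.Agent.H998_PL.Prime

/-! Primes on trajectories, part 3: the number of starting points whose `k`-th odd term is in `P`. -/

set_option autoImplicit false

namespace Pool.Agent.H998_PL

open Finset
open Pool.Agent.H320R2.PD Pool.Agent.H499R2.ND

open scoped Classical in
/-- mixing for a fixed size, over the elements of `P` -/
theorem mixP (P : Set ℤ) {L K : ℝ} (A k m m' T : ℕ) (hm' : m' ≤ k) (c : ℤ)
    (hK : ∀ r : ℤ, ((cls P L (2 * L) (k + m) (2 ^ T) r).card : ℝ) ≤ K) :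
    |(∑ w ∈ FWT A k T, ((cls P L (2 * L) (k + m) (2 ^ T) (Wo w + 3 ^ k * c)).card : ℝ))
      - (∑ w ∈ FWT A k T, ((cls P L (2 * L) m' (2 ^ T) (Wo w)).card : ℝ)) / 3 ^ (k + m - m')|
      ≤ 2 ^ T * K * dev (FWT A k T) wwt (fun w => (Wo w : ℤ)) (k + m) m' := by
  set W : Finset ℤ := cls P L (2 * L) 0 1 0 with hWdef
  set e : ℤ → ℤ := fun x => 2 ^ T * x - 3 ^ k * c with he
  have hwt : ∀ w ∈ FWT A k T, wwt w = (1 / 2 : ℝ) ^ T := by
    intro w hw
    unfold FWT at hw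
    unfold wwt
    rw [(mem_filter.1 hw).2]
  have hcls : ∀ (n : ℕ) (v : ℤ), cls P L (2 * L) n (2 ^ T) v
      = W.filter fun x => (3 : ℤ) ^ n ∣ 2 ^ T * x - v := by
    intro n v
    ext x
    rw [mem_filter, hWdef, mem_cls, mem_cls]
    simp only [pow_zero, isUnit_one, IsUnit.dvd, and_true]
    tauto
  have hcntgen : ∀ (n : ℕ) (u : ℤ → ℤ) (r : ℤ → ℤ),
      (∀ x : ℤ, ∀ w ∈ FWT A k T, ((3 : ℤ) ^ n ∣ 2 ^ T * x - u (Wo w : ℤ) ↔ (3 : ℤ) ^ n ∣ (Wo w : ℤ) - r x)) →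
      ∑ w ∈ FWT A k T, ((cls P L (2 * L) n (2 ^ T) (u (Wo w : ℤ))).card : ℝ)
        = ∑ x ∈ W, 2 ^ T * cnt (FWT A k T) wwt (fun w => (Wo w : ℤ)) n (r x) := by
    intro n u r hur
    calc ∑ w ∈ FWT A k T, ((cls P L (2 * L) n (2 ^ T) (u (Wo w : ℤ))).card : ℝ)
        = ∑ w ∈ FWT A k T, ∑ x ∈ W, (if (3 : ℤ) ^ n ∣ 2 ^ T * x - u (Wo w : ℤ) then (1 : ℝ) else 0) := by
          apply sum_congr rfl
          intro w _
          rw [hcls, card_filter]
          push_cast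
          rfl
      _ = ∑ x ∈ W, ∑ w ∈ FWT A k T, (if (3 : ℤ) ^ n ∣ 2 ^ T * x - u (Wo w : ℤ) then (1 : ℝ) else 0) :=
          sum_comm
      _ = _ := by
          apply sum_congr rfl
          intro x _
          unfold cnt
          rw [mul_sum]
          apply sum_congr rfl
          intro w hw
          rw [hwt w hw]
          by_cases h : (3 : ℤ) ^ n ∣ 2 ^ T * x - u (Wo w : ℤ)
          · rw [if_pos h, if_pos ((hur x w hw).1 h), ← mul_pow]; norm_num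
          · rw [if_neg h, if_neg (fun h' => h ((hur x w hw).2 h')), mul_zero]
  have hfull := hcntgen (k + m) (fun W => W + 3 ^ k * c) e (by
    intro x w _
    rw [← dvd_neg (b := (Wo w : ℤ) - e x)]
    rw [show -((Wo w : ℤ) - e x) = 2 ^ T * x - ((Wo w : ℤ) + 3 ^ k * c) by rw [he]; ring])
  have hlow := hcntgen m' (fun W => W) e (by
    intro x w _
    have hdk : (3 : ℤ) ^ m' ∣ 3 ^ k * c := (pow_dvd_pow 3 hm').mul_right _
    have e1 : 2 ^ T * x - (Wo w : ℤ) = -((Wo w : ℤ) - e x) + 3 ^ k * c := by rw [he]; ring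
    constructor
    · intro h
      rw [e1] at h
      have := (dvd_add_left hdk).1 h
      rwa [dvd_neg] at this
    · intro h
      rw [e1]
      exact dvd_add ((dvd_neg).2 h) hdk)
  rw [hfull, hlow, sum_div, ← sum_sub_distrib]
  set g : ℤ → ℝ := fun r => |cnt (FWT A k T) wwt (fun w => (Wo w : ℤ)) (k + m) r
    - cnt (FWT A k T) wwt (fun w => (Wo w : ℤ)) m' r / 3 ^ (k + m - m')| with hg
  have h1 : |∑ x ∈ W, (2 ^ T * cnt (FWT A k T) wwt (fun w => (Wo w : ℤ)) (k + m) (e x)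
      - 2 ^ T * cnt (FWT A k T) wwt (fun w => (Wo w : ℤ)) m' (e x) / 3 ^ (k + m - m'))|
      ≤ ∑ x ∈ W, 2 ^ T * g (e x) := by
    refine (abs_sum_le_sum_abs _ _).trans (le_of_eq ?_)
    apply sum_congr rfl
    intro x _
    rw [mul_div_assoc, ← mul_sub, abs_mul, abs_of_pos (by positivity : (0 : ℝ) < 2 ^ T)]
  refine h1.trans ?_
  rw [← mul_sum, mul_assoc]
  apply mul_le_mul_of_nonneg_left _ (by positivity)
  unfold dev
  apply sum_periodic_le (K := K) (g := g)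
  · intro r
    refine le_trans (le_of_eq ?_) (hK (3 ^ k * c + r))
    rw [hcls]
    congr 2
    ext x
    rw [mem_filter, mem_filter]
    rw [show e x - r = 2 ^ T * x - (3 ^ k * c + r) by rw [he]; ring]
  · intro r; exact abs_nonneg _
  · intro r r' hrr
    have e1 : cnt (FWT A k T) wwt (fun w => (Wo w : ℤ)) (k + m) r
        = cnt (FWT A k T) wwt (fun w => (Wo w : ℤ)) (k + m) r' := cnt_congr _ _ hrr
    have e2 : cnt (FWT A k T) wwt (fun w => (Wo w : ℤ)) m' r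
        = cnt (FWT A k T) wwt (fun w => (Wo w : ℤ)) m' r' :=
      cnt_congr _ _ ((pow_dvd_pow 3 (by omega)).trans hrr)
    show |_| = |_|
    rw [e1, e2]

theorem unit_class (m : ℕ) {u : ℤ} (hu : IsCoprime u 3) (v : ℤ) :
    ∃ c : ℤ, ∀ x : ℤ, ((3 : ℤ) ^ m ∣ u * x - v ↔ (3 : ℤ) ^ m ∣ 1 * x - c) := by
  obtain ⟨p, q, hpq⟩ : IsCoprime u ((3 : ℤ) ^ m) := hu.pow_right
  refine ⟨p * v, fun x => ?_⟩
  have hcop : IsCoprime ((3 : ℤ) ^ m) u := ⟨q, p, by linarith⟩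
  constructor
  · intro h
    apply hcop.dvd_of_dvd_mul_left
    have : u * (1 * x - p * v) = (u * x - v) + 3 ^ m * (q * v) := by
      have h1 : u * p = 1 - q * 3 ^ m := by linarith
      calc u * (1 * x - p * v) = u * x - (u * p) * v := by ring
        _ = _ := by rw [h1]; ring
    rw [this]
    exact dvd_add h (dvd_mul_right _ _)
  · intro h
    have : u * x - v = u * (1 * x - p * v) - 3 ^ m * (q * v) := by
      have h1 : u * p = 1 - q * 3 ^ m := by linarith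
      have h2 : u * (1 * x - p * v) = u * x - (u * p) * v := by ring
      rw [h2, h1]; ring
    rw [this]
    exact dvd_sub (h.mul_left u) (dvd_mul_right _ _)

theorem four_pow_mod (T : ℕ) (c : ℤ) : (2 ^ T * (2 ^ T * c)) % 3 = c % 3 := by
  have h : (3 : ℤ) ∣ 2 ^ T * (2 ^ T * c) - c := by
    have h1 : (3 : ℤ) ∣ 4 ^ T - 1 := by
      have := sub_dvd_pow_sub_pow (4 : ℤ) 1 T
      rw [one_pow] at this
      exact (by norm_num : (3 : ℤ) ∣ 4 - 1).trans this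
    have h2 : 2 ^ T * (2 ^ T * c) - c = ((4 : ℤ) ^ T - 1) * c := by
      rw [show (4 : ℤ) = 2 * 2 by norm_num, mul_pow]; ring
    rw [h2]; exact h1.mul_right _
  exact Int.emod_eq_emod_iff_emod_sub_eq_zero.2 (Int.emod_eq_zero_of_dvd h)

/-- the elements of `P` in a class, by the residue modulo `3` -/
theorem P_class {P R : Set ℤ} {θ : ℝ} (hP : Eqd P R θ) {m : ℕ} (hm : 1 ≤ m) {ε L : ℝ}
    (hL : ∀ c : ℤ, c % 3 ∈ R →
      |((cls P L (2 * L) m 1 c).card : ℝ) - θ * (3 / 2) * (L / (3 ^ m * Real.log L))|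
        ≤ ε * (L / (3 ^ m * Real.log L))) (T : ℕ) (v : ℤ) :
    ((2 ^ T * v) % 3 ∈ R → |((cls P L (2 * L) m (2 ^ T) v).card : ℝ)
        - θ * (3 / 2) * (L / (3 ^ m * Real.log L))| ≤ ε * (L / (3 ^ m * Real.log L))) ∧
    ((2 ^ T * v) % 3 ∉ R → (cls P L (2 * L) m (2 ^ T) v).card = 0) := by
  obtain ⟨c, hc⟩ := unit_class m (cop_two_pow T) v
  have heq : cls P L (2 * L) m (2 ^ T) v = cls P L (2 * L) m 1 c := by
    ext x; rw [mem_cls, mem_cls, hc x]
  have h3m : (3 : ℤ) ∣ 3 ^ m := dvd_pow_self 3 (by omega)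
  have h1 : (3 : ℤ) ∣ 2 ^ T * c - v := h3m.trans ((hc c).2 (by rw [one_mul, sub_self]; exact dvd_zero _))
  have h2 : (2 ^ T * v) % 3 = c % 3 := by
    rw [← four_pow_mod T c]
    have : (3 : ℤ) ∣ 2 ^ T * v - 2 ^ T * (2 ^ T * c) := by
      rw [← mul_sub]
      apply Dvd.dvd.mul_left
      rw [← neg_sub]; exact (dvd_neg).2 h1
    exact Int.emod_eq_emod_iff_emod_sub_eq_zero.2 (Int.emod_eq_zero_of_dvd this)
  rw [heq, h2]
  refine ⟨hL c, fun hcR => ?_⟩
  rw [card_eq_zero, eq_empty_iff_forall_notMem]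
  intro x hx
  rw [mem_cls] at hx
  apply hcR
  have h3 : (3 : ℤ) ∣ 1 * x - c := h3m.trans hx.2.2.2
  rw [one_mul] at h3
  have h4 : x % 3 = c % 3 := Int.emod_eq_emod_iff_emod_sub_eq_zero.2 (Int.emod_eq_zero_of_dvd h3)
  rw [← h4]; exact hP.mod3 x hx.2.2.1

open scoped Classical in
/-- mass of the words of length `k` and size `T` whose endpoint has residue in `R` -/
noncomputable def massR (R : Set ℤ) (cap k T : ℕ) : ℝ :=
  ∑ w ∈ (FWT cap k T).filter (fun w => (2 ^ T * (Wo w : ℤ)) % 3 ∈ R), wwt w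

/-- the number of pairs of words of size `T` and elements of `P` -/
theorem FT_main {P R : Set ℤ} {θ : ℝ} (hP : Eqd P R θ) {m' : ℕ} (hm' : 1 ≤ m') {ε L : ℝ}
    (hL : ∀ c : ℤ, c % 3 ∈ R →
      |((cls P L (2 * L) m' 1 c).card : ℝ) - θ * (3 / 2) * (L / (3 ^ m' * Real.log L))|
        ≤ ε * (L / (3 ^ m' * Real.log L))) (hε : 0 ≤ ε) (hL1 : 1 < L) (cap k m T : ℕ) (hk : m' ≤ k)
    (c : ℤ) (hK : ∀ r : ℤ, ((cls P L (2 * L) (k + m) (2 ^ T) r).card : ℝ)
      ≤ 264 * (L / (3 ^ (k + m) * Real.log L))) :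
    |(∑ w ∈ FWT cap k T, ((cls P L (2 * L) (k + m) (2 ^ T) (Wo w + 3 ^ k * c)).card : ℝ))
      - θ * (3 / 2) * massR R cap k T * (2 ^ T * (L / (3 ^ (k + m) * Real.log L)))|
      ≤ (ε * ∑ w ∈ FWT cap k T, wwt w
          + 264 * dev (FWT cap k T) wwt (fun w => (Wo w : ℤ)) (k + m) m')
        * (2 ^ T * (L / (3 ^ (k + m) * Real.log L))) := by
  classical
  have hlog : 0 < Real.log L := Real.log_pos hL1
  have hL0 : 0 < L := by linarith
  have h1 := mixP P cap k m m' T hk c hK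
  set S1 := ∑ w ∈ FWT cap k T, ((cls P L (2 * L) (k + m) (2 ^ T) (Wo w + 3 ^ k * c)).card : ℝ) with hS1
  set S2 := ∑ w ∈ FWT cap k T, ((cls P L (2 * L) m' (2 ^ T) (Wo w)).card : ℝ) with hS2
  set D := dev (FWT cap k T) wwt (fun w => (Wo w : ℤ)) (k + m) m' with hD
  set Λ := L / (3 ^ m' * Real.log L) with hΛ
  have hwt : ∀ w ∈ FWT cap k T, wwt w = (1 / 2 : ℝ) ^ T := by
    intro w hw
    unfold FWT at hw
    unfold wwt
    rw [(mem_filter.1 hw).2]
  have hmass : ∑ w ∈ FWT cap k T, wwt w = (1 / 2) ^ T * ((FWT cap k T).card : ℝ) := by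
    rw [sum_congr rfl hwt, sum_const, nsmul_eq_mul, mul_comm]
  have hmassR : massR R cap k T = (1 / 2) ^ T *
      (((FWT cap k T).filter (fun w => (2 ^ T * (Wo w : ℤ)) % 3 ∈ R)).card : ℝ) := by
    unfold massR
    rw [sum_congr rfl (fun w hw => hwt w (mem_filter.1 hw).1), sum_const, nsmul_eq_mul, mul_comm]
  -- the second sum
  have h2 : |S2 - θ * (3 / 2) * Λ *
      (((FWT cap k T).filter (fun w => (2 ^ T * (Wo w : ℤ)) % 3 ∈ R)).card : ℝ)|
      ≤ ε * Λ * ((FWT cap k T).card : ℝ) := by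
    have e1 : θ * (3 / 2) * Λ *
        (((FWT cap k T).filter (fun w => (2 ^ T * (Wo w : ℤ)) % 3 ∈ R)).card : ℝ)
        = ∑ w ∈ FWT cap k T, (if (2 ^ T * (Wo w : ℤ)) % 3 ∈ R then θ * (3 / 2) * Λ else 0) := by
      rw [← sum_filter, sum_const, nsmul_eq_mul, mul_comm]
    have e2 : ε * Λ * ((FWT cap k T).card : ℝ) = ∑ w ∈ FWT cap k T, ε * Λ := by
      rw [sum_const, nsmul_eq_mul, mul_comm]
    rw [e1, e2, hS2, ← sum_sub_distrib]
    refine (abs_sum_le_sum_abs _ _).trans (sum_le_sum fun w hw => ?_)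
    have h3 := P_class hP hm' hL T (Wo w)
    by_cases h : (2 ^ T * (Wo w : ℤ)) % 3 ∈ R
    · rw [if_pos h]; exact h3.1 h
    · rw [if_neg h, h3.2 h]
      simp only [Nat.cast_zero, sub_zero, abs_zero]
      positivity
  have hpow : (3 : ℝ) ^ (k + m) = 3 ^ m' * 3 ^ (k + m - m') := by
    rw [← pow_add]; congr 1; omega
  have h3pos : (0 : ℝ) < 3 ^ (k + m - m') := by positivity
  have h22 : (2 : ℝ) ^ T * (1 / 2) ^ T = 1 := by rw [← mul_pow]; norm_num
  have h4 : |S2 / 3 ^ (k + m - m') - θ * (3 / 2) * massR R cap k T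
      * (2 ^ T * (L / (3 ^ (k + m) * Real.log L)))|
      ≤ ε * (∑ w ∈ FWT cap k T, wwt w) * (2 ^ T * (L / (3 ^ (k + m) * Real.log L))) := by
    have e1 : S2 / 3 ^ (k + m - m') - θ * (3 / 2) * massR R cap k T
        * (2 ^ T * (L / (3 ^ (k + m) * Real.log L)))
        = (S2 - θ * (3 / 2) * Λ *
      (((FWT cap k T).filter (fun w => (2 ^ T * (Wo w : ℤ)) % 3 ∈ R)).card : ℝ)) / 3 ^ (k + m - m') := by
      rw [hmassR, hΛ, hpow, sub_div]
      congr 1
      have : θ * (3 / 2) * ((1 / 2) ^ T *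
          (((FWT cap k T).filter (fun w => (2 ^ T * (Wo w : ℤ)) % 3 ∈ R)).card : ℝ))
          * (2 ^ T * (L / (3 ^ m' * 3 ^ (k + m - m') * Real.log L)))
          = (2 ^ T * (1 / 2) ^ T) * (θ * (3 / 2) *
          (((FWT cap k T).filter (fun w => (2 ^ T * (Wo w : ℤ)) % 3 ∈ R)).card : ℝ)
          * (L / (3 ^ m' * 3 ^ (k + m - m') * Real.log L))) := by ring
      rw [this, h22, one_mul]
      field_simp
    rw [e1, abs_div, abs_of_pos h3pos, div_le_iff₀ h3pos]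
    refine h2.trans (le_of_eq ?_)
    rw [hmass, hΛ, hpow]
    have : ε * ((1 / 2) ^ T * ((FWT cap k T).card : ℝ))
        * (2 ^ T * (L / (3 ^ m' * 3 ^ (k + m - m') * Real.log L))) * 3 ^ (k + m - m')
        = (2 ^ T * (1 / 2) ^ T) * (ε * ((FWT cap k T).card : ℝ)
        * (L / (3 ^ m' * 3 ^ (k + m - m') * Real.log L)) * 3 ^ (k + m - m')) := by ring
    rw [this, h22, one_mul]
    field_simp
  have h5 : |S1 - θ * (3 / 2) * massR R cap k T * (2 ^ T * (L / (3 ^ (k + m) * Real.log L)))|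
      ≤ |S1 - S2 / 3 ^ (k + m - m')| + |S2 / 3 ^ (k + m - m') - θ * (3 / 2) * massR R cap k T
      * (2 ^ T * (L / (3 ^ (k + m) * Real.log L)))| := by
    have := abs_add_le (S1 - S2 / 3 ^ (k + m - m')) (S2 / 3 ^ (k + m - m')
      - θ * (3 / 2) * massR R cap k T * (2 ^ T * (L / (3 ^ (k + m) * Real.log L))))
    rwa [sub_add_sub_cancel] at this
  calc _ ≤ _ := h5
    _ ≤ 2 ^ T * (264 * (L / (3 ^ (k + m) * Real.log L))) * D
        + ε * (∑ w ∈ FWT cap k T, wwt w) * (2 ^ T * (L / (3 ^ (k + m) * Real.log L))) :=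
        add_le_add h1 h4
    _ = _ := by ring

end Pool.Agent.H998_PL
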