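import Pool.Agent.H998_PL.Cnt

/-! Primes on trajectories, part 4: the number of starting points whose `k`-th odd term is in `P`,
continued. -/

set_option autoImplicit false

namespace Pool.Agent.H998_PL

open Finset
open Pool.Agent.H320R2.PD Pool.Agent.H499R2.ND

open scoped Classical in
/-- starting points with the word `w` whose endpoint lies in `P` -/
noncomputable def XP (P : Set ℤ) (A : ℝ) (k m : ℕ) (c : ℤ) (w : List ℕ) : Finset ℤ :=
  (XX 1 A k m c w).filter fun M => ∃ x ∈ P, Vw 1 w M x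

theorem XP_card_eq {P : Set ℤ} (hP : ∀ x ∈ P, Odd x) {A : ℝ} {k m : ℕ} {c : ℤ} {w : List ℕ}
    (hl : w.length = k) :
    (XP P A k m c w).card = (cls P (A * 3 ^ k / 2 ^ w.sum + Wo w / 2 ^ w.sum)
      (2 * (A * 3 ^ k / 2 ^ w.sum) + Wo w / 2 ^ w.sum) (k + m) (2 ^ w.sum) (Wo w + 3 ^ k * c)).card := by
  classical
  have h2T : (0 : ℝ) < 2 ^ w.sum := by positivity
  have h2Z : (2 : ℤ) ^ w.sum ≠ 0 := by positivity
  have h3k : (0 : ℝ) < 3 ^ k := by positivity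
  have h3Z : (3 : ℤ) ^ k ≠ 0 := by positivity
  apply card_bij (fun (M : ℤ) _ => (3 ^ k * M + (Wo w : ℤ)) / 2 ^ w.sum)
  · intro M hM
    unfold XP at hM
    rw [mem_filter] at hM
    obtain ⟨hMX, x, hxP, hV⟩ := hM
    unfold Vw at hV
    rw [hl, one_mul] at hV
    have hx2 : (3 ^ k * M + (Wo w : ℤ)) / 2 ^ w.sum = x := by
      rw [hV, Int.mul_ediv_cancel_left _ h2Z]
    rw [hx2, mem_cls]
    rw [mem_XX] at hMX
    have hVR : (3 : ℝ) ^ k * M + Wo w = 2 ^ w.sum * x := by exact_mod_cast hV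
    have hxR : (x : ℝ) = (3 ^ k * M + Wo w) / 2 ^ w.sum := by
      rw [eq_div_iff h2T.ne']; linarith
    refine ⟨⟨?_, ?_⟩, hP x hxP, hxP, ?_⟩
    · rw [hxR, ← add_div]
      apply div_le_div_of_nonneg_right _ h2T.le
      have := mul_le_mul_of_nonneg_right hMX.1.1 h3k.le
      linarith
    · rw [hxR, ← mul_div_assoc, ← add_div]
      apply div_lt_div_of_pos_right _ h2T
      have := mul_lt_mul_of_pos_right hMX.1.2 h3k
      linarith
    · rw [← hV, pow_add, show 3 ^ k * M + (Wo w : ℤ) - (Wo w + 3 ^ k * c)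
        = 3 ^ k * (1 * M - c) by ring]
      exact mul_dvd_mul_left _ hMX.2.2
  · intro M hM M' hM' hMM
    unfold XP at hM hM'
    rw [mem_filter] at hM hM'
    obtain ⟨-, x, -, hV⟩ := hM
    obtain ⟨-, x', -, hV'⟩ := hM'
    unfold Vw at hV hV'
    rw [hl, one_mul] at hV hV'
    rw [hV, hV', Int.mul_ediv_cancel_left _ h2Z, Int.mul_ediv_cancel_left _ h2Z] at hMM
    rw [hMM] at hV
    have : (3 : ℤ) ^ k * M = 3 ^ k * M' := by linarith
    exact mul_left_cancel₀ h3Z this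
  · intro x hx
    rw [mem_cls] at hx
    obtain ⟨⟨h1, h2⟩, hodd, hxP, h3⟩ := hx
    obtain ⟨t, ht⟩ := h3
    rw [pow_add] at ht
    have hM : 3 ^ k * (c + 3 ^ m * t) + (Wo w : ℤ) = 2 ^ w.sum * x := by linear_combination -ht
    have hVR : (3 : ℝ) ^ k * ((c + 3 ^ m * t : ℤ) : ℝ) + Wo w = 2 ^ w.sum * x := by exact_mod_cast hM
    refine ⟨c + 3 ^ m * t, ?_, ?_⟩
    · unfold XP
      rw [mem_filter, mem_XX]
      refine ⟨⟨⟨?_, ?_⟩, ?_, ?_⟩, x, hxP, ?_⟩
      · rw [← add_div, div_le_iff₀ h2T] at h1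
        have : 3 ^ k * A ≤ 3 ^ k * ((c + 3 ^ m * t : ℤ) : ℝ) := by linarith
        exact le_of_mul_le_mul_left this h3k
      · rw [← mul_div_assoc, ← add_div, lt_div_iff₀ h2T] at h2
        have : 3 ^ k * ((c + 3 ^ m * t : ℤ) : ℝ) < 3 ^ k * (2 * A) := by linarith
        exact lt_of_mul_lt_mul_left this h3k.le
      · obtain ⟨y, hy⟩ := hodd
        refine ⟨y, ?_⟩
        rw [one_mul, pow_succ]
        rw [hy] at hM
        linear_combination hM
      · rw [one_mul]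
        exact ⟨t, by ring⟩
      · unfold Vw
        rw [hl, one_mul]; exact hM
    · show (3 ^ k * (c + 3 ^ m * t) + (Wo w : ℤ)) / 2 ^ w.sum = x
      rw [hM, Int.mul_ediv_cancel_left _ h2Z]

/-- a shift of the window -/
theorem shift_abs (P : Set ℤ) {L s : ℝ} (hL : 0 ≤ L) (hs : 0 ≤ s) (n : ℕ) (hs2 : s ≤ 2 * 3 ^ n) {u : ℤ}
    (hu : IsCoprime u 3) (v : ℤ) :
    |((cls P (L + s) (2 * L + s) n u v).card : ℝ) - (cls P L (2 * L) n u v).card| ≤ 2 := by
  classical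
  have h3 : (0 : ℝ) < 2 * 3 ^ n := by positivity
  have hsn : s / (2 * 3 ^ n) ≤ 1 := (div_le_one h3).2 hs2
  have h1 : ((cls P (L + s) (2 * L + s) n u v).card : ℝ) ≤ (cls P L (2 * L) n u v).card + 2 := by
    have hsub : cls P (L + s) (2 * L + s) n u v
        ⊆ cls P L (2 * L) n u v ∪ cls P (2 * L) (2 * L + s) n u v := by
      intro x hx
      rw [mem_cls] at hx
      rw [mem_union, mem_cls, mem_cls]
      rcases lt_or_ge (x : ℝ) (2 * L) with h1 | h1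
      · exact Or.inl ⟨⟨by linarith [hx.1.1], h1⟩, hx.2⟩
      · exact Or.inr ⟨⟨h1, hx.1.2⟩, hx.2⟩
    have e1 : ((cls P (L + s) (2 * L + s) n u v).card : ℝ)
        ≤ (cls P L (2 * L) n u v).card + (cls P (2 * L) (2 * L + s) n u v).card := by
      exact_mod_cast (card_le_card hsub).trans (card_union_le _ _)
    have e2 := cls_card_le P (by linarith : 2 * L ≤ 2 * L + s) n hu v
    rw [show 2 * L + s - 2 * L = s by ring] at e2
    linarith
  have h2 : ((cls P L (2 * L) n u v).card : ℝ) ≤ (cls P (L + s) (2 * L + s) n u v).card + 2 := by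
    have hsub : cls P L (2 * L) n u v
        ⊆ cls P (L + s) (2 * L + s) n u v ∪ cls P L (L + s) n u v := by
      intro x hx
      rw [mem_cls] at hx
      rw [mem_union, mem_cls, mem_cls]
      rcases lt_or_ge (x : ℝ) (L + s) with h1 | h1
      · exact Or.inr ⟨⟨hx.1.1, h1⟩, hx.2⟩
      · exact Or.inl ⟨⟨h1, by linarith [hx.1.2]⟩, hx.2⟩
    have e1 : ((cls P L (2 * L) n u v).card : ℝ)
        ≤ (cls P (L + s) (2 * L + s) n u v).card + (cls P L (L + s) n u v).card := by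
      exact_mod_cast (card_le_card hsub).trans (card_union_le _ _)
    have e2 := cls_card_le P (by linarith : L ≤ L + s) n hu v
    rw [show L + s - L = s by ring] at e2
    linarith
  rw [abs_le]; constructor <;> linarith

theorem XP_card {P : Set ℤ} (hP : ∀ x ∈ P, Odd x) {A : ℝ} (hA : 0 ≤ A) {k m : ℕ} {c : ℤ} {w : List ℕ}
    (hl : w.length = k) (hw : ∀ e ∈ w, 1 ≤ e) :
    |((XP P A k m c w).card : ℝ) - (cls P (A * 3 ^ k / 2 ^ w.sum)
      (2 * (A * 3 ^ k / 2 ^ w.sum)) (k + m) (2 ^ w.sum) (Wo w + 3 ^ k * c)).card| ≤ 2 := by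
  rw [XP_card_eq hP hl]
  have h2T : (0 : ℝ) < 2 ^ w.sum := by positivity
  apply shift_abs P (by positivity) (by positivity) _ _ (cop_two_pow _)
  rw [div_le_iff₀ h2T]
  have := Wo_le hw
  rw [hl] at this
  calc (Wo w : ℝ) ≤ 2 ^ w.sum * ((3 / 2 : ℝ) ^ k - 1) := this
    _ ≤ 2 ^ w.sum * (2 * 3 ^ (k + m)) := by
        apply mul_le_mul_of_nonneg_left _ h2T.le
        have e1 : (3 / 2 : ℝ) ^ k ≤ 3 ^ k := pow_le_pow_left₀ (by norm_num) (by norm_num) k
        have e2 : (3 : ℝ) ^ k ≤ 3 ^ (k + m) := pow_le_pow_right₀ (by norm_num) (by omega)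
        have e3 : (0 : ℝ) < 3 ^ (k + m) := by positivity
        linarith
    _ = _ := by ring

/-- the number of starting points with a typical word of length `k` and endpoint in `P` -/
theorem Nk {P R : Set ℤ} {θ : ℝ} (hP : Eqd P R θ) {m' : ℕ} (hm' : 1 ≤ m') {ε L₀ : ℝ} (hε : 0 ≤ ε)
    (hL₀ : ∀ L : ℝ, L₀ ≤ L → ∀ c : ℤ, c % 3 ∈ R →
      |((cls P L (2 * L) m' 1 c).card : ℝ) - θ * (3 / 2) * (L / (3 ^ m' * Real.log L))|
        ≤ ε * (L / (3 ^ m' * Real.log L))) {A : ℝ} (hA : 0 < A) (cap k m Tl Tm : ℕ) (hk : m' ≤ k)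
    (hTm : Tm ≤ k * cap) (c : ℤ) (hL1 : max L₀ (Real.exp 100) ≤ A * 3 ^ k / 2 ^ Tm)
    (hL2 : (3 : ℝ) ^ (k + m) ≤ Real.sqrt (A * 3 ^ k / 2 ^ Tm)) :
    |(∑ w ∈ GW cap k Tl Tm, ((XP P A k m c w).card : ℝ))
        - ∑ T ∈ Icc Tl Tm, θ * (3 / 2) * massR R cap k T * (A / (3 ^ m * Real.log (A * 3 ^ k / 2 ^ T)))|
      ≤ (∑ T ∈ Icc Tl Tm, (ε * (∑ w ∈ FWT cap k T, wwt w)
          + 264 * dev (FWT cap k T) wwt (fun w => (Wo w : ℤ)) (k + m) m')
            * (A / (3 ^ m * Real.log (A * 3 ^ k / 2 ^ T)))) + 2 * 2 ^ Tm := by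
  classical
  have hsplit : ∀ T ∈ Icc Tl Tm,
      |(∑ w ∈ FWT cap k T, ((cls P (A * 3 ^ k / 2 ^ w.sum) (2 * (A * 3 ^ k / 2 ^ w.sum)) (k + m)
        (2 ^ w.sum) (Wo w + 3 ^ k * c)).card : ℝ))
        - θ * (3 / 2) * massR R cap k T * (A / (3 ^ m * Real.log (A * 3 ^ k / 2 ^ T)))|
      ≤ (ε * (∑ w ∈ FWT cap k T, wwt w)
          + 264 * dev (FWT cap k T) wwt (fun w => (Wo w : ℤ)) (k + m) m')
            * (A / (3 ^ m * Real.log (A * 3 ^ k / 2 ^ T))) := by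
    intro T hT
    rw [mem_Icc] at hT
    have hle : A * 3 ^ k / 2 ^ Tm ≤ A * 3 ^ k / 2 ^ T :=
      div_le_div_of_nonneg_left (by positivity) (by positivity)
        (pow_le_pow_right₀ (by norm_num) hT.2)
    have h1 : L₀ ≤ A * 3 ^ k / 2 ^ T := (le_max_left _ _).trans (hL1.trans hle)
    have h2 : Real.exp 100 ≤ A * 3 ^ k / 2 ^ T := (le_max_right _ _).trans (hL1.trans hle)
    have h3 : (1 : ℝ) < A * 3 ^ k / 2 ^ T := by
      have : (1 : ℝ) < Real.exp 100 := by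
        rw [← Real.exp_zero]; exact Real.exp_lt_exp.2 (by norm_num)
      linarith
    have h4 : (3 : ℝ) ^ (k + m) ≤ Real.sqrt (A * 3 ^ k / 2 ^ T) := hL2.trans (Real.sqrt_le_sqrt hle)
    have h5 := FT_main hP hm' (hL₀ _ h1) hε h3 cap k m T hk c
      (fun r => bt3 hP.prime h2 (k + m) h4 (cop_two_pow T) r)
    have e1 : (2 : ℝ) ^ T * (A * 3 ^ k / 2 ^ T / (3 ^ (k + m) * Real.log (A * 3 ^ k / 2 ^ T)))
        = A / (3 ^ m * Real.log (A * 3 ^ k / 2 ^ T)) := by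
      rw [pow_add]
      have : 0 < Real.log (A * 3 ^ k / 2 ^ T) := Real.log_pos h3
      field_simp
    rw [e1] at h5
    have e2 : ∑ w ∈ FWT cap k T, ((cls P (A * 3 ^ k / 2 ^ w.sum) (2 * (A * 3 ^ k / 2 ^ w.sum)) (k + m)
        (2 ^ w.sum) (Wo w + 3 ^ k * c)).card : ℝ)
        = ∑ w ∈ FWT cap k T, ((cls P (A * 3 ^ k / 2 ^ T) (2 * (A * 3 ^ k / 2 ^ T)) (k + m)
        (2 ^ T) (Wo w + 3 ^ k * c)).card : ℝ) := by
      apply sum_congr rfl
      intro w hw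
      unfold FWT at hw
      rw [(mem_filter.1 hw).2]
    rw [e2]; exact h5
  have h1 : |(∑ w ∈ GW cap k Tl Tm, ((XP P A k m c w).card : ℝ))
      - ∑ w ∈ GW cap k Tl Tm, ((cls P (A * 3 ^ k / 2 ^ w.sum) (2 * (A * 3 ^ k / 2 ^ w.sum)) (k + m)
        (2 ^ w.sum) (Wo w + 3 ^ k * c)).card : ℝ)| ≤ 2 * 2 ^ Tm := by
    rw [← sum_sub_distrib]
    refine (abs_sum_le_sum_abs _ _).trans ?_
    have h2 : ∑ w ∈ GW cap k Tl Tm, |((XP P A k m c w).card : ℝ)
        - ((cls P (A * 3 ^ k / 2 ^ w.sum) (2 * (A * 3 ^ k / 2 ^ w.sum)) (k + m)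
        (2 ^ w.sum) (Wo w + 3 ^ k * c)).card : ℝ)| ≤ ∑ w ∈ GW cap k Tl Tm, (2 : ℝ) := by
      apply sum_le_sum
      intro w hw
      unfold GW at hw
      obtain ⟨h3, h4⟩ := FW_props (mem_filter.1 hw).1
      exact XP_card hP.odd hA.le h3 h4
    refine h2.trans ?_
    rw [sum_const, nsmul_eq_mul]
    have := GW_card cap k Tl Tm
    linarith
  have h2 : |(∑ w ∈ GW cap k Tl Tm, ((cls P (A * 3 ^ k / 2 ^ w.sum) (2 * (A * 3 ^ k / 2 ^ w.sum)) (k + m)
        (2 ^ w.sum) (Wo w + 3 ^ k * c)).card : ℝ))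
      - ∑ T ∈ Icc Tl Tm, θ * (3 / 2) * massR R cap k T * (A / (3 ^ m * Real.log (A * 3 ^ k / 2 ^ T)))|
      ≤ ∑ T ∈ Icc Tl Tm, (ε * (∑ w ∈ FWT cap k T, wwt w)
          + 264 * dev (FWT cap k T) wwt (fun w => (Wo w : ℤ)) (k + m) m')
            * (A / (3 ^ m * Real.log (A * 3 ^ k / 2 ^ T))) := by
    rw [sum_GW, ← sum_sub_distrib]
    exact (abs_sum_le_sum_abs _ _).trans (sum_le_sum hsplit)
  calc _ ≤ _ := abs_sub_le _ (∑ w ∈ GW cap k Tl Tm, ((cls P (A * 3 ^ k / 2 ^ w.sum)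
        (2 * (A * 3 ^ k / 2 ^ w.sum)) (k + m) (2 ^ w.sum) (Wo w + 3 ^ k * c)).card : ℝ)) _
    _ ≤ _ := by rw [add_comm]; exact add_le_add h2 h1

/-- the same, with bounds for the logarithms -/
theorem Nk_bounds {P R : Set ℤ} {θ : ℝ} (hP : Eqd P R θ) {m' : ℕ} (hm' : 1 ≤ m') {ε L₀ : ℝ}
    (hε : 0 ≤ ε) (hL₀ : ∀ L : ℝ, L₀ ≤ L → ∀ c : ℤ, c % 3 ∈ R →
      |((cls P L (2 * L) m' 1 c).card : ℝ) - θ * (3 / 2) * (L / (3 ^ m' * Real.log L))|
        ≤ ε * (L / (3 ^ m' * Real.log L))) {A : ℝ} (hA : 0 < A) (cap k m Tl Tm : ℕ) (hk : m' ≤ k)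
    (hTm : Tm ≤ k * cap) (c : ℤ) (hL1 : max L₀ (Real.exp 100) ≤ A * 3 ^ k / 2 ^ Tm)
    (hL2 : (3 : ℝ) ^ (k + m) ≤ Real.sqrt (A * 3 ^ k / 2 ^ Tm)) {lam0 lam1 : ℝ} (hlam : 0 < lam0)
    (h0 : lam0 ≤ Real.log (A * 3 ^ k / 2 ^ Tm)) (h1 : Real.log (A * 3 ^ k / 2 ^ Tl) ≤ lam1)
    (hTlm : Tl ≤ Tm) :
    (∑ w ∈ GW cap k Tl Tm, ((XP P A k m c w).card : ℝ))
        ≤ A / 3 ^ m * ((θ * (3 / 2) * ∑ T ∈ Icc Tl Tm, massR R cap k T) / lam0
          + (ε + 264 * ∑ T ∈ range (k * cap + 1), dev (FWT cap k T) wwt (fun w => (Wo w : ℤ)) (k + m) m')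
            / lam0) + 2 * 2 ^ Tm ∧
    A / 3 ^ m * ((θ * (3 / 2) * ∑ T ∈ Icc Tl Tm, massR R cap k T) / lam1
          - (ε + 264 * ∑ T ∈ range (k * cap + 1), dev (FWT cap k T) wwt (fun w => (Wo w : ℤ)) (k + m) m')
            / lam0) - 2 * 2 ^ Tm ≤ (∑ w ∈ GW cap k Tl Tm, ((XP P A k m c w).card : ℝ)) := by
  classical
  have hmain := Nk hP hm' hε hL₀ hA cap k m Tl Tm hk hTm c hL1 hL2
  have hθ := hP.th.1
  have hpos : ∀ T ≤ Tm, (0 : ℝ) < A * 3 ^ k / 2 ^ T := fun T _ => by positivity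
  have hlog0 : ∀ T ∈ Icc Tl Tm, lam0 ≤ Real.log (A * 3 ^ k / 2 ^ T) := by
    intro T hT
    rw [mem_Icc] at hT
    refine h0.trans (Real.log_le_log (by positivity) ?_)
    exact div_le_div_of_nonneg_left (by positivity) (by positivity)
      (pow_le_pow_right₀ (by norm_num) hT.2)
  have hlog1 : ∀ T ∈ Icc Tl Tm, Real.log (A * 3 ^ k / 2 ^ T) ≤ lam1 := by
    intro T hT
    rw [mem_Icc] at hT
    refine (Real.log_le_log (by positivity) ?_).trans h1
    exact div_le_div_of_nonneg_left (by positivity) (by positivity)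
      (pow_le_pow_right₀ (by norm_num) hT.1)
  have hlam1 : 0 < lam1 := by
    have := hlog0 Tl (mem_Icc.2 ⟨le_rfl, hTlm⟩)
    have := hlog1 Tl (mem_Icc.2 ⟨le_rfl, hTlm⟩)
    linarith
  have hup : ∀ T ∈ Icc Tl Tm, A / (3 ^ m * Real.log (A * 3 ^ k / 2 ^ T)) ≤ A / 3 ^ m * (1 / lam0) := by
    intro T hT
    have := hlog0 T hT
    rw [div_mul_div_comm, mul_one]
    apply div_le_div_of_nonneg_left hA.le (by positivity)
    exact mul_le_mul_of_nonneg_left this (by positivity)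
  have hlo : ∀ T ∈ Icc Tl Tm, A / 3 ^ m * (1 / lam1) ≤ A / (3 ^ m * Real.log (A * 3 ^ k / 2 ^ T)) := by
    intro T hT
    have h2 := hlog1 T hT
    have h3 := hlog0 T hT
    have h4 : 0 < Real.log (A * 3 ^ k / 2 ^ T) := lt_of_lt_of_le hlam h3
    rw [div_mul_div_comm, mul_one]
    apply div_le_div_of_nonneg_left hA.le (by positivity)
    exact mul_le_mul_of_nonneg_left h2 (by positivity)
  have hmR : ∀ T, 0 ≤ massR R cap k T := fun T => by
    unfold massR; exact sum_nonneg fun w _ => by unfold wwt; positivity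
  have hm : ∀ T, 0 ≤ ∑ w ∈ FWT cap k T, wwt w := fun T => sum_nonneg fun w _ => by
    unfold wwt; positivity
  have hdev : ∀ T, 0 ≤ dev (FWT cap k T) wwt (fun w => (Wo w : ℤ)) (k + m) m' := fun T =>
    sum_nonneg fun _ _ => abs_nonneg _
  have hmass : ∑ T ∈ Icc Tl Tm, ∑ w ∈ FWT cap k T, wwt w ≤ 1 := by
    rw [← sum_GW]
    refine le_trans ?_ (sum_wwt_le cap k)
    unfold GW
    apply sum_le_sum_of_subset_of_nonneg (filter_subset _ _)
    intro w _ _; unfold wwt; positivity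
  have hE : ∑ T ∈ Icc Tl Tm, (ε * (∑ w ∈ FWT cap k T, wwt w)
          + 264 * dev (FWT cap k T) wwt (fun w => (Wo w : ℤ)) (k + m) m')
            * (A / (3 ^ m * Real.log (A * 3 ^ k / 2 ^ T)))
      ≤ A / 3 ^ m * ((ε + 264 * ∑ T ∈ range (k * cap + 1),
        dev (FWT cap k T) wwt (fun w => (Wo w : ℤ)) (k + m) m') / lam0) := by
    calc _ ≤ ∑ T ∈ Icc Tl Tm, (ε * (∑ w ∈ FWT cap k T, wwt w)
          + 264 * dev (FWT cap k T) wwt (fun w => (Wo w : ℤ)) (k + m) m') * (A / 3 ^ m * (1 / lam0)) := by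
          apply sum_le_sum
          intro T hT
          apply mul_le_mul_of_nonneg_left (hup T hT)
          have := hm T
          have := hdev T
          positivity
      _ = (ε * (∑ T ∈ Icc Tl Tm, ∑ w ∈ FWT cap k T, wwt w)
          + 264 * ∑ T ∈ Icc Tl Tm, dev (FWT cap k T) wwt (fun w => (Wo w : ℤ)) (k + m) m')
            * (A / 3 ^ m * (1 / lam0)) := by
          rw [← sum_mul, sum_add_distrib, mul_sum, mul_sum]
      _ ≤ (ε * 1 + 264 * ∑ T ∈ range (k * cap + 1),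
          dev (FWT cap k T) wwt (fun w => (Wo w : ℤ)) (k + m) m') * (A / 3 ^ m * (1 / lam0)) := by
          apply mul_le_mul_of_nonneg_right _ (by positivity)
          apply add_le_add (mul_le_mul_of_nonneg_left hmass hε)
          apply mul_le_mul_of_nonneg_left _ (by norm_num)
          apply sum_le_sum_of_subset_of_nonneg
          · intro T hT
            rw [mem_Icc] at hT
            rw [mem_range]; omega
          · intro T _ _; exact hdev T
      _ = _ := by rw [mul_one]; ring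
  have hU : ∑ T ∈ Icc Tl Tm, θ * (3 / 2) * massR R cap k T * (A / (3 ^ m * Real.log (A * 3 ^ k / 2 ^ T)))
      ≤ A / 3 ^ m * ((θ * (3 / 2) * ∑ T ∈ Icc Tl Tm, massR R cap k T) / lam0) := by
    calc _ ≤ ∑ T ∈ Icc Tl Tm, θ * (3 / 2) * massR R cap k T * (A / 3 ^ m * (1 / lam0)) := by
          apply sum_le_sum
          intro T hT
          apply mul_le_mul_of_nonneg_left (hup T hT)
          have := hmR T
          positivity
      _ = _ := by rw [← sum_mul, ← mul_sum]; ring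
  have hLo : A / 3 ^ m * ((θ * (3 / 2) * ∑ T ∈ Icc Tl Tm, massR R cap k T) / lam1)
      ≤ ∑ T ∈ Icc Tl Tm, θ * (3 / 2) * massR R cap k T * (A / (3 ^ m * Real.log (A * 3 ^ k / 2 ^ T))) := by
    calc _ = ∑ T ∈ Icc Tl Tm, θ * (3 / 2) * massR R cap k T * (A / 3 ^ m * (1 / lam1)) := by
          rw [← sum_mul, ← mul_sum]; ring
      _ ≤ _ := by
          apply sum_le_sum
          intro T hT
          apply mul_le_mul_of_nonneg_left (hlo T hT)
          have := hmR T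
          positivity
  rw [abs_le] at hmain
  constructor
  · rw [mul_add]; linarith [hmain.2]
  · rw [mul_sub]; linarith [hmain.1]

end Pool.Agent.H998_PL
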