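import Pool.Agent.H998_PL.Par

/-! Primes on trajectories, part 10: consequences of the choice of parameters. -/

set_option autoImplicit false

namespace Pool.Agent.H998_PL

open Finset
open Pool.Agent.H320R2.PD Pool.Agent.H499R2.ND

section

variable {δ η ε₁ l a Lb : ℝ} {m m' K k₁ k₃ : ℕ}

theorem exp_small {x : ℝ} (hx : x ≤ -1) : Real.exp x ≤ 1 / 2 := by
  have h1 := Real.exp_le_exp.2 hx
  have h2 : Real.exp (-1) ≤ 1 / 2 := by
    rw [Real.exp_neg, inv_eq_one_div]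
    apply one_div_le_one_div_of_le (by norm_num)
    have := Real.add_one_le_exp (1 : ℝ)
    linarith
  linarith

theorem Par.K_le (h : Par δ η ε₁ l a Lb m m' K k₁ k₃) (hδ1 : δ ≤ 1 / 50) (hη1 : η ≤ 1 / 20) :
    (K : ℝ) ≤ l / 12 := by
  have h1 := h.Kle
  have h2 := km_ge hη1
  have h3 := h.l1
  have h4 : (K : ℝ) * 0.24 ≤ K * km η := mul_le_mul_of_nonneg_left h2 (Nat.cast_nonneg _)
  have h5 : δ * l ≤ 1 / 50 * l := mul_le_mul_of_nonneg_right hδ1 (by linarith)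
  linarith

theorem three_half_pow {K k : ℕ} {l : ℝ} (hK : (K : ℝ) ≤ l / 12) (hk : k ≤ K) :
    (3 / 2 : ℝ) ^ k ≤ Real.exp (l / 24) := by
  rw [pow_exp (3 / 2) (by norm_num)]
  apply Real.exp_le_exp.2
  have h1 : Real.log (3 / 2) ≤ 1 / 2 := by
    have := Real.log_le_sub_one_of_pos (by norm_num : (0 : ℝ) < 3 / 2)
    linarith
  have h2 : (k : ℝ) ≤ K := by exact_mod_cast hk
  have h3 : (k : ℝ) * Real.log (3 / 2) ≤ k * (1 / 2) := mul_le_mul_of_nonneg_left h1 (Nat.cast_nonneg _)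
  linarith

theorem Par.ly (h : Par δ η ε₁ l a Lb m m' K k₁ k₃) (hδ : 0 < δ) (hδ1 : δ ≤ 1 / 50) :
    l / (1 + δ) = l - δ * l / (1 + δ) ∧ δ * l / 2 ≤ δ * l / (1 + δ) ∧ δ * l / (1 + δ) ≤ δ * l ∧
      0.98 * l ≤ l / (1 + δ) := by
  have hl := h.l1
  have hδ0 : 0 < 1 + δ := by linarith
  have hδl : 0 < δ * l := by positivity
  have hx : δ * l ≤ 1 / 50 * l := mul_le_mul_of_nonneg_right hδ1 (by linarith)
  have h3 : δ * l / (1 + δ) ≤ δ * l := div_le_self hδl.le (by linarith)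
  refine ⟨by field_simp; ring, ?_, h3, ?_⟩
  · apply div_le_div_of_nonneg_left hδl.le hδ0; linarith
  · have : l / (1 + δ) = l - δ * l / (1 + δ) := by field_simp; ring
    linarith

/-- `y` is above the endpoints of the typical words of length `K` -/
theorem Par.f2 (h : Par δ η ε₁ l a Lb m m' K k₁ k₃) (hδ : 0 < δ) (hδ1 : δ ≤ 1 / 50) (hη1 : η ≤ 1 / 20) :
    2 * Real.exp a * 3 ^ K / 2 ^ (Tlo η K) + (3 / 2) ^ K < Real.exp (l / (1 + δ)) := by
  have hl := h.l1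
  obtain ⟨h1, h2, h3, h4⟩ := h.ly hδ hδ1
  have hKl := h.K_le hδ1 hη1
  have e1 := upL η a K
  have e2 : Real.exp (a - K * km η) ≤ Real.exp (l / (1 + δ)) * Real.exp (-2) := by
    rw [← Real.exp_add]
    apply Real.exp_le_exp.2
    linarith [h.Kge]
  have e3 : Real.exp (-2) ≤ 1 / 5 := by
    rw [Real.exp_neg, inv_eq_one_div]
    apply one_div_le_one_div_of_le (by norm_num)
    have h5 := Real.exp_one_gt_d9
    have h6 : Real.exp 2 = Real.exp 1 * Real.exp 1 := by rw [← Real.exp_add]; norm_num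
    rw [h6]; nlinarith
  have e4 := three_half_pow hKl le_rfl
  have e5 : Real.exp (l / 24) ≤ Real.exp (l / (1 + δ)) * (1 / 2) := by
    have : Real.exp (l / 24) = Real.exp (l / (1 + δ)) * Real.exp (l / 24 - l / (1 + δ)) := by
      rw [← Real.exp_add]; congr 1; ring
    rw [this]
    apply mul_le_mul_of_nonneg_left _ (Real.exp_pos _).le
    apply exp_small
    linarith
  have e6 : 2 * Real.exp a * 3 ^ K / 2 ^ (Tlo η K) = 2 * (Real.exp a * 3 ^ K / 2 ^ (Tlo η K)) := by ring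
  rw [e6]
  have e7 : Real.exp (l / (1 + δ)) * Real.exp (-2) ≤ Real.exp (l / (1 + δ)) * (1 / 5) :=
    mul_le_mul_of_nonneg_left e3 (Real.exp_pos _).le
  have e8 := Real.exp_pos (l / (1 + δ))
  linarith

theorem Par.f3 (h : Par δ η ε₁ l a Lb m m' K k₁ k₃) (hη : 0 < η) {k : ℕ}
    (hk : k ≤ k₃) : Real.exp (l / (1 + δ)) ≤ Real.exp a * 3 ^ k / 2 ^ (Thi η k) := by
  refine le_trans ?_ (lowL hη.le a k)
  apply Real.exp_le_exp.2
  have h1 : (k : ℝ) ≤ k₃ := by exact_mod_cast hk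
  have h2 := kp_ge hη.le
  have h3 : (k : ℝ) * kp η ≤ k₃ * kp η := mul_le_mul_of_nonneg_right h1 (by linarith)
  linarith [h.k3le]

theorem Thi_log {η : ℝ} (hη : 0 ≤ η) (hη1 : η ≤ 1 / 20) (k : ℕ) :
    (2 : ℝ) ^ (Thi η k) ≤ Real.exp (1.4211 * k) := by
  rw [pow_exp 2 (by norm_num)]
  apply Real.exp_le_exp.2
  have h1 := Thi_le hη k
  have h2 := Real.log_two_lt_d9
  have h3 := Real.log_two_gt_d9
  have hk : (0 : ℝ) ≤ k := Nat.cast_nonneg k
  have h4 : (Thi η k : ℝ) ≤ 2.05 * k := h1.trans (mul_le_mul_of_nonneg_right (by linarith) hk)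
  calc (Thi η k : ℝ) * Real.log 2 ≤ 2.05 * k * 0.6931471808 :=
        mul_le_mul h4 h2.le (by linarith) (by positivity)
    _ ≤ _ := by nlinarith

theorem Par.f4' (h : Par δ η ε₁ l a Lb m m' K k₁ k₃) (hδ : 0 < δ) (hη : 0 < η)
    (hη1 : η ≤ 1 / 20) (hε1 : ε₁ ≤ δ / 10) :
    Real.exp (l - 0.25 * (δ * l)) ≤ Real.exp a / 2 ^ (Thi η k₁) := by
  rw [le_div_iff₀ (by positivity)]
  have h1 := Thi_log hη.le hη1 k₁
  have hl := h.l1
  have h2 : ε₁ * l ≤ δ / 10 * l := mul_le_mul_of_nonneg_right hε1 (by linarith)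
  calc Real.exp (l - 0.25 * (δ * l)) * 2 ^ (Thi η k₁)
      ≤ Real.exp (l - 0.25 * (δ * l)) * Real.exp (1.4211 * k₁) :=
        mul_le_mul_of_nonneg_left h1 (Real.exp_pos _).le
    _ = Real.exp (l - 0.25 * (δ * l) + 1.4211 * k₁) := by rw [← Real.exp_add]
    _ ≤ _ := by
        apply Real.exp_le_exp.2
        linarith [h.k1le, h.dl, h.a1]

theorem Par.f4 (h : Par δ η ε₁ l a Lb m m' K k₁ k₃) (hδ : 0 < δ) (hδ1 : δ ≤ 1 / 50) (hη : 0 < η)
    (hη1 : η ≤ 1 / 20) (hε1 : ε₁ ≤ δ / 10) :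
    Real.exp (l / (1 + δ)) ≤ Real.exp a / 2 ^ (Thi η k₁) := by
  refine le_trans ?_ (h.f4' hδ hη hη1 hε1)
  apply Real.exp_le_exp.2
  obtain ⟨h1, h2, h3, h4⟩ := h.ly hδ hδ1
  have : 0 < δ * l := mul_pos hδ (by linarith [h.l1])
  linarith

theorem Par.f5 (h : Par δ η ε₁ l a Lb m m' K k₁ k₃) (hδ1 : δ ≤ 1 / 50) (hη1 : η ≤ 1 / 20) {k : ℕ}
    (hk : k₁ ≤ k) (hk3 : k ≤ k₃) :
    2 * Real.exp a * 3 ^ k / 2 ^ (Tlo η k) + (3 / 2) ^ k < Real.exp l := by
  have hl := h.l1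
  have hKl := h.K_le hδ1 hη1
  have e1 := upL η a k
  have h1 : (k₁ : ℝ) ≤ k := by exact_mod_cast hk
  have h2 := km_ge hη1
  have h3 : (k₁ : ℝ) * km η ≤ k * km η := mul_le_mul_of_nonneg_right h1 (by linarith)
  have e2 : Real.exp (a - k * km η) ≤ Real.exp l * Real.exp (-2) := by
    rw [← Real.exp_add]
    apply Real.exp_le_exp.2
    linarith [h.k1ge, h.a2]
  have e3 : Real.exp (-2) ≤ 1 / 5 := by
    rw [Real.exp_neg, inv_eq_one_div]
    apply one_div_le_one_div_of_le (by norm_num)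
    have h5 := Real.exp_one_gt_d9
    have h6 : Real.exp 2 = Real.exp 1 * Real.exp 1 := by rw [← Real.exp_add]; norm_num
    rw [h6]; nlinarith
  have e4 := three_half_pow hKl (hk3.trans h.k3K)
  have e5 : Real.exp (l / 24) ≤ Real.exp l * (1 / 2) := by
    have : Real.exp (l / 24) = Real.exp l * Real.exp (l / 24 - l) := by
      rw [← Real.exp_add]; congr 1; ring
    rw [this]
    apply mul_le_mul_of_nonneg_left _ (Real.exp_pos _).le
    apply exp_small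
    linarith
  have e6 : 2 * Real.exp a * 3 ^ k / 2 ^ (Tlo η k) = 2 * (Real.exp a * 3 ^ k / 2 ^ (Tlo η k)) := by ring
  rw [e6]
  have e7 : Real.exp l * Real.exp (-2) ≤ Real.exp l * (1 / 5) :=
    mul_le_mul_of_nonneg_left e3 (Real.exp_pos _).le
  have e8 := Real.exp_pos l
  linarith

theorem Par.f6 (h : Par δ η ε₁ l a Lb m m' K k₁ k₃) (hδ : 0 < δ) (hη : 0 < η)
    (hη1 : η ≤ 1 / 20) (hε1 : ε₁ ≤ δ / 10) {k : ℕ} (hk : k ≤ K) :
    Real.exp ((1 - 2 * δ) * l) ≤ Real.exp a * 3 ^ k / 2 ^ (Thi η k) := by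
  refine le_trans ?_ (lowL hη.le a k)
  apply Real.exp_le_exp.2
  have h1 : (k : ℝ) ≤ K := by exact_mod_cast hk
  have h2 := kp_le hη1
  have h3 := kp_ge hη.le
  have h4 := km_ge hη1
  have hl := h.l1
  have h5 : (k : ℝ) * kp η ≤ K * kp η := mul_le_mul_of_nonneg_right h1 (by linarith)
  have h6 : (K : ℝ) * kp η ≤ 1.35 * (K * km η) := by
    have : kp η ≤ 1.35 * km η := by linarith
    have := mul_le_mul_of_nonneg_left this (Nat.cast_nonneg K : (0 : ℝ) ≤ K)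
    linarith
  have h7 : ε₁ * l ≤ δ / 10 * l := mul_le_mul_of_nonneg_right hε1 (by linarith)
  have h8 : (1 - 2 * δ) * l = l - 2 * (δ * l) := by ring
  rw [h8]
  have : 0 < δ * l := mul_pos hδ (by linarith)
  linarith [h.Kle, h.a1, h.dl]

theorem Par.three_pow (h : Par δ η ε₁ l a Lb m m' K k₁ k₃) (hδ1 : δ ≤ 1 / 50) (hη1 : η ≤ 1 / 20)
    {k : ℕ} (hk : k ≤ K) : (3 : ℝ) ^ (k + m) ≤ Real.exp (0.095 * l) := by
  rw [pow_exp 3 (by norm_num)]
  apply Real.exp_le_exp.2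
  have h1 : (k : ℝ) ≤ K := by exact_mod_cast hk
  have h2 := h.K_le hδ1 hη1
  have h3 := h.mle
  have h4 := H998_BC.log3_le'
  have h5 : (((k + m : ℕ)) : ℝ) ≤ l / 12 + l / 1000 := by push_cast; linarith
  have hl := h.l1
  calc (((k + m : ℕ)) : ℝ) * Real.log 3 ≤ (l / 12 + l / 1000) * 1.11 :=
        mul_le_mul h5 h4 (Real.log_nonneg (by norm_num)) (by positivity)
    _ ≤ _ := by nlinarith

theorem Par.f8 (h : Par δ η ε₁ l a Lb m m' K k₁ k₃) (hδ1 : δ ≤ 1 / 50) (hη : 0 < η) (hη1 : η ≤ 1 / 20) :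
    (2 : ℝ) ^ (Thi η K) ≤ Real.exp (0.1185 * l) := by
  refine (Thi_log hη.le hη1 K).trans (Real.exp_le_exp.2 ?_)
  have := h.K_le hδ1 hη1
  linarith [h.l1]

theorem Par.f8' (h : Par δ η ε₁ l a Lb m m' K k₁ k₃) (hδ1 : δ ≤ 1 / 50) (hη : 0 < η)
    (hη1 : η ≤ 1 / 20) : Real.exp (0.88 * l) ≤ Real.exp a / 2 ^ (Thi η K) := by
  rw [le_div_iff₀ (by positivity)]
  calc Real.exp (0.88 * l) * 2 ^ (Thi η K) ≤ Real.exp (0.88 * l) * Real.exp (0.1185 * l) :=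
        mul_le_mul_of_nonneg_left (h.f8 hδ1 hη hη1) (Real.exp_pos _).le
    _ = Real.exp (0.88 * l + 0.1185 * l) := by rw [← Real.exp_add]
    _ ≤ _ := by
        apply Real.exp_le_exp.2
        linarith [h.a1, h.l1]

/-- the rounding errors are small -/
theorem Par.junk (h : Par δ η ε₁ l a Lb m m' K k₁ k₃) (hδ1 : δ ≤ 1 / 50) (hη : 0 < η)
    (hη1 : η ≤ 1 / 20) :
    6 * l ^ 2 * 2 ^ (Thi η K) ≤ Real.exp a / (2 * 3 ^ m) * Real.exp (-(l / 2)) := by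
  have h1 := h.f8 hδ1 hη hη1
  have h2 : (3 : ℝ) ^ m ≤ Real.exp (0.095 * l) := by
    have := h.three_pow hδ1 hη1 (Nat.zero_le K)
    rwa [zero_add] at this
  have hl := h.l1
  have h3 : 12 * l ^ 2 ≤ Real.exp (0.2 * l) := by
    have e1 : (0.2 * l) ^ 4 / 24 ≤ Real.exp (0.2 * l) := by
      have := Real.pow_div_factorial_le_exp (0.2 * l) (by linarith) 4
      norm_num [Nat.factorial] at this ⊢
      linarith
    have e2 : (0.2 * l) ^ 4 / 24 = (0.2 ^ 4 / 24 * l ^ 2) * l ^ 2 := by ring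
    have e3 : 12 ≤ 0.2 ^ 4 / 24 * l ^ 2 := by
      have : (1000 : ℝ) ^ 2 ≤ l ^ 2 := pow_le_pow_left₀ (by norm_num) hl 2
      linarith
    rw [e2] at e1
    exact (mul_le_mul_of_nonneg_right e3 (sq_nonneg l)).trans e1
  have h4 : 0 < (3 : ℝ) ^ m := by positivity
  rw [div_mul_eq_mul_div, le_div_iff₀ (by positivity)]
  calc 6 * l ^ 2 * 2 ^ (Thi η K) * (2 * 3 ^ m) = (12 * l ^ 2) * (2 ^ (Thi η K) * 3 ^ m) := by ring
    _ ≤ Real.exp (0.2 * l) * (Real.exp (0.1185 * l) * Real.exp (0.095 * l)) := by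
        apply mul_le_mul h3 _ (by positivity) (Real.exp_pos _).le
        exact mul_le_mul h1 h2 h4.le (Real.exp_pos _).le
    _ = Real.exp (0.2 * l + (0.1185 * l + 0.095 * l)) := by rw [← Real.exp_add, ← Real.exp_add]
    _ ≤ Real.exp (a + -(l / 2)) := by
        apply Real.exp_le_exp.2
        linarith [h.a1]
    _ = _ := by rw [Real.exp_add]

end

end Pool.Agent.H998_PL
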