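import Pool.Agent.H998_PL.Mean2

/-! Primes on trajectories, part 21: the mean value theorem. -/

set_option autoImplicit false

namespace Pool.Agent.H998_PL

open Finset Filter Topology

theorem big_ev {δ C₂ K₂ K : ℝ} (hδ : 0 < δ) (hδ1 : δ ≤ 1 / 50) (hK : 0 < K) :
    ∃ ℓ₀ : ℝ, 1 ≤ ℓ₀ ∧ ∀ ℓ : ℝ, ℓ₀ ≤ ℓ → ∀ lam : ℝ, 1 ≤ lam → 8 * K₂ / δ ^ 3 ≤ lam →
      ∀ L : ℝ, Real.exp ℓ ≤ L → Big δ L lam ℓ C₂ K₂ K := by
  have h1 : Tendsto (fun L : ℝ => 48 / δ ^ 2 * ((δ / 2 * L) ^ 2 * Real.exp (-(δ / 2 * L)))) atTop (𝓝 0) := by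
    have e1 := Real.tendsto_pow_mul_exp_neg_atTop_nhds_zero 2
    have e2 : Tendsto (fun L : ℝ => δ / 2 * L) atTop atTop :=
      tendsto_id.const_mul_atTop (by positivity)
    have e3 := (e1.comp e2).const_mul (48 / δ ^ 2)
    rw [mul_zero] at e3
    exact e3
  have h2 : ∀ᶠ L : ℝ in atTop, 12 * L ^ 2 * Real.exp (-(δ * L / 2)) ≤ δ ^ 3 := by
    filter_upwards [h1.eventually_le_const (show (0 : ℝ) < δ ^ 3 by positivity)] with L hL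
    refine le_trans (le_of_eq ?_) hL
    rw [show δ / 2 * L = δ * L / 2 by ring]
    field_simp
    ring
  have h3 : ∀ᶠ x : ℝ in atTop, Real.log x ≤ δ ^ 2 / (16 * K) * x := by
    have e1 := Real.isLittleO_log_id_atTop.def (show 0 < δ ^ 2 / (16 * K) by positivity)
    filter_upwards [e1, eventually_ge_atTop 1] with x hx hx1
    rw [id, Real.norm_eq_abs, Real.norm_eq_abs, abs_of_nonneg (by linarith : (0 : ℝ) ≤ x)] at hx
    exact (le_abs_self _).trans hx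
  obtain ⟨L₁, hL₁⟩ := eventually_atTop.1 h2
  obtain ⟨x₁, hx₁⟩ := eventually_atTop.1 h3
  refine ⟨max (max 1 L₁) (max (max x₁ (8 * K / δ)) (max (max ((24 + 4 * C₂) / δ) (2 * (1 + C₂) / δ ^ 2))
    (8 * K / δ ^ 2))), (le_max_left _ _).trans (le_max_left _ _), ?_⟩
  intro ℓ hℓ lam hlam hlam2 L hL
  simp only [max_le_iff] at hℓ
  obtain ⟨⟨hℓ1, hℓL⟩, ⟨hℓx, hℓK⟩, ⟨hℓb1, hℓb2⟩, hℓd⟩ := hℓ
  have hLℓ : ℓ ≤ L := by linarith [Real.add_one_le_exp ℓ]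
  have hLe : L ≤ Real.exp L := by linarith [Real.add_one_le_exp L]
  refine ⟨hL₁ L (by linarith), by linarith, by linarith, ?_, by linarith, ?_⟩
  · have h4 := hx₁ (2 * ℓ / δ) (by
      rw [le_div_iff₀ hδ]
      nlinarith)
    have h5 : 2 * K * Real.log (2 * ℓ / δ) ≤ 2 * K * (δ ^ 2 / (16 * K) * (2 * ℓ / δ)) :=
      mul_le_mul_of_nonneg_left h4 (by positivity)
    have h6 : 2 * K * (δ ^ 2 / (16 * K) * (2 * ℓ / δ)) = δ * ℓ / 4 := by field_simp; ring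
    have h7 : 8 * K ≤ ℓ * δ := by rwa [div_le_iff₀ hδ] at hℓK
    linarith
  · nlinarith

/-- THE MEAN VALUE -/
theorem mean_main {P R : Set ℤ} {θ : ℝ} (hP : Eqd P R θ) : ∃ C₃ : ℝ, 0 < C₃ ∧ ∀ δ : ℝ, 0 < δ →
    δ ≤ 1 / 50 → ∃ lam₀ ℓ₀ : ℝ, 1 ≤ lam₀ ∧ 1 ≤ ℓ₀ ∧ ∀ lam : ℝ, lam₀ ≤ lam → ∀ ℓ : ℝ, ℓ₀ ≤ ℓ →
      ∀ N Q : ℕ, 1 ≤ N → Real.log N = lam * Real.exp ℓ → Q = ⌊2 * ℓ / δ⌋₊ →
      |∑ n ∈ Icc 1 N, tr Q (HT P (Real.exp lam) (n : ℤ)).encard - kap0 θ R * (N * ℓ)|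
        ≤ C₃ * δ * (N * ℓ) := by
  obtain ⟨C₂, K₂, hC₂, hK₂, hall⟩ := all_PB hP
  obtain ⟨K, hK, htop⟩ := top_bound
  have hκ := kap0_nonneg hP.th.1 R
  have hκ1 := kap0_le hP.th.1 hP.th.2 R
  refine ⟨26 + 4 * C₂, by positivity, ?_⟩
  intro δ hδ hδ1
  obtain ⟨l₀, hl₀, hsc⟩ := hall δ hδ hδ1
  obtain ⟨ℓ₀, hℓ₀, hbig⟩ := big_ev (δ := δ) (C₂ := C₂) (K₂ := K₂) (K := K) hδ hδ1 hK
  refine ⟨max l₀ (8 * K₂ / δ ^ 3), ℓ₀, hl₀.trans (le_max_left _ _), hℓ₀, ?_⟩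
  intro lam hlam ℓ hℓ N Q hN hNL hQ
  have hlam1 : l₀ ≤ lam := (le_max_left _ _).trans hlam
  have hlam2 : 8 * K₂ / δ ^ 3 ≤ lam := (le_max_right _ _).trans hlam
  have hNR : (0 : ℝ) < N := by exact_mod_cast hN
  obtain ⟨I, hI⟩ : ∃ I : ℕ, I = ⌊ℓ / Real.log (1 + δ)⌋₊ := ⟨_, rfl⟩
  have hlog : 0 < Real.log (1 + δ) := Real.log_pos (by linarith)
  have hnum : Num δ (Real.log N) lam ℓ I := by
    refine ⟨hδ, hδ1, by linarith, hNL, by linarith, ?_, ?_⟩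
    · have := Nat.floor_le (show 0 ≤ ℓ / Real.log (1 + δ) by have : 0 < ℓ := by linarith
                                                             positivity)
      rw [← hI, le_div_iff₀ hlog] at this
      exact this
    · have := Nat.lt_floor_add_one (ℓ / Real.log (1 + δ))
      rw [← hI, div_lt_iff₀ hlog] at this
      exact this
  have hB := hbig ℓ hℓ lam (by linarith) hlam2 (Real.log N) hnum.L_ge
  have hs : ∀ i < I, Scale P δ (ls (Real.log N) δ (1 + i)) (kap0 θ R) C₂ K₂ := by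
    intro i hi
    have h1 := hnum.ls_ge' hi
    have h2 := hsc (ls (Real.log N) δ (1 + i)) (by linarith)
    exact ⟨by linarith, fun A hA => (h2 A hA).1, fun A hA => (h2 A hA).2.1,
      fun A hA j hj => (h2 A hA).2.2 j hj⟩
  have hNe : (N : ℝ) = Real.exp (Real.log N) := (Real.exp_log hNR).symm
  have h2ℓ : 0 ≤ 2 * ℓ / δ := by have : 0 < ℓ := by linarith
                                 positivity
  have hQ1 : (Q : ℝ) ≤ 2 * ℓ / δ := by rw [hQ]; exact Nat.floor_le h2ℓ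
  have hQ2 : 2 * ℓ / δ < Q + 1 := by rw [hQ]; exact Nat.lt_floor_add_one _
  have hQ3 : 1 ≤ Q := by
    have h1 : (1 : ℝ) ≤ 2 * ℓ / δ := by rw [le_div_iff₀ hδ]; linarith
    rw [hQ]; exact Nat.le_floor (by exact_mod_cast h1)
  have hup := final_up hP.odd hnum hB hκ hκ1 hC₂.le hK₂.le hK hs hNe hQ1 hQ3
    (fun z hz hzN => htop P R θ hP z N Q hz hzN hQ3)
  have hlo := final_lo hP.odd hnum hB hκ hκ1 hC₂.le hs hNe hQ2
  have h0 : 0 ≤ δ * (N * ℓ) := by have : 0 < ℓ := by linarith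
                                  positivity
  have h0' : 0 ≤ C₂ * (δ * (N * ℓ)) := by positivity
  rw [abs_le]
  constructor <;> linarith

end Pool.Agent.H998_PL
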