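import Pool.Agent.H998_PL.Final
import Pool.Agent.H499R2.NDFinal

/-! Primes on trajectories, part 22: consequences. -/

set_option autoImplicit false

namespace Pool.Agent.H998_PL

open Finset Filter Topology
open Pool.Agent.H998_BC (C)

/-- the times of the primes `≡ a` mod `q` (and `≡ r` mod `3`, if `r ≠ 0`) before the first term below `Y` -/
def PrimeTimes (q a r : ℕ) (Y : ℝ) (n : ℕ) : Set ℕ :=
  {k : ℕ | (C^[k] n).Prime ∧ C^[k] n % q = a % q ∧ (r = 0 ∨ C^[k] n % 3 = r) ∧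
    ∀ j ≤ k, Y ≤ ((C^[j] n : ℕ) : ℝ)}

/-- the expected density -/
noncomputable def kappa (q r : ℕ) : ℝ :=
  (if r = 0 then 3 else (r : ℝ)) / (q.totient * Real.log (4 / 3))

/-- the classes modulo `3` -/
def Rr (r : ℕ) : Set ℤ := {x : ℤ | (x = 1 ∨ x = 2) ∧ (r = 0 ∨ x = r)}

theorem sig_Rr {r : ℕ} (hr : r ≤ 2) : 3 * sig (Rr r) = (if r = 0 then 3 else (r : ℝ)) := by
  unfold sig
  have h1 : (1 : ℤ) ∈ Rr r ↔ r = 0 ∨ r = 1 := by
    show ((1 : ℤ) = 1 ∨ (1 : ℤ) = 2) ∧ (r = 0 ∨ (1 : ℤ) = r) ↔ _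
    omega
  have h2 : (2 : ℤ) ∈ Rr r ↔ r = 0 ∨ r = 2 := by
    show ((2 : ℤ) = 1 ∨ (2 : ℤ) = 2) ∧ (r = 0 ∨ (2 : ℤ) = r) ↔ _
    omega
  obtain rfl | rfl | rfl : r = 0 ∨ r = 1 ∨ r = 2 := by omega
  · rw [if_pos (h1.2 (by norm_num)), if_pos (h2.2 (by norm_num))]; norm_num
  · rw [if_pos (h1.2 (by norm_num)), if_neg (by rw [h2]; norm_num)]; norm_num
  · rw [if_neg (by rw [h1]; norm_num), if_pos (h2.2 (by norm_num))]; norm_num

theorem kap0_Rr {q r : ℕ} (hr : r ≤ 2) : kap0 (1 / (q.totient : ℝ)) (Rr r) = kappa q r := by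
  unfold kap0 kappa
  rw [← sig_Rr hr, show 3 * (1 / (q.totient : ℝ)) * sig (Rr r) = (3 * sig (Rr r)) / q.totient by ring,
    div_div]

theorem PrimeTimes_eq {q a r : ℕ} {Y : ℝ} (hY : 3 < Y) (n : ℕ) :
    PrimeTimes q a r Y n = HC {m : ℕ | (m : ℤ) ∈ Pq q a (Rr r)} Y n := by
  ext k
  constructor
  · rintro ⟨h1, h2, h3, h4⟩
    refine ⟨?_, h4⟩
    have h5 : (3 : ℝ) < ((C^[k] n : ℕ) : ℝ) := hY.trans_le (h4 k le_rfl)
    have h6 : 3 < C^[k] n := by exact_mod_cast h5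
    have h7 : Odd (C^[k] n) := h1.odd_of_ne_two (by omega)
    have h8 : C^[k] n % 3 ≠ 0 := by
      intro h9
      have := (Nat.prime_dvd_prime_iff_eq Nat.prime_three h1).1 (Nat.dvd_of_mod_eq_zero h9)
      omega
    refine ⟨by exact_mod_cast h1.pos, by simpa using h1, by exact_mod_cast h7, by simpa using h2, ?_⟩
    show (((C^[k] n : ℕ) : ℤ) % 3 = 1 ∨ ((C^[k] n : ℕ) : ℤ) % 3 = 2) ∧ (r = 0 ∨ ((C^[k] n : ℕ) : ℤ) % 3 = r)
    omega
  · rintro ⟨⟨h1, h2, h3, h4, h5, h6⟩, h7⟩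
    refine ⟨by simpa using h2, by simpa using h4, ?_, h7⟩
    omega

theorem mean_PT {q a r : ℕ} (hq : 1 ≤ q) (ha : a.Coprime q) (hq3 : ¬ 3 ∣ q) (hr : r ≤ 2) :
    0 ≤ kappa q r ∧ kappa q r ≤ 12 ∧
    ∃ C₃ : ℝ, 0 < C₃ ∧ ∀ M : ℝ, 1 ≤ M → ∃ Y₀ ℓ₀ : ℝ, 4 ≤ Y₀ ∧ 1 ≤ ℓ₀ ∧ ∀ (Y : ℝ) (N : ℕ), Y₀ ≤ Y →
      ℓ₀ ≤ Real.log (Real.log N / Real.log Y) →
      |∑ n ∈ Icc 1 N, tr ⌊M * Real.log (Real.log N / Real.log Y)⌋₊ (PrimeTimes q a r Y n).encard
          - kappa q r * (N * Real.log (Real.log N / Real.log Y))|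
        ≤ C₃ / M * (N * Real.log (Real.log N / Real.log Y)) := by
  have hE := Pq_eqd hq ha hq3 (R := Rr r) (fun ρ hρ => hρ.1)
  have hκ := kap0_nonneg hE.th.1 (Rr r)
  have hκ1 := kap0_le hE.th.1 hE.th.2 (Rr r)
  obtain ⟨C₃, hC₃, hmain⟩ := mean_main hE
  rw [kap0_Rr hr] at hκ hκ1 hmain
  refine ⟨hκ, hκ1, 2 * C₃ + 20000, by positivity, ?_⟩
  intro M hM
  rcases lt_or_ge M 100 with hM1 | hM1
  · refine ⟨4, 1, le_rfl, le_rfl, ?_⟩
    intro Y N hY hℓ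
    set ℓ := Real.log (Real.log N / Real.log Y) with hℓdef
    have h1 : ∑ n ∈ Icc 1 N, tr ⌊M * ℓ⌋₊ (PrimeTimes q a r Y n).encard ≤ 100 * (N * ℓ) := by
      have e1 : ∀ n ∈ Icc 1 N, tr ⌊M * ℓ⌋₊ (PrimeTimes q a r Y n).encard ≤ 100 * ℓ := by
        intro n _
        refine (tr_le _ _).trans ((Nat.floor_le (by positivity)).trans ?_)
        exact mul_le_mul_of_nonneg_right hM1.le (by linarith)
      refine (sum_le_sum e1).trans (le_of_eq ?_)
      rw [sum_const, nsmul_eq_mul, Nat.card_Icc, Nat.add_sub_cancel]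
      ring
    have h2 : 0 ≤ ∑ n ∈ Icc 1 N, tr ⌊M * ℓ⌋₊ (PrimeTimes q a r Y n).encard :=
      sum_nonneg fun n _ => tr_nonneg _ _
    have h3 : 0 ≤ N * ℓ := by positivity
    have h4 : 0 ≤ kappa q r * (N * ℓ) := by positivity
    have h5 : kappa q r * (N * ℓ) ≤ 12 * (N * ℓ) := mul_le_mul_of_nonneg_right hκ1 h3
    have h6 : 200 * (N * ℓ) ≤ (2 * C₃ + 20000) / M * (N * ℓ) := by
      apply mul_le_mul_of_nonneg_right _ h3
      rw [le_div_iff₀ (by linarith)]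
      linarith
    rw [abs_le]
    constructor <;> linarith
  · obtain ⟨lam₀, ℓ₀, hlam₀, hℓ₀, hm⟩ := hmain (2 / M) (by positivity) (by
      rw [div_le_iff₀ (by linarith)]; linarith)
    refine ⟨max 4 (Real.exp lam₀), ℓ₀, le_max_left _ _, hℓ₀, ?_⟩
    intro Y N hY hℓ
    have hY4 : 4 ≤ Y := (le_max_left _ _).trans hY
    have hYl : Real.exp lam₀ ≤ Y := (le_max_right _ _).trans hY
    have hY0 : 0 < Y := by linarith
    set ℓ := Real.log (Real.log N / Real.log Y) with hℓdef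
    have hlY : 0 < Real.log Y := Real.log_pos (by linarith)
    have hratio : 0 < Real.log N / Real.log Y := by
      by_contra hcon
      push Not at hcon
      have h1 : Real.log N / Real.log Y = 0 := by
        apply le_antisymm hcon
        have : 0 ≤ Real.log N := Real.log_natCast_nonneg N
        positivity
      rw [hℓdef, h1, Real.log_zero] at hℓ
      linarith
    have hN1 : 1 ≤ N := by
      rcases Nat.eq_zero_or_pos N with h0 | h0
      · rw [h0] at hratio; simp at hratio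
      · exact h0
    have hNL : Real.log N = Real.log Y * Real.exp ℓ := by
      rw [hℓdef, Real.exp_log hratio]; field_simp
    have hQ : ⌊M * ℓ⌋₊ = ⌊2 * ℓ / (2 / M)⌋₊ := by
      congr 1; field_simp
    have h1 := hm (Real.log Y) ((Real.le_log_iff_exp_le hY0).2 hYl) ℓ hℓ N ⌊M * ℓ⌋₊ hN1 hNL hQ
    rw [Real.exp_log hY0] at h1
    have h2 : ∀ n ∈ Icc 1 N, tr ⌊M * ℓ⌋₊ (HT (Pq q a (Rr r)) Y (n : ℤ)).encard
        = tr ⌊M * ℓ⌋₊ (PrimeTimes q a r Y n).encard := by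
      intro n _
      rw [PrimeTimes_eq (by linarith), HC_HT hE.odd (by linarith)]
    rw [sum_congr rfl h2] at h1
    refine h1.trans ?_
    have h3 : 0 ≤ N * ℓ := by have : 0 < ℓ := by linarith
                              positivity
    apply mul_le_mul_of_nonneg_right _ h3
    rw [← mul_div_assoc]
    apply div_le_div_of_nonneg_right _ (by linarith)
    linarith

end Pool.Agent.H998_PL
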