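import Pool.Agent.H998_PL.Last

/-! Primes on trajectories, part 23: a positive proportion of trajectories. -/

set_option autoImplicit false

namespace Pool.Agent.H998_PL

open Finset Filter Topology
open Pool.Agent.H998_BC (C)

theorem le_floor_of_tr {Q : ℕ} {v : ℕ∞} {x : ℝ} (h : tr Q v ≤ x) (hx : x < Q) : v ≤ (⌊x⌋₊ : ℕ∞) := by
  induction v using ENat.recTopCoe with
  | top => rw [tr_top] at h; linarith
  | coe v =>
    rw [tr_coe] at h
    have h1 : (v : ℝ) ≤ x := by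
      rcases min_le_iff.1 h with h1 | h1
      · exact h1
      · linarith
    exact_mod_cast Nat.le_floor h1

/-- `log log N` in terms of `ℓ` -/
theorem ell_eq {N : ℕ} {Y : ℝ} (hY : 4 ≤ Y) (hN : 1 < Real.log N) :
    Real.log (Real.log N / Real.log Y) = Real.log (Real.log N) - Real.log (Real.log Y) ∧
      0 ≤ Real.log (Real.log Y) := by
  have h1 : 1 ≤ Real.log Y := by
    have h2 : Real.log 4 ≤ Real.log Y := Real.log_le_log (by norm_num) hY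
    have h3 : Real.log 4 = 2 * Real.log 2 := by
      rw [show (4 : ℝ) = 2 ^ 2 by norm_num, Real.log_pow]; norm_num
    have := Real.log_two_gt_d9
    linarith
  exact ⟨Real.log_div (by linarith) (by linarith), Real.log_nonneg h1⟩

theorem loglog_ev (b : ℝ) : ∃ N₀ : ℕ, ∀ N : ℕ, N₀ ≤ N → 1 < Real.log N ∧ b ≤ Real.log (Real.log N) := by
  have h1 : Tendsto (fun N : ℕ => Real.log (N : ℝ)) atTop atTop :=
    Real.tendsto_log_atTop.comp tendsto_natCast_atTop_atTop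
  have h2 : Tendsto (fun N : ℕ => Real.log (Real.log (N : ℝ))) atTop atTop :=
    Real.tendsto_log_atTop.comp h1
  exact eventually_atTop.1 ((h1.eventually_gt_atTop 1).and (h2.eventually_ge_atTop b))

open scoped Classical in
theorem markov_lo {N : ℕ} {t : ℕ → ℝ} {b T S : ℝ} (ht : ∀ n ∈ Icc 1 N, t n ≤ T) (hb : 0 ≤ b)
    (hS : S ≤ ∑ n ∈ Icc 1 N, t n) :
    S - N * b ≤ T * (((Icc 1 N).filter (fun n => b < t n)).card : ℝ) := by
  have h1 : ∑ n ∈ Icc 1 N, t n ≤ ∑ n ∈ Icc 1 N, (b + (if b < t n then T else 0)) := by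
    apply sum_le_sum
    intro n hn
    split_ifs with h
    · have := ht n hn; linarith
    · push Not at h; linarith
  rw [sum_add_distrib, sum_const, nsmul_eq_mul, Nat.card_Icc, Nat.add_sub_cancel, ← sum_filter, sum_const,
    nsmul_eq_mul] at h1
  linarith

open scoped Classical in
theorem markov_up {N : ℕ} {t : ℕ → ℝ} {b S : ℝ} (ht : ∀ n ∈ Icc 1 N, 0 ≤ t n)
    (hS : ∑ n ∈ Icc 1 N, t n ≤ S) :
    b * (((Icc 1 N).filter (fun n => ¬ t n ≤ b)).card : ℝ) ≤ S := by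
  refine le_trans ?_ hS
  calc b * (((Icc 1 N).filter (fun n => ¬ t n ≤ b)).card : ℝ)
      = ∑ n ∈ (Icc 1 N).filter (fun n => ¬ t n ≤ b), b := by rw [sum_const, nsmul_eq_mul]; ring
    _ ≤ ∑ n ∈ (Icc 1 N).filter (fun n => ¬ t n ≤ b), t n := by
        apply sum_le_sum
        intro n hn
        exact (not_le.1 (mem_filter.1 hn).2).le
    _ ≤ ∑ n ∈ Icc 1 N, t n :=
        sum_le_sum_of_subset_of_nonneg (filter_subset _ _) fun n hn _ => ht n hn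

/-- a repeated term -/
theorem cycle_ge {n k k' : ℕ} {Y : ℝ} (hkk : k < k') (he : C^[k] n = C^[k'] n)
    (h : ∀ j ≤ k', Y ≤ ((C^[j] n : ℕ) : ℝ)) : ∀ j : ℕ, Y ≤ ((C^[j] n : ℕ) : ℝ) := by
  intro j
  induction j using Nat.strong_induction_on with
  | _ j ih =>
    rcases le_or_gt j k' with hj | hj
    · exact h j hj
    · have h1 : C^[j] n = C^[j - k' + k] n := by
        have e1 : j = (j - k') + k' := by omega
        conv_lhs => rw [e1]
        rw [Function.iterate_add_apply, ← he, ← Function.iterate_add_apply]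
      rw [h1]
      exact ih _ (by omega)

theorem distinct {q a r n m : ℕ} {Y : ℝ} (hm : (m : ℕ∞) ≤ (PrimeTimes q a r Y n).encard)
    (hlow : ∃ k, ((C^[k] n : ℕ) : ℝ) < Y) : ∃ s : Finset ℕ, s.card = m ∧ ∀ p ∈ s, p.Prime ∧
      Y ≤ (p : ℝ) ∧ p % q = a % q ∧ (r = 0 ∨ p % 3 = r) ∧ ∃ k, C^[k] n = p := by
  obtain ⟨t, ht, htc⟩ := Set.exists_subset_encard_eq hm
  have hf : t.Finite := Set.finite_of_encard_eq_coe htc
  have hinj : Set.InjOn (fun k => C^[k] n) t := by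
    have key : ∀ k ∈ t, ∀ k' ∈ t, k < k' → C^[k] n = C^[k'] n → False := by
      intro k _ k' hk' hkk he
      obtain ⟨i, hi⟩ := hlow
      have := cycle_ge hkk he (ht hk').2.2.2 i
      linarith
    intro k hk k' hk' he
    rcases lt_trichotomy k k' with h | h | h
    · exact (key k hk k' hk' h he).elim
    · exact h
    · exact (key k' hk' k hk h he.symm).elim
  refine ⟨hf.toFinset.image (fun k => C^[k] n), ?_, ?_⟩
  · rw [card_image_of_injOn (by rwa [hf.coe_toFinset])]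
    rw [hf.encard_eq_coe_toFinset_card] at htc
    exact_mod_cast htc
  · intro p hp
    rw [mem_image] at hp
    obtain ⟨k, hk, rfl⟩ := hp
    obtain ⟨h1, h2, h3, h4⟩ := ht (hf.mem_toFinset.1 hk)
    exact ⟨h1, h4 k le_rfl, h2, h3, k, rfl⟩

theorem stay_count : ∃ B : ℝ, 0 < B ∧ ∀ (Y : ℝ) (N : ℕ), 4 ≤ Y → 1 ≤ N →
    (Set.ncard {n : ℕ | 1 ≤ n ∧ n ≤ N ∧ ∀ k, Y ≤ ((C^[k] n : ℕ) : ℝ)} : ℝ) ≤ B * N / Real.log (Y / 2) := by
  obtain ⟨B, hB, h⟩ := Pool.Agent.H499R2.ND.collatz_bound 1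
  refine ⟨B, hB, ?_⟩
  intro Y N hY hN
  have hNR : (1 : ℝ) ≤ N := by exact_mod_cast hN
  have h1 := h N (Y / 2) hNR (by linarith)
  rw [pow_one] at h1
  refine le_trans ?_ h1
  have hfin : {n : ℕ | 1 ≤ n ∧ (n : ℝ) ≤ N ∧ ∀ k : ℕ,
      Y / 2 < ((Pool.Agent.H499R2.ND.Cz^[k] n : ℕ) : ℝ)}.Finite :=
    (Set.finite_Icc 1 N).subset fun n hn => ⟨hn.1, by exact_mod_cast hn.2.1⟩
  have h2 := Set.ncard_le_ncard (s := {n : ℕ | 1 ≤ n ∧ n ≤ N ∧ ∀ k, Y ≤ ((C^[k] n : ℕ) : ℝ)}) (by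
    intro n hn
    refine ⟨hn.1, by exact_mod_cast hn.2.1, fun k => ?_⟩
    have h3 : Y ≤ ((C^[k] n : ℕ) : ℝ) := hn.2.2 k
    have h4 : ((Pool.Agent.H499R2.ND.Cz^[k] n : ℕ) : ℝ) = ((C^[k] n : ℕ) : ℝ) := rfl
    rw [h4]
    linarith) hfin
  exact_mod_cast h2

/-- POSITIVE PROPORTION, MANY PRIMES -/
theorem many_primes {q a r : ℕ} (hq : 1 ≤ q) (ha : a.Coprime q) (hq3 : ¬ 3 ∣ q) (hr : r ≤ 2) {ε : ℝ}
    (hε : 0 < ε) : ∃ c : ℝ, 0 < c ∧ ∀ Y : ℝ, ∃ N₀ : ℕ, ∀ N : ℕ, N₀ ≤ N →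
      c * N ≤ (Set.ncard {n : ℕ | 1 ≤ n ∧ n ≤ N ∧ ∃ s : Finset ℕ,
        (kappa q r - ε) * Real.log (Real.log N) ≤ s.card ∧ ∀ p ∈ s, p.Prime ∧ Y ≤ (p : ℝ) ∧
          p % q = a % q ∧ (r = 0 ∨ p % 3 = r) ∧ ∃ k, C^[k] n = p} : ℝ) := by
  classical
  obtain ⟨hκ, hκ1, C₃, hC₃, hmean⟩ := mean_PT hq ha hq3 hr
  obtain ⟨M, hM⟩ : ∃ M : ℝ, M = 1 + 4 * C₃ / ε + ε := ⟨_, rfl⟩
  have hM1 : 1 ≤ M := by rw [hM]; have : 0 < 4 * C₃ / ε := by positivity
                         linarith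
  have hM0 : 0 < M := by linarith
  have hM2 : C₃ / M ≤ ε / 4 := by
    rw [div_le_iff₀ hM0, hM]
    have : ε / 4 * (1 + 4 * C₃ / ε + ε) = ε / 4 + C₃ + ε ^ 2 / 4 := by field_simp
    rw [this]
    have : 0 < ε ^ 2 := by positivity
    linarith
  obtain ⟨Y₀, ℓ₀, hY₀, hℓ₀, hmean⟩ := hmean M hM1
  obtain ⟨B, hB, hstay⟩ := stay_count
  obtain ⟨c, hc⟩ : ∃ c : ℝ, c = ε / (4 * M) := ⟨_, rfl⟩
  have hc0 : 0 < c := by rw [hc]; positivity
  have hc1 : c ≤ 1 := by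
    rw [hc, div_le_one (by positivity), hM]
    have : 0 < 4 * C₃ / ε := by positivity
    linarith
  refine ⟨c / 2, by positivity, ?_⟩
  intro Y₁
  obtain ⟨Y, hY⟩ : ∃ Y : ℝ, Y = max (max Y₁ Y₀) (2 * Real.exp (2 * B / c)) := ⟨_, rfl⟩
  have hYa : Y₁ ≤ Y := by rw [hY]; exact (le_max_left _ _).trans (le_max_left _ _)
  have hYb : Y₀ ≤ Y := by rw [hY]; exact (le_max_right _ _).trans (le_max_left _ _)
  have hYc : 2 * Real.exp (2 * B / c) ≤ Y := by rw [hY]; exact le_max_right _ _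
  have hY4 : 4 ≤ Y := hY₀.trans hYb
  have hlY : 2 * B / c ≤ Real.log (Y / 2) := by
    rw [Real.le_log_iff_exp_le (by linarith)]
    linarith
  obtain ⟨N₀, hN₀⟩ := loglog_ev (max (ℓ₀ + Real.log (Real.log Y)) (2 * kappa q r / ε * Real.log (Real.log Y)))
  refine ⟨N₀ + 1, fun N hN => ?_⟩
  obtain ⟨hN1, hN2⟩ := hN₀ N (by omega)
  obtain ⟨hN2, hN3⟩ := max_le_iff.1 hN2
  obtain ⟨hell, hllY⟩ := ell_eq hY4 hN1
  have hNR : (0 : ℝ) < N := by
    have : 0 < N := by omega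
    exact_mod_cast this
  have hm := hmean Y N hYb (by rw [hell]; linarith)
  set ℓ := Real.log (Real.log N / Real.log Y) with hℓdef
  have hℓ1 : ℓ₀ ≤ ℓ := by rw [hell]; linarith
  have hℓ0 : 0 < ℓ := by linarith
  have hbl : (kappa q r - ε) * Real.log (Real.log N) ≤ (kappa q r - ε / 2) * ℓ := by
    rw [hell]
    have e1 : 2 * kappa q r / ε * Real.log (Real.log Y) * (ε / 2) = kappa q r * Real.log (Real.log Y) := by
      field_simp
    have e2 := mul_le_mul_of_nonneg_right hN3 (show 0 ≤ ε / 2 by positivity)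
    rw [e1] at e2
    have e3 : 0 ≤ ε / 2 * Real.log (Real.log Y) := by positivity
    linarith
  set t : ℕ → ℝ := fun n => tr ⌊M * ℓ⌋₊ (PrimeTimes q a r Y n).encard with ht
  have hS : (kappa q r - ε / 4) * (N * ℓ) ≤ ∑ n ∈ Icc 1 N, t n := by
    have e1 := (abs_le.1 hm).1
    have e2 : C₃ / M * (N * ℓ) ≤ ε / 4 * (N * ℓ) := mul_le_mul_of_nonneg_right hM2 (by positivity)
    linarith
  have hT : ∀ n ∈ Icc 1 N, t n ≤ M * ℓ := fun n _ => (tr_le _ _).trans (Nat.floor_le (by positivity))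
  -- many
  have hA : c * N ≤ (((Icc 1 N).filter (fun n => (kappa q r - ε / 2) * ℓ < t n)).card : ℝ) := by
    rcases lt_or_ge ((kappa q r - ε / 2) * ℓ) 0 with hneg | hpos
    · have e1 : (Icc 1 N).filter (fun n => (kappa q r - ε / 2) * ℓ < t n) = Icc 1 N := by
        apply filter_true_of_mem
        intro n _
        exact hneg.trans_le (tr_nonneg _ _)
      rw [e1, Nat.card_Icc, Nat.add_sub_cancel]
      have := mul_le_mul_of_nonneg_right hc1 hNR.le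
      linarith
    · have e1 := markov_lo hT hpos hS
      have e2 : (kappa q r - ε / 4) * (N * ℓ) - N * ((kappa q r - ε / 2) * ℓ) = (ε / 4) * (N * ℓ) := by ring
      rw [e2] at e1
      have e3 : c * N = ε / 4 * (N * ℓ) / (M * ℓ) := by rw [hc]; field_simp
      rw [e3, div_le_iff₀ (by positivity)]
      linarith
  -- few stay high
  set E := {n : ℕ | 1 ≤ n ∧ n ≤ N ∧ ∀ k, Y ≤ ((C^[k] n : ℕ) : ℝ)} with hE
  have hEc : (Set.ncard E : ℝ) ≤ c / 2 * N := by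
    have e0 : 0 < 2 * B / c := by positivity
    refine (hstay Y N hY4 (by omega)).trans ?_
    rw [div_le_iff₀ (by linarith)]
    rw [div_le_iff₀ hc0] at hlY
    have : B * N ≤ (Real.log (Y / 2) * c / 2) * N := mul_le_mul_of_nonneg_right (by linarith) hNR.le
    linarith
  have hEfin : E.Finite := (Set.finite_Icc 1 N).subset fun n hn => ⟨hn.1, hn.2.1⟩
  set G := {n : ℕ | 1 ≤ n ∧ n ≤ N ∧ ∃ s : Finset ℕ,
        (kappa q r - ε) * Real.log (Real.log N) ≤ s.card ∧ ∀ p ∈ s, p.Prime ∧ Y₁ ≤ (p : ℝ) ∧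
          p % q = a % q ∧ (r = 0 ∨ p % 3 = r) ∧ ∃ k, C^[k] n = p} with hG
  have hGfin : G.Finite := (Set.finite_Icc 1 N).subset fun n hn => ⟨hn.1, hn.2.1⟩
  have hsub : (((Icc 1 N).filter (fun n => (kappa q r - ε / 2) * ℓ < t n) : Finset ℕ) : Set ℕ) ⊆ G ∪ E := by
    intro n hn
    rw [mem_coe, mem_filter, Finset.mem_Icc] at hn
    obtain ⟨⟨hn1, hn2⟩, hn3⟩ := hn
    by_cases h1 : ∀ k, Y ≤ ((C^[k] n : ℕ) : ℝ)
    · exact Or.inr ⟨hn1, hn2, h1⟩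
    · left
      push Not at h1
      obtain ⟨m, hm1, hm2⟩ := le_of_tr hn3
      obtain ⟨s, hs1, hs2⟩ := distinct hm2 h1
      refine ⟨hn1, hn2, s, ?_, ?_⟩
      · rw [hs1]; linarith
      · intro p hp
        obtain ⟨e1, e2, e3⟩ := hs2 p hp
        exact ⟨e1, hYa.trans e2, e3⟩
  have h1 := Set.ncard_le_ncard hsub (hGfin.union hEfin)
  rw [Set.ncard_coe_finset] at h1
  have h2 := Set.ncard_union_le G E
  have h3 : (((Icc 1 N).filter (fun n => (kappa q r - ε / 2) * ℓ < t n)).card : ℝ)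
      ≤ (Set.ncard G : ℝ) + (Set.ncard E : ℝ) := by exact_mod_cast h1.trans h2
  linarith

/-- POSITIVE PROPORTION, FEW PRIMES -/
theorem few_primes {q a r : ℕ} (hq : 1 ≤ q) (ha : a.Coprime q) (hq3 : ¬ 3 ∣ q) (hr : r ≤ 2) {ε : ℝ}
    (hε : 0 < ε) : ∃ c Y₀ : ℝ, 0 < c ∧ ∀ Y : ℝ, Y₀ ≤ Y → ∃ N₀ : ℕ, ∀ N : ℕ, N₀ ≤ N →
      c * N ≤ (Set.ncard {n : ℕ | 1 ≤ n ∧ n ≤ N ∧ (PrimeTimes q a r Y n).encard
        ≤ (⌊(kappa q r + ε) * Real.log (Real.log N)⌋₊ : ℕ∞)} : ℝ) := by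
  classical
  obtain ⟨hκ, hκ1, C₃, hC₃, hmean⟩ := mean_PT hq ha hq3 hr
  obtain ⟨ε', hε'⟩ : ∃ ε' : ℝ, ε' = min ε 1 := ⟨_, rfl⟩
  have hε'0 : 0 < ε' := by rw [hε']; positivity
  have hε'1 : ε' ≤ 1 := by rw [hε']; exact min_le_right _ _
  have hε'2 : ε' ≤ ε := by rw [hε']; exact min_le_left _ _
  obtain ⟨M, hM⟩ : ∃ M : ℝ, M = 100 + 2 * C₃ / ε' := ⟨_, rfl⟩
  have hCε : 0 < 2 * C₃ / ε' := by positivity
  have hM1 : 100 ≤ M := by rw [hM]; linarith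
  have hM0 : 0 < M := by linarith
  have hM2 : C₃ / M ≤ ε' / 2 := by
    rw [div_le_iff₀ hM0, hM]
    have : ε' / 2 * (100 + 2 * C₃ / ε') = 50 * ε' + C₃ := by field_simp; ring
    rw [this]; linarith
  obtain ⟨Y₀, ℓ₀, hY₀, hℓ₀, hmean⟩ := hmean M (by linarith)
  refine ⟨ε' / 26, Y₀, by positivity, ?_⟩
  intro Y hY
  have hY4 : 4 ≤ Y := hY₀.trans hY
  obtain ⟨N₀, hN₀⟩ := loglog_ev (ℓ₀ + Real.log (Real.log Y))
  refine ⟨N₀ + 1, fun N hN => ?_⟩
  obtain ⟨hN1, hN2⟩ := hN₀ N (by omega)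
  obtain ⟨hell, hllY⟩ := ell_eq hY4 hN1
  have hNR : (0 : ℝ) < N := by
    have : 0 < N := by omega
    exact_mod_cast this
  have hm := hmean Y N hY (by rw [hell]; linarith)
  set ℓ := Real.log (Real.log N / Real.log Y) with hℓdef
  have hℓ1 : ℓ₀ ≤ ℓ := by rw [hell]; linarith
  have hℓ0 : 0 < ℓ := by linarith
  set t : ℕ → ℝ := fun n => tr ⌊M * ℓ⌋₊ (PrimeTimes q a r Y n).encard with ht
  have hS : ∑ n ∈ Icc 1 N, t n ≤ (kappa q r + ε' / 2) * (N * ℓ) := by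
    have e1 := (abs_le.1 hm).2
    have e2 : C₃ / M * (N * ℓ) ≤ ε' / 2 * (N * ℓ) := mul_le_mul_of_nonneg_right hM2 (by positivity)
    linarith
  have h1 := markov_up (b := (kappa q r + ε') * ℓ) (fun n _ => tr_nonneg _ _) hS
  have h2 : (((Icc 1 N).filter (fun n => t n ≤ (kappa q r + ε') * ℓ)).card : ℝ)
      + (((Icc 1 N).filter (fun n => ¬ t n ≤ (kappa q r + ε') * ℓ)).card : ℝ) = N := by
    have := card_filter_add_card_filter_not (s := Icc 1 N) (fun n => t n ≤ (kappa q r + ε') * ℓ)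
    rw [Nat.card_Icc, Nat.add_sub_cancel] at this
    exact_mod_cast this
  have h3 : ε' / 26 * N ≤ (((Icc 1 N).filter (fun n => t n ≤ (kappa q r + ε') * ℓ)).card : ℝ) := by
    set b₁ : ℝ := (((Icc 1 N).filter (fun n => ¬ t n ≤ (kappa q r + ε') * ℓ)).card : ℝ) with hb₁
    have e1 : (kappa q r + ε') * b₁ ≤ (kappa q r + ε' / 2) * N := by
      have : (kappa q r + ε') * b₁ * ℓ ≤ (kappa q r + ε' / 2) * N * ℓ := by linarith
      exact le_of_mul_le_mul_right this hℓ0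
    have hb0 : 0 ≤ b₁ := Nat.cast_nonneg _
    have hbN : b₁ ≤ N := by
      have : (0 : ℝ) ≤ (((Icc 1 N).filter (fun n => t n ≤ (kappa q r + ε') * ℓ)).card : ℝ) :=
        Nat.cast_nonneg _
      linarith
    have e2 : ε' / 2 * N ≤ (kappa q r + ε') * (N - b₁) := by linarith
    have e3 : (kappa q r + ε') * (N - b₁) ≤ 13 * (N - b₁) :=
      mul_le_mul_of_nonneg_right (by linarith) (by linarith)
    linarith
  refine h3.trans ?_
  have hfin : {n : ℕ | 1 ≤ n ∧ n ≤ N ∧ (PrimeTimes q a r Y n).encard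
        ≤ (⌊(kappa q r + ε) * Real.log (Real.log N)⌋₊ : ℕ∞)}.Finite :=
    (Set.finite_Icc 1 N).subset fun n hn => ⟨hn.1, hn.2.1⟩
  have h4 := Set.ncard_le_ncard (s := (((Icc 1 N).filter
      (fun n => t n ≤ (kappa q r + ε') * ℓ) : Finset ℕ) : Set ℕ)) (by
    intro n hn
    rw [mem_coe, mem_filter, Finset.mem_Icc] at hn
    obtain ⟨⟨hn1, hn2⟩, hn3⟩ := hn
    refine ⟨hn1, hn2, ?_⟩
    have e1 : (kappa q r + ε') * ℓ ≤ 13 * ℓ := mul_le_mul_of_nonneg_right (by linarith) hℓ0.le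
    have e2 : M * ℓ < (⌊M * ℓ⌋₊ : ℝ) + 1 := Nat.lt_floor_add_one _
    have e3 : 100 * ℓ ≤ M * ℓ := mul_le_mul_of_nonneg_right hM1 hℓ0.le
    refine (le_floor_of_tr hn3 (by linarith)).trans ?_
    have e4 : ⌊(kappa q r + ε') * ℓ⌋₊ ≤ ⌊(kappa q r + ε) * Real.log (Real.log N)⌋₊ := by
      apply Nat.floor_le_floor
      have e5 : ℓ ≤ Real.log (Real.log N) := by rw [hell]; linarith
      exact mul_le_mul (by linarith) e5 hℓ0.le (by linarith)
    exact_mod_cast e4) hfin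
  rw [Set.ncard_coe_finset] at h4
  exact_mod_cast h4

end Pool.Agent.H998_PL
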