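import Pool.Agent.H998_PL.Cnt2

/-! Primes on trajectories, part 5: the mass of the typical words. -/

set_option autoImplicit false

namespace Pool.Agent.H998_PL

open Finset
open Pool.Agent.H320R2.PD Pool.Agent.H499R2.ND

noncomputable def Tlo (η : ℝ) (k : ℕ) : ℕ := ⌈(2 - η) * k⌉₊

noncomputable def Thi (η : ℝ) (k : ℕ) : ℕ := ⌊(2 + η) * k⌋₊

theorem mem_typ {η : ℝ} (hη0 : 0 < η) {k s : ℕ} (h : |(s : ℝ) - 2 * k| < η * k) :
    Tlo η k ≤ s ∧ s ≤ Thi η k := by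
  rw [abs_lt] at h
  have hk : (0 : ℝ) ≤ k := Nat.cast_nonneg k
  constructor
  · unfold Tlo
    rw [Nat.ceil_le]
    linarith [h.1]
  · unfold Thi
    rw [Nat.le_floor_iff (by positivity)]
    linarith [h.2]

theorem atyp_mass (cap k : ℕ) {η : ℝ} (hη : 0 < η) (hη1 : η ≤ 1) :
    ∑ w ∈ (FW cap k).filter (fun w => ¬ (Tlo η k ≤ w.sum ∧ w.sum ≤ Thi η k)), wwt w
      ≤ 2 * Real.exp (-(η ^ 2 * k / 32)) := by
  refine le_trans ?_ (tail cap k hη hη1)
  apply sum_le_sum_of_subset_of_nonneg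
  · intro w hw
    rw [mem_filter] at hw ⊢
    refine ⟨hw.1, ?_⟩
    by_contra hcon
    push Not at hcon
    exact hw.2 (mem_typ hη hcon)
  · intro w _ _; unfold wwt; positivity

theorem cap_small {cap k : ℕ} (hk : 1 ≤ k) (hcap : 6 * k ≤ cap) {η : ℝ} (hη : 0 < η) (hη1 : η ≤ 1) :
    ((k : ℝ) + 1) * (1 / 2) ^ cap ≤ Real.exp (-(η ^ 2 * k / 32)) := by
  have h1 : (1 / 2 : ℝ) ^ cap ≤ (1 / 2) ^ (6 * k) :=
    pow_le_pow_of_le_one (by norm_num) (by norm_num) hcap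
  have h2 : (k : ℝ) + 1 ≤ 2 ^ k := by exact_mod_cast Nat.lt_two_pow_self
  have h3 : ((k : ℝ) + 1) * (1 / 2) ^ cap ≤ 2 ^ k * (1 / 2) ^ (6 * k) :=
    mul_le_mul h2 h1 (by positivity) (by positivity)
  have h4 : (2 : ℝ) ^ k * (1 / 2) ^ (6 * k) = (1 / 32) ^ k := by
    rw [pow_mul, ← mul_pow]; norm_num
  have h5 : (1 / 32 : ℝ) ≤ Real.exp (-(η ^ 2 / 32)) := by
    have := Real.add_one_le_exp (-(η ^ 2 / 32))
    have : η ^ 2 ≤ 1 := pow_le_one₀ hη.le hη1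
    linarith
  have h6 : (1 / 32 : ℝ) ^ k ≤ Real.exp (-(η ^ 2 / 32)) ^ k := pow_le_pow_left₀ (by norm_num) h5 k
  rw [← Real.exp_nat_mul] at h6
  rw [show -(η ^ 2 * k / 32) = (k : ℝ) * -(η ^ 2 / 32) by ring]
  linarith [h3, h4 ▸ h6]

theorem mass_typ {cap k : ℕ} (hk : 1 ≤ k) (hcap : 6 * k ≤ cap) {η : ℝ} (hη : 0 < η) (hη1 : η ≤ 1) :
    1 - ∑ w ∈ GW cap k (Tlo η k) (Thi η k), wwt w ≤ 3 * Real.exp (-(η ^ 2 * k / 32)) := by
  have h1 := atyp_mass cap k hη hη1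
  have h2 : ∑ w ∈ FW cap k, wwt w = ∑ w ∈ GW cap k (Tlo η k) (Thi η k), wwt w
      + ∑ w ∈ (FW cap k).filter (fun w => ¬ (Tlo η k ≤ w.sum ∧ w.sum ≤ Thi η k)), wwt w := by
    unfold GW
    rw [sum_filter_add_sum_filter_not]
  have h3 : 1 - (k : ℝ) * (1 / 2) ^ cap ≤ ∑ w ∈ FW cap k, wwt w := by
    rw [sum_wwt]
    have := one_add_mul_le_pow (a := -(1 / 2 : ℝ) ^ cap) (by
      have : (1 / 2 : ℝ) ^ cap ≤ 1 := pow_le_one₀ (by norm_num) (by norm_num)
      linarith) k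
    rw [← sub_eq_add_neg] at this
    linarith
  have h4 := cap_small hk hcap hη hη1
  have h5 : 0 ≤ (1 / 2 : ℝ) ^ cap := by positivity
  linarith

open scoped Classical in
/-- the mass of the residues `R` -/
noncomputable def sig (R : Set ℤ) : ℝ := (if (1 : ℤ) ∈ R then 1 / 3 else 0) + (if (2 : ℤ) ∈ R then 2 / 3 else 0)

theorem sig_nonneg (R : Set ℤ) : 0 ≤ sig R := by
  unfold sig; split_ifs <;> norm_num

theorem sig_le (R : Set ℤ) : sig R ≤ 1 := by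
  unfold sig; split_ifs <;> norm_num

open scoped Classical in
theorem letters (R : Set ℤ) (h : ℕ) :
    ∑ e ∈ (Icc 1 (2 * h)).filter (fun e => ((2 : ℤ) ^ e) % 3 ∈ R), (1 / 2 : ℝ) ^ e
      = sig R * (1 - (1 / 4) ^ h) := by
  have h4 : ∀ n : ℕ, ((2 : ℤ) ^ (2 * n)) % 3 = 1 := by
    intro n
    have := four_pow_mod n 1
    rw [mul_one, ← pow_add, ← two_mul] at this
    simpa using this
  induction h with
  | zero => simp
  | succ n ih =>
    rw [sum_filter] at ih ⊢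
    rw [show 2 * (n + 1) = 2 * n + 1 + 1 by ring, sum_Icc_succ_top (by omega),
      sum_Icc_succ_top (by omega), ih]
    have e1 : ((2 : ℤ) ^ (2 * n + 1)) % 3 = 2 := by
      rw [pow_succ, Int.mul_emod, h4]; norm_num
    have e2 : ((2 : ℤ) ^ (2 * n + 1 + 1)) % 3 = 1 := by
      rw [show 2 * n + 1 + 1 = 2 * (n + 1) by ring]; exact h4 (n + 1)
    rw [e1, e2]
    have e3 : (1 / 2 : ℝ) ^ (2 * n + 1) = (1 / 4) ^ n * (1 / 2) := by
      rw [pow_succ, pow_mul]; norm_num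
    have e4 : (1 / 2 : ℝ) ^ (2 * n + 1 + 1) = (1 / 4) ^ n * (1 / 4) := by
      rw [pow_succ, pow_succ, pow_mul]; norm_num; ring
    rw [e3, e4]
    unfold sig
    rw [pow_succ]
    split_ifs <;> ring

open scoped Classical in
/-- the mass of all words of length `k` whose endpoint has residue in `R` -/
theorem massR_all (R : Set ℤ) (h k : ℕ) :
    ∑ w ∈ (FW (2 * h) (k + 1)).filter (fun w => (2 ^ w.sum * (Wo w : ℤ)) % 3 ∈ R), wwt w
      = sig R * (1 - (1 / 4) ^ h) * (1 - (1 / 2) ^ (2 * h)) ^ k := by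
  rw [sum_filter, FW]
  rw [sum_biUnion]
  · rw [← letters R h, sum_filter, sum_mul]
    apply sum_congr rfl
    intro e _
    rw [sum_image (fun a _ b _ hab => (List.cons.inj hab).2)]
    have key : ∀ w : List ℕ, (2 ^ (List.cons e w).sum * (Wo (List.cons e w) : ℤ)) % 3 = ((2 : ℤ) ^ e) % 3 := by
      intro w
      have e1 : (Wo (List.cons e w) : ℤ) = 2 ^ w.sum + 3 * Wo w := by
        show ((2 ^ w.sum + 3 * Wo w : ℕ) : ℤ) = _
        push_cast; ring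
      rw [e1, List.sum_cons]
      have e2 : (2 : ℤ) ^ (e + w.sum) * (2 ^ w.sum + 3 * (Wo w : ℤ))
          = 2 ^ w.sum * (2 ^ w.sum * 2 ^ e) + 3 * (2 ^ (e + w.sum) * Wo w) := by
        rw [pow_add]; ring
      rw [e2, Int.add_mul_emod_self_left]
      exact four_pow_mod _ _
    simp only [key]
    by_cases hR : ((2 : ℤ) ^ e) % 3 ∈ R
    · simp only [if_pos hR]
      rw [← sum_wwt, mul_sum]
      apply sum_congr rfl
      intro w _
      unfold wwt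
      rw [List.sum_cons, pow_add]
    · simp only [if_neg hR]
      simp
  · intro a _ b _ hab
    rw [Function.onFun, disjoint_left]
    intro w hw hw'
    rw [mem_image] at hw hw'
    obtain ⟨u, _, rfl⟩ := hw
    obtain ⟨u', _, h2⟩ := hw'
    exact hab (List.cons.inj h2).1.symm

theorem massR_le (R : Set ℤ) (h k Tl Tm : ℕ) (hk : 1 ≤ k) :
    ∑ T ∈ Icc Tl Tm, massR R (2 * h) k T ≤ sig R := by
  classical
  obtain ⟨k', rfl⟩ : ∃ k', k = k' + 1 := ⟨k - 1, by omega⟩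
  have h1 : ∑ T ∈ Icc Tl Tm, massR R (2 * h) (k' + 1) T
      = ∑ w ∈ GW (2 * h) (k' + 1) Tl Tm, (if (2 ^ w.sum * (Wo w : ℤ)) % 3 ∈ R then wwt w else 0) := by
    rw [sum_GW]
    apply sum_congr rfl
    intro T _
    unfold massR
    rw [sum_filter]
    apply sum_congr rfl
    intro w hw
    unfold FWT at hw
    rw [(mem_filter.1 hw).2]
  rw [h1]
  calc _ ≤ ∑ w ∈ FW (2 * h) (k' + 1), (if (2 ^ w.sum * (Wo w : ℤ)) % 3 ∈ R then wwt w else 0) := by
        unfold GW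
        apply sum_le_sum_of_subset_of_nonneg (filter_subset _ _)
        intro w _ _
        split_ifs
        · unfold wwt; positivity
        · exact le_rfl
    _ = sig R * (1 - (1 / 4) ^ h) * (1 - (1 / 2) ^ (2 * h)) ^ k' := by
        rw [← sum_filter]; exact massR_all R h k'
    _ ≤ sig R * 1 * 1 := by
        have e1 : (0 : ℝ) ≤ 1 - (1 / 4) ^ h := by
          have : (1 / 4 : ℝ) ^ h ≤ 1 := pow_le_one₀ (by norm_num) (by norm_num)
          linarith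
        have e2 : (0 : ℝ) ≤ 1 - (1 / 2) ^ (2 * h) := by
          have : (1 / 2 : ℝ) ^ (2 * h) ≤ 1 := pow_le_one₀ (by norm_num) (by norm_num)
          linarith
        apply mul_le_mul _ (pow_le_one₀ e2 _) (pow_nonneg e2 _) _
        · apply mul_le_mul_of_nonneg_left _ (sig_nonneg R)
          have : (0 : ℝ) ≤ (1 / 4) ^ h := by positivity
          linarith
        · have : (0 : ℝ) ≤ (1 / 2) ^ (2 * h) := by positivity
          linarith
        · have := sig_nonneg R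
          linarith
    _ = _ := by ring

theorem massR_ge (R : Set ℤ) {h k : ℕ} (hk : 1 ≤ k) (hcap : 6 * k ≤ 2 * h) {η : ℝ} (hη : 0 < η)
    (hη1 : η ≤ 1) :
    sig R - 3 * Real.exp (-(η ^ 2 * k / 32)) ≤ ∑ T ∈ Icc (Tlo η k) (Thi η k), massR R (2 * h) k T := by
  classical
  obtain ⟨k', rfl⟩ : ∃ k', k = k' + 1 := ⟨k - 1, by omega⟩
  have h1 : ∑ T ∈ Icc (Tlo η (k' + 1)) (Thi η (k' + 1)), massR R (2 * h) (k' + 1) T
      = ∑ w ∈ GW (2 * h) (k' + 1) (Tlo η (k' + 1)) (Thi η (k' + 1)),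
        (if (2 ^ w.sum * (Wo w : ℤ)) % 3 ∈ R then wwt w else 0) := by
    rw [sum_GW]
    apply sum_congr rfl
    intro T _
    unfold massR
    rw [sum_filter]
    apply sum_congr rfl
    intro w hw
    unfold FWT at hw
    rw [(mem_filter.1 hw).2]
  rw [h1]
  have h2 : ∑ w ∈ FW (2 * h) (k' + 1), (if (2 ^ w.sum * (Wo w : ℤ)) % 3 ∈ R then wwt w else 0)
      ≤ ∑ w ∈ GW (2 * h) (k' + 1) (Tlo η (k' + 1)) (Thi η (k' + 1)),
          (if (2 ^ w.sum * (Wo w : ℤ)) % 3 ∈ R then wwt w else 0)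
        + ∑ w ∈ (FW (2 * h) (k' + 1)).filter
          (fun w => ¬ (Tlo η (k' + 1) ≤ w.sum ∧ w.sum ≤ Thi η (k' + 1))), wwt w := by
    rw [← sum_filter_add_sum_filter_not (FW (2 * h) (k' + 1))
      (fun w => Tlo η (k' + 1) ≤ w.sum ∧ w.sum ≤ Thi η (k' + 1))]
    unfold GW
    apply add_le_add_right
    apply sum_le_sum
    intro w _
    split_ifs
    · exact le_rfl
    · unfold wwt; positivity
  have h3 : ∑ w ∈ FW (2 * h) (k' + 1), (if (2 ^ w.sum * (Wo w : ℤ)) % 3 ∈ R then wwt w else 0)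
      = sig R * (1 - (1 / 4) ^ h) * (1 - (1 / 2) ^ (2 * h)) ^ k' := by
    rw [← sum_filter]; exact massR_all R h k'
  have h4 := atyp_mass (2 * h) (k' + 1) hη hη1
  have h5 := cap_small (cap := 2 * h) hk hcap hη hη1
  have e1 : (1 / 4 : ℝ) ^ h = (1 / 2) ^ (2 * h) := by rw [pow_mul]; norm_num
  have h6 : 1 - (((k' + 1 : ℕ) : ℝ) + 1) * (1 / 2) ^ (2 * h)
      ≤ (1 - (1 / 4) ^ h) * (1 - (1 / 2) ^ (2 * h)) ^ k' := by
    rw [e1, ← pow_succ']
    have := one_add_mul_le_pow (a := -(1 / 2 : ℝ) ^ (2 * h)) (by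
      have : (1 / 2 : ℝ) ^ (2 * h) ≤ 1 := pow_le_one₀ (by norm_num) (by norm_num)
      linarith) (k' + 1)
    rw [← sub_eq_add_neg] at this
    have h7 : 0 ≤ (1 / 2 : ℝ) ^ (2 * h) := by positivity
    linarith
  have h7 : sig R * (1 - (((k' + 1 : ℕ) : ℝ) + 1) * (1 / 2) ^ (2 * h))
      ≤ sig R * ((1 - (1 / 4) ^ h) * (1 - (1 / 2) ^ (2 * h)) ^ k') :=
    mul_le_mul_of_nonneg_left h6 (sig_nonneg R)
  have h8 : sig R * ((((k' + 1 : ℕ) : ℝ) + 1) * (1 / 2) ^ (2 * h)) ≤ 1 * Real.exp (-(η ^ 2 * (k' + 1 : ℕ) / 32)) :=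
    mul_le_mul (sig_le R) h5 (by positivity) (by norm_num)
  rw [mul_assoc] at h3
  linarith

end Pool.Agent.H998_PL
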