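import Pool.Agent.H998_PL.Top

/-! Primes on trajectories, part 19: the mean value. -/

set_option autoImplicit false

namespace Pool.Agent.H998_PL

open Finset

theorem log_one_add_ge {δ : ℝ} (hδ : 0 < δ) : δ / (1 + δ) ≤ Real.log (1 + δ) := by
  have h := Real.one_sub_inv_le_log_of_pos (show 0 < 1 + δ by linarith)
  refine le_trans (le_of_eq ?_) h
  field_simp
  ring

theorem log_one_add_le {δ : ℝ} (hδ : 0 < δ) : Real.log (1 + δ) ≤ δ := by
  have h := Real.log_le_sub_one_of_pos (show 0 < 1 + δ by linarith)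
  linarith

/-- the number of blocks -/
structure Num (δ L lam ℓ : ℝ) (I : ℕ) : Prop where
  hδ : 0 < δ
  hδ1 : δ ≤ 1 / 50
  hlam : 1 ≤ lam
  hL : L = lam * Real.exp ℓ
  hℓ : 1 ≤ ℓ
  lo : I * Real.log (1 + δ) ≤ ℓ
  hi : ℓ < (I + 1) * Real.log (1 + δ)

variable {δ L lam ℓ : ℝ} {I : ℕ}

theorem Num.lpos (h : Num δ L lam ℓ I) : 0 < Real.log (1 + δ) := Real.log_pos (by linarith [h.hδ])

theorem Num.pow_le (h : Num δ L lam ℓ I) : (1 + δ) ^ I ≤ Real.exp ℓ := by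
  have hδ := h.hδ
  rw [← Real.exp_log (show 0 < (1 + δ) ^ I by positivity), Real.log_pow]
  exact Real.exp_le_exp.2 h.lo

theorem Num.lt_pow (h : Num δ L lam ℓ I) : Real.exp ℓ < (1 + δ) ^ (1 + I) := by
  have hδ := h.hδ
  rw [← Real.exp_log (show 0 < (1 + δ) ^ (1 + I) by positivity), Real.log_pow]
  push_cast
  apply Real.exp_lt_exp.2
  have := h.hi
  linarith

theorem Num.L_ge (h : Num δ L lam ℓ I) : Real.exp ℓ ≤ L := by
  rw [h.hL]
  exact le_mul_of_one_le_left (Real.exp_pos _).le h.hlam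

theorem Num.ell_le (h : Num δ L lam ℓ I) : ℓ + 1 ≤ L := (Real.add_one_le_exp ℓ).trans h.L_ge

theorem Num.ls_ge (h : Num δ L lam ℓ I) {i : ℕ} (hi : i < I) :
    lam * (1 + δ) ^ (I - 1 - i) ≤ ls L δ (1 + i) := by
  have hδ := h.hδ
  unfold ls
  rw [le_div_iff₀ (by positivity), mul_assoc, ← pow_add, show I - 1 - i + (1 + i) = I by omega, h.hL]
  exact mul_le_mul_of_nonneg_left h.pow_le (by linarith [h.hlam])

theorem Num.ls_ge' (h : Num δ L lam ℓ I) {i : ℕ} (hi : i < I) : lam ≤ ls L δ (1 + i) := by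
  refine le_trans ?_ (h.ls_ge hi)
  exact le_mul_of_one_le_right (by linarith [h.hlam]) (one_le_pow₀ (by linarith [h.hδ]))

theorem Num.ls_last (h : Num δ L lam ℓ I) : ls L δ (1 + I) ≤ lam := by
  have hδ := h.hδ
  unfold ls
  rw [div_le_iff₀ (by positivity), h.hL]
  exact mul_le_mul_of_nonneg_left h.lt_pow.le (by linarith [h.hlam])

theorem Num.I_le (h : Num δ L lam ℓ I) : I * δ ≤ ℓ * (1 + δ) := by
  have hδ := h.hδ
  have h1 := log_one_add_ge hδ
  have h2 : (I : ℝ) * (δ / (1 + δ)) ≤ ℓ := (mul_le_mul_of_nonneg_left h1 (Nat.cast_nonneg I)).trans h.lo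
  rw [← mul_div_assoc, div_le_iff₀ (by linarith)] at h2
  exact h2

theorem Num.I_ge (h : Num δ L lam ℓ I) : ℓ - δ ≤ I * δ := by
  have hδ := h.hδ
  have h1 := log_one_add_le hδ
  have h2 : ℓ < (I + 1) * δ := h.hi.trans_le (mul_le_mul_of_nonneg_left h1 (by positivity))
  linarith

theorem Num.I_pos (h : Num δ L lam ℓ I) : 1 ≤ I := by
  by_contra hcon
  have h0 : I = 0 := by omega
  have h1 := h.I_ge
  rw [h0] at h1
  have := h.hℓ
  have := h.hδ1
  simp at h1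
  linarith

theorem Num.inv_sum (h : Num δ L lam ℓ I) : ∑ i ∈ range I, 1 / ls L δ (1 + i) ^ 2 ≤ 2 / (δ * lam ^ 2) := by
  have hδ := h.hδ
  have hδ1 := h.hδ1
  have hlam := h.hlam
  have h1 : ∀ i ∈ range I, 1 / ls L δ (1 + i) ^ 2 ≤ 1 / lam ^ 2 * (1 / (1 + δ)) ^ (I - 1 - i) := by
    intro i hi
    have h2 := h.ls_ge (mem_range.1 hi)
    have h3 : 0 < lam * (1 + δ) ^ (I - 1 - i) := by positivity
    have h4 : (lam * (1 + δ) ^ (I - 1 - i)) ^ 2 ≤ ls L δ (1 + i) ^ 2 := pow_le_pow_left₀ h3.le h2 2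
    have h5 : 1 / ls L δ (1 + i) ^ 2 ≤ 1 / (lam * (1 + δ) ^ (I - 1 - i)) ^ 2 :=
      one_div_le_one_div_of_le (by positivity) h4
    refine h5.trans ?_
    rw [mul_pow, one_div, mul_inv, ← one_div, one_div ((1 : ℝ) + δ), inv_pow]
    apply mul_le_mul_of_nonneg_left _ (by positivity)
    apply inv_anti₀ (by positivity)
    have h6 : (1 : ℝ) ≤ (1 + δ) ^ (I - 1 - i) := one_le_pow₀ (by linarith)
    nlinarith
  refine (sum_le_sum h1).trans ?_
  rw [← mul_sum, sum_range_reflect (fun m => (1 / (1 + δ)) ^ m) I]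
  have h2 : ∑ m ∈ range I, (1 / (1 + δ)) ^ m ≤ (1 + δ) / δ := by
    have h4 := geom_sum_mul_neg (1 / (1 + δ)) I
    have h5 : 1 - 1 / (1 + δ) = δ / (1 + δ) := by field_simp; ring
    have h6 : 0 ≤ (1 / (1 + δ)) ^ I := by positivity
    rw [le_div_iff₀ hδ]
    rw [h5] at h4
    have h7 : (∑ i ∈ range I, (1 / (1 + δ)) ^ i) * (δ / (1 + δ)) ≤ 1 := by linarith
    rw [← mul_div_assoc, div_le_iff₀ (by linarith)] at h7
    linarith
  calc 1 / lam ^ 2 * ∑ m ∈ range I, (1 / (1 + δ)) ^ m ≤ 1 / lam ^ 2 * (2 / δ) := by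
        apply mul_le_mul_of_nonneg_left _ (by positivity)
        refine h2.trans ?_
        apply div_le_div_of_nonneg_right _ hδ.le
        linarith
    _ = _ := by field_simp

theorem Num.ls_le (h : Num δ L lam ℓ I) (i : ℕ) : ls L δ (1 + i) ≤ L - δ * L / 2 := by
  have hδ := h.hδ
  have hδ1 := h.hδ1
  have hL : 0 ≤ L := by have := h.ell_le; have := h.hℓ; linarith
  have h1 : ls L δ (1 + i) ≤ ls L δ 1 := ls_anti hL hδ (by omega)
  refine h1.trans ?_
  unfold ls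
  rw [pow_one, div_le_iff₀ (by linarith)]
  nlinarith [mul_nonneg hδ.le hL]

/-- the largeness conditions -/
structure Big (δ L lam ℓ C₂ K₂ K : ℝ) : Prop where
  a : 12 * L ^ 2 * Real.exp (-(δ * L / 2)) ≤ δ ^ 3
  b1 : (24 + 4 * C₂) / δ ≤ Real.exp L
  b2 : 2 * (1 + C₂) / δ ^ 2 ≤ Real.exp L
  c : K * (2 + 2 * Real.log (2 * ℓ / δ)) ≤ δ / 2 * ℓ
  d : 8 * K / δ ^ 2 ≤ L
  e : 8 * K₂ / δ ^ 3 ≤ lam ^ 2

theorem logN {N : ℕ} {L : ℝ} (hN : (N : ℝ) = Real.exp L) (hL : 1 ≤ L) : (Nat.log 2 N : ℝ) + 1 ≤ 3 * L := by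
  have h1 := Real.natLog_le_logb N 2
  have h2 : Real.logb 2 N = L / Real.log 2 := by rw [hN, Real.logb, Real.log_exp]
  push_cast at h1
  rw [h2] at h1
  have h3 : L / Real.log 2 ≤ 2 * L := by
    have := Real.log_two_gt_d9
    rw [div_le_iff₀ (by linarith)]
    nlinarith
  linarith

theorem exp_part {N : ℕ} (h : Num δ L lam ℓ I) (hN : (N : ℝ) = Real.exp L) (i : ℕ) :
    Real.exp (ls L δ (1 + i)) * (Nat.log 2 N + 1) ≤ N * (3 * L * Real.exp (-(δ * L / 2))) := by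
  have hL1 : 1 ≤ L := by have := h.ell_le; have := h.hℓ; linarith
  have h1 : Real.exp (ls L δ (1 + i)) ≤ N * Real.exp (-(δ * L / 2)) := by
    rw [hN, ← Real.exp_add]
    apply Real.exp_le_exp.2
    have := h.ls_le i
    linarith
  have h2 := logN hN hL1
  calc Real.exp (ls L δ (1 + i)) * (Nat.log 2 N + 1)
      ≤ (N * Real.exp (-(δ * L / 2))) * (3 * L) := mul_le_mul h1 h2 (by positivity) (by positivity)
    _ = _ := by ring

end Pool.Agent.H998_PL
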