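import Pool.Agent.H998_PL.Mean

/-! Primes on trajectories, part 20: the mean value, final inequalities. -/

set_option autoImplicit false

namespace Pool.Agent.H998_PL

open Finset

variable {δ L lam ℓ C₂ K₂ K κ : ℝ} {I N Q : ℕ} {P : Set ℤ}

theorem Num.junk (h : Num δ L lam ℓ I) (hB : Big δ L lam ℓ C₂ K₂ K) (hQ : (Q : ℝ) ≤ 2 * ℓ / δ) :
    I * (Q * (3 * L * Real.exp (-(δ * L / 2)))) ≤ δ * ℓ := by
  have hδ := h.hδ
  have hδ1 := h.hδ1
  have hℓ := h.hℓ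
  have hL := h.ell_le
  have hI : (I : ℝ) ≤ 2 * ℓ / δ := by
    rw [le_div_iff₀ hδ]
    have := h.I_le
    nlinarith
  have he := (Real.exp_pos (-(δ * L / 2))).le
  set E := Real.exp (-(δ * L / 2)) with hE
  have hL0 : 0 < L := by linarith
  have hIQ : (I : ℝ) * Q ≤ (2 * ℓ / δ) * (2 * ℓ / δ) := mul_le_mul hI hQ (Nat.cast_nonneg Q) (by positivity)
  have h1 := hB.a
  rw [← hE] at h1
  calc I * (Q * (3 * L * E)) = (I * Q) * (3 * L * E) := by ring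
    _ ≤ ((2 * ℓ / δ) * (2 * ℓ / δ)) * (3 * L * E) := mul_le_mul_of_nonneg_right hIQ (by positivity)
    _ = ℓ / δ ^ 2 * (12 * (ℓ * L) * E) := by field_simp; ring
    _ ≤ ℓ / δ ^ 2 * (12 * L ^ 2 * E) := by
        apply mul_le_mul_of_nonneg_left _ (by positivity)
        apply mul_le_mul_of_nonneg_right _ he
        nlinarith
    _ ≤ ℓ / δ ^ 2 * δ ^ 3 := mul_le_mul_of_nonneg_left h1 (by positivity)
    _ = _ := by field_simp

theorem final_up (hPo : ∀ x ∈ P, Odd x) (h : Num δ L lam ℓ I) (hB : Big δ L lam ℓ C₂ K₂ K)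
    (hκ : 0 ≤ κ) (hκ1 : κ ≤ 12) (hC : 0 ≤ C₂) (hK₂ : 0 ≤ K₂) (hK : 0 < K)
    (hs : ∀ i < I, Scale P δ (ls L δ (1 + i)) κ C₂ K₂) (hN : (N : ℝ) = Real.exp L)
    (hQ : (Q : ℝ) ≤ 2 * ℓ / δ) (hQ2 : 1 ≤ Q)
    (htop : ∀ z : ℝ, 2 ≤ z → z ≤ N → ∑ n ∈ Icc 1 N, tr Q (HT P z (n : ℤ)).encard
      ≤ K * N * ((1 + Real.log (Real.log N / Real.log z)) * (1 + Real.log Q) + Q / Real.log z)) :
    ∑ n ∈ Icc 1 N, tr Q (HT P (Real.exp lam) (n : ℤ)).encard
      ≤ κ * (N * ℓ) + (16 + 4 * C₂) * δ * (N * ℓ) := by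
  have hδ := h.hδ
  have hδ1 := h.hδ1
  have hℓ := h.hℓ
  have hlam := h.hlam
  have hL := h.ell_le
  have hL0 : 0 < L := by linarith
  have hN0 : (0 : ℝ) < N := by rw [hN]; exact Real.exp_pos _
  have hN1 : (1 : ℝ) ≤ N := by rw [hN]; exact Real.one_le_exp hL0.le
  have hQR : (1 : ℝ) ≤ Q := by exact_mod_cast hQ2
  have h1 := sum_up hPo hL0.le I hs (Real.exp_le_exp.2 h.ls_last) hδ hκ hC hK₂ N Q hQ2
  -- the top
  have hl1 : ls L δ 1 = L / (1 + δ) := by unfold ls; rw [pow_one]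
  have hlI := h.ls_ge' (i := 0) h.I_pos
  rw [add_zero] at hlI
  have htop1 : ∑ n ∈ Icc 1 N, tr Q (HT P (Real.exp (ls L δ 1)) (n : ℤ)).encard ≤ δ * (N * ℓ) := by
    have h2 := htop (Real.exp (ls L δ 1)) (by
      have := Real.add_one_le_exp (ls L δ 1)
      linarith) (by
      rw [hN]; apply Real.exp_le_exp.2
      rw [hl1]; exact div_le_self hL0.le (by linarith))
    rw [Real.log_exp, hN, Real.log_exp, ← hN] at h2
    refine h2.trans ?_
    have h3 : L / ls L δ 1 = 1 + δ := by rw [hl1]; field_simp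
    rw [h3]
    have h4 := log_one_add_le hδ
    have h4' : 0 ≤ Real.log (1 + δ) := h.lpos.le
    have h5 : Real.log Q ≤ Real.log (2 * ℓ / δ) := Real.log_le_log (by linarith) hQ
    have h6 : 0 ≤ Real.log Q := Real.log_nonneg hQR
    have h7 : (Q : ℝ) / ls L δ 1 ≤ 4 * ℓ / (δ * L) := by
      rw [hl1, div_div_eq_mul_div, div_le_div_iff₀ hL0 (by positivity)]
      have : (Q : ℝ) * δ ≤ 2 * ℓ := by rwa [le_div_iff₀ hδ] at hQ
      have e1 : (Q : ℝ) * δ * (1 + δ) ≤ 2 * ℓ * 2 := mul_le_mul this (by linarith) (by linarith) (by linarith)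
      calc (Q : ℝ) * (1 + δ) * (δ * L) = (Q : ℝ) * δ * (1 + δ) * L := by ring
        _ ≤ 2 * ℓ * 2 * L := mul_le_mul_of_nonneg_right e1 hL0.le
        _ = _ := by ring
    have h8 : (1 + Real.log (1 + δ)) * (1 + Real.log Q) ≤ 2 + 2 * Real.log (2 * ℓ / δ) := by
      nlinarith
    have h9 : K * (4 * ℓ / (δ * L)) ≤ δ / 2 * ℓ := by
      have := hB.d
      rw [div_le_iff₀ (by positivity)] at this
      rw [← mul_div_assoc, div_le_iff₀ (by positivity)]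
      nlinarith
    have h10 := hB.c
    calc K * N * ((1 + Real.log (1 + δ)) * (1 + Real.log Q) + Q / ls L δ 1)
        ≤ K * N * ((2 + 2 * Real.log (2 * ℓ / δ)) + 4 * ℓ / (δ * L)) :=
          mul_le_mul_of_nonneg_left (add_le_add h8 h7) (by positivity)
      _ = N * (K * (2 + 2 * Real.log (2 * ℓ / δ)) + K * (4 * ℓ / (δ * L))) := by ring
      _ ≤ N * (δ / 2 * ℓ + δ / 2 * ℓ) := mul_le_mul_of_nonneg_left (add_le_add h10 h9) hN0.le
      _ = _ := by ring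
  -- the blocks
  have h2 : ∑ i ∈ range I, ((κ * δ + 2 * C₂ * δ ^ 2 + Q * (K₂ / ls L δ (1 + i) ^ 2)) * ((N : ℝ) + 1)
        + Q * (Real.exp (ls L δ (1 + i)) * (Nat.log 2 N + 1)))
      ≤ I * ((κ * δ + 2 * C₂ * δ ^ 2) * ((N : ℝ) + 1))
        + Q * K₂ * (N + 1) * ∑ i ∈ range I, 1 / ls L δ (1 + i) ^ 2
        + I * (Q * (N * (3 * L * Real.exp (-(δ * L / 2))))) := by
    have e1 : ∀ i ∈ range I, ((κ * δ + 2 * C₂ * δ ^ 2 + Q * (K₂ / ls L δ (1 + i) ^ 2)) * ((N : ℝ) + 1)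
        + Q * (Real.exp (ls L δ (1 + i)) * (Nat.log 2 N + 1)))
        ≤ (κ * δ + 2 * C₂ * δ ^ 2) * ((N : ℝ) + 1) + Q * K₂ * (N + 1) * (1 / ls L δ (1 + i) ^ 2)
          + Q * (N * (3 * L * Real.exp (-(δ * L / 2)))) := by
      intro i _
      have e2 := mul_le_mul_of_nonneg_left (exp_part h hN i) (Nat.cast_nonneg (α := ℝ) Q)
      have e3 : (κ * δ + 2 * C₂ * δ ^ 2 + Q * (K₂ / ls L δ (1 + i) ^ 2)) * ((N : ℝ) + 1)
        = (κ * δ + 2 * C₂ * δ ^ 2) * ((N : ℝ) + 1) + Q * K₂ * (N + 1) * (1 / ls L δ (1 + i) ^ 2) := by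
        ring
      rw [e3]
      linarith
    refine (sum_le_sum e1).trans (le_of_eq ?_)
    rw [sum_add_distrib, sum_add_distrib, sum_const, sum_const, card_range, nsmul_eq_mul,
      nsmul_eq_mul, ← mul_sum]
  -- first part
  have hIδ := h.I_le
  have hIδ0 : (0 : ℝ) ≤ I * δ := by positivity
  have h3 : (I : ℝ) * ((κ * δ + 2 * C₂ * δ ^ 2) * ((N : ℝ) + 1))
      ≤ κ * (N * ℓ) + (13 + 4 * C₂) * δ * (N * ℓ) := by
    have e1 : (I : ℝ) * ((κ * δ + 2 * C₂ * δ ^ 2) * ((N : ℝ) + 1))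
        = ((I * δ) * (κ + 2 * C₂ * δ)) * ((N : ℝ) + 1) := by ring
    have e2 : (I * δ) * (κ + 2 * C₂ * δ) ≤ ℓ * (κ + δ * (12 + 4 * C₂)) := by
      calc (I * δ) * (κ + 2 * C₂ * δ) ≤ (ℓ * (1 + δ)) * (κ + 2 * C₂ * δ) :=
            mul_le_mul_of_nonneg_right hIδ (by positivity)
        _ = ℓ * (κ + δ * κ + 2 * C₂ * δ * (1 + δ)) := by ring
        _ ≤ ℓ * (κ + δ * (12 + 4 * C₂)) := by
            apply mul_le_mul_of_nonneg_left _ (by linarith)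
            have e3 : δ * κ ≤ δ * 12 := mul_le_mul_of_nonneg_left hκ1 hδ.le
            have e4 : 2 * C₂ * δ * (1 + δ) ≤ 2 * C₂ * δ * 2 :=
              mul_le_mul_of_nonneg_left (by linarith) (by positivity)
            linarith
    have e5 : ℓ * (κ + δ * (12 + 4 * C₂)) ≤ δ * (N * ℓ) := by
      have e6 := hB.b1
      rw [← hN, div_le_iff₀ hδ] at e6
      have e7 : κ + δ * (12 + 4 * C₂) ≤ N * δ := by nlinarith
      calc ℓ * (κ + δ * (12 + 4 * C₂)) ≤ ℓ * (N * δ) := mul_le_mul_of_nonneg_left e7 (by linarith)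
        _ = _ := by ring
    rw [e1]
    calc ((I * δ) * (κ + 2 * C₂ * δ)) * ((N : ℝ) + 1) ≤ (ℓ * (κ + δ * (12 + 4 * C₂))) * (N + 1) :=
          mul_le_mul_of_nonneg_right e2 (by positivity)
      _ = κ * (N * ℓ) + (12 + 4 * C₂) * δ * (N * ℓ) + ℓ * (κ + δ * (12 + 4 * C₂)) := by ring
      _ ≤ κ * (N * ℓ) + (12 + 4 * C₂) * δ * (N * ℓ) + δ * (N * ℓ) := by linarith
      _ = _ := by ring
  -- second part
  have h4 : Q * K₂ * ((N : ℝ) + 1) * ∑ i ∈ range I, 1 / ls L δ (1 + i) ^ 2 ≤ δ * (N * ℓ) := by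
    have e1 := h.inv_sum
    have e2 : Q * K₂ * ((N : ℝ) + 1) ≤ 2 * ℓ / δ * K₂ * (2 * N) := by
      apply mul_le_mul (mul_le_mul_of_nonneg_right hQ hK₂) (by linarith) (by positivity) (by positivity)
    have e3 := hB.e
    rw [div_le_iff₀ (by positivity)] at e3
    calc Q * K₂ * ((N : ℝ) + 1) * ∑ i ∈ range I, 1 / ls L δ (1 + i) ^ 2
        ≤ (2 * ℓ / δ * K₂ * (2 * N)) * (2 / (δ * lam ^ 2)) :=
          mul_le_mul e2 e1 (sum_nonneg fun i _ => by positivity) (by positivity)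
      _ = (8 * K₂) * (N * ℓ) / (δ ^ 2 * lam ^ 2) := by field_simp; ring
      _ ≤ (lam ^ 2 * δ ^ 3) * (N * ℓ) / (δ ^ 2 * lam ^ 2) := by
          apply div_le_div_of_nonneg_right _ (by positivity)
          exact mul_le_mul_of_nonneg_right e3 (by positivity)
      _ = _ := by field_simp
  -- third part
  have h5 : (I : ℝ) * (Q * (N * (3 * L * Real.exp (-(δ * L / 2))))) ≤ δ * (N * ℓ) := by
    have e1 := mul_le_mul_of_nonneg_left (h.junk hB hQ) hN0.le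
    calc (I : ℝ) * (Q * (N * (3 * L * Real.exp (-(δ * L / 2)))))
        = N * (I * (Q * (3 * L * Real.exp (-(δ * L / 2))))) := by ring
      _ ≤ N * (δ * ℓ) := e1
      _ = _ := by ring
  have h6 : κ * (N * ℓ) + (16 + 4 * C₂) * δ * (N * ℓ)
      = δ * (N * ℓ) + (κ * (N * ℓ) + (13 + 4 * C₂) * δ * (N * ℓ)) + δ * (N * ℓ) + δ * (N * ℓ) := by ring
  rw [h6]
  linarith

theorem final_lo (hPo : ∀ x ∈ P, Odd x) (h : Num δ L lam ℓ I) (hB : Big δ L lam ℓ C₂ K₂ K)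
    (hκ : 0 ≤ κ) (hκ1 : κ ≤ 12) (hC : 0 ≤ C₂)
    (hs : ∀ i < I, Scale P δ (ls L δ (1 + i)) κ C₂ K₂) (hN : (N : ℝ) = Real.exp L)
    (hQ : 2 * ℓ / δ < Q + 1) :
    κ * (N * ℓ) - (26 + 2 * C₂) * δ * (N * ℓ)
      ≤ ∑ n ∈ Icc 1 N, tr Q (HT P (Real.exp lam) (n : ℤ)).encard := by
  have hδ := h.hδ
  have hδ1 := h.hδ1
  have hℓ := h.hℓ
  have hlam := h.hlam
  have hL := h.ell_le
  have hL0 : 0 < L := by linarith
  have hN0 : (0 : ℝ) < N := by rw [hN]; exact Real.exp_pos _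
  obtain ⟨J, rfl⟩ : ∃ J, I = J + 1 := ⟨I - 1, by have := h.I_pos; omega⟩
  have hIδ := h.I_le
  have hIδ2 := h.I_ge
  push_cast at hIδ hIδ2
  have hJ2 : (J : ℝ) ≤ 2 * ℓ / δ := by
    rw [le_div_iff₀ hδ]
    nlinarith
  have hJQ : J ≤ Q := by
    have : (J : ℝ) < Q + 1 := lt_of_le_of_lt hJ2 hQ
    have : J < Q + 1 := by exact_mod_cast this
    omega
  have hρ : 0 ≤ 1 - κ * δ + C₂ * δ ^ 2 := by
    have : κ * δ ≤ 12 * (1 / 50) := mul_le_mul hκ1 hδ1 hδ.le (by norm_num)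
    have : 0 ≤ C₂ * δ ^ 2 := by positivity
    linarith
  have hρ1 : 1 - κ * δ + C₂ * δ ^ 2 ≤ 1 + C₂ := by
    have e1 : 0 ≤ κ * δ := by positivity
    have e2 : δ ^ 2 ≤ 1 := pow_le_one₀ hδ.le (by linarith)
    have e3 : C₂ * δ ^ 2 ≤ C₂ * 1 := mul_le_mul_of_nonneg_left e2 hC
    linarith
  have hY : Real.exp lam ≤ Real.exp (ls L δ (1 + J)) := Real.exp_le_exp.2 (h.ls_ge' (by omega))
  have h1 := sum_lo hPo hL0.le J (fun i hi => hs i (by omega)) hY hδ hρ N Q hJQ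
  refine le_trans ?_ h1
  have h2 : ∀ i ∈ range J, (κ * δ - C₂ * δ ^ 2) * N - (1 + C₂)
        - N * (3 * L * Real.exp (-(δ * L / 2)))
      ≤ (N : ℝ) - ((1 - κ * δ + C₂ * δ ^ 2) * (N + 1)
        + Real.exp (ls L δ (1 + i)) * (Nat.log 2 N + 1)) := by
    intro i _
    have e1 := exp_part h hN i
    have e2 : (1 - κ * δ + C₂ * δ ^ 2) * ((N : ℝ) + 1)
      = N - (κ * δ - C₂ * δ ^ 2) * N + (1 - κ * δ + C₂ * δ ^ 2) := by ring
    rw [e2]
    linarith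
  refine le_trans ?_ (sum_le_sum h2)
  rw [sum_const, card_range, nsmul_eq_mul]
  have hJ0 : (0 : ℝ) ≤ J := Nat.cast_nonneg J
  -- main
  have h3 : κ * (N * ℓ) - (24 + 2 * C₂) * δ * (N * ℓ) ≤ J * ((κ * δ - C₂ * δ ^ 2) * N) := by
    have e1 : J * ((κ * δ - C₂ * δ ^ 2) * N) = (κ * (J * δ) - C₂ * δ * (J * δ)) * N := by ring
    have e2 : ℓ - 2 * δ ≤ J * δ := by linarith
    have e3 : J * δ ≤ 2 * ℓ := by nlinarith
    have e4 : κ * (ℓ - 2 * δ) ≤ κ * (J * δ) := mul_le_mul_of_nonneg_left e2 hκ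
    have e5 : C₂ * δ * (J * δ) ≤ C₂ * δ * (2 * ℓ) := mul_le_mul_of_nonneg_left e3 (by positivity)
    have e6 : κ * (2 * δ) ≤ 24 * δ * ℓ := by
      have : κ * (2 * δ) ≤ 12 * (2 * δ) := mul_le_mul_of_nonneg_right hκ1 (by positivity)
      nlinarith
    rw [e1]
    calc κ * (N * ℓ) - (24 + 2 * C₂) * δ * (N * ℓ) = (κ * ℓ - 24 * δ * ℓ - C₂ * δ * (2 * ℓ)) * N := by
          ring
      _ ≤ (κ * (J * δ) - C₂ * δ * (J * δ)) * N := mul_le_mul_of_nonneg_right (by linarith) hN0.le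
  -- the first error
  have h4 : J * (1 + C₂) ≤ δ * (N * ℓ) := by
    have e1 := hB.b2
    rw [← hN, div_le_iff₀ (by positivity)] at e1
    calc J * (1 + C₂) ≤ 2 * ℓ / δ * (1 + C₂) := mul_le_mul_of_nonneg_right hJ2 (by positivity)
      _ = ℓ / δ * (2 * (1 + C₂)) := by ring
      _ ≤ ℓ / δ * (N * δ ^ 2) := mul_le_mul_of_nonneg_left e1 (by positivity)
      _ = _ := by field_simp
  -- the second error
  have h5 : J * (N * (3 * L * Real.exp (-(δ * L / 2)))) ≤ δ * (N * ℓ) := by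
    have e0 := (Real.exp_pos (-(δ * L / 2))).le
    have e1 := hB.a
    set E := Real.exp (-(δ * L / 2)) with hE
    have e2 : 6 * L * E ≤ δ ^ 2 := by
      have e3 : 6 * L * E ≤ 12 * L ^ 2 * E := by
        apply mul_le_mul_of_nonneg_right _ e0
        nlinarith
      have e4 : δ ^ 3 ≤ δ ^ 2 := pow_le_pow_of_le_one hδ.le (by linarith) (by norm_num)
      linarith
    calc J * (N * (3 * L * E)) ≤ 2 * ℓ / δ * (N * (3 * L * E)) :=
          mul_le_mul_of_nonneg_right hJ2 (by positivity)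
      _ = N * ℓ / δ * (6 * L * E) := by ring
      _ ≤ N * ℓ / δ * δ ^ 2 := mul_le_mul_of_nonneg_left e2 (by positivity)
      _ = _ := by field_simp
  have h6 : (J : ℝ) * ((κ * δ - C₂ * δ ^ 2) * N - (1 + C₂)
        - N * (3 * L * Real.exp (-(δ * L / 2))))
      = J * ((κ * δ - C₂ * δ ^ 2) * N) - J * (1 + C₂)
        - J * (N * (3 * L * Real.exp (-(δ * L / 2)))) := by ring
  rw [h6]
  have h7 : κ * (N * ℓ) - (26 + 2 * C₂) * δ * (N * ℓ)
      = κ * (N * ℓ) - (24 + 2 * C₂) * δ * (N * ℓ) - δ * (N * ℓ) - δ * (N * ℓ) := by ring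
  rw [h7]
  linarith

end Pool.Agent.H998_PL
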