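import Pool.Agent.H998_BC.Gap2

/-! Primes on trajectories, part 1: the offsets of the words of given length and size are uniform in
the classes modulo powers of three above a level that does not depend on the length. -/

set_option autoImplicit false

namespace Pool.Agent.H998_PL

open Finset
open Pool.Agent.H320R2.PD Pool.Agent.H499R2.ND

theorem sum_inv_sq (a : ℕ) (ha : 1 ≤ a) (b : ℕ) :
    ∑ J ∈ Ico a b, (1 / (J : ℝ)) ^ 2 ≤ 2 / (a : ℝ) := by
  have key : ∀ n : ℕ, a ≤ n → ∑ J ∈ Ico a n, (1 / (J : ℝ)) ^ 2 ≤ 2 / (a : ℝ) - 2 / n := by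
    intro n hn
    induction n, hn using Nat.le_induction with
    | base => simp
    | succ n hn ih =>
      rw [sum_Ico_succ_top hn]
      have hn1 : (1 : ℝ) ≤ n := by
        have : 1 ≤ n := by omega
        exact_mod_cast this
      have hn0 : (0 : ℝ) < n := by linarith
      have e : (1 / (n : ℝ)) ^ 2 ≤ 2 / n - 2 / ((n + 1 : ℕ) : ℝ) := by
        push_cast
        have h1 : 2 / (n : ℝ) - 2 / (n + 1) = 2 / (n * (n + 1)) := by
          field_simp
          ring
        rw [h1, div_pow, one_pow, div_le_div_iff₀ (by positivity) (by positivity)]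
        nlinarith
      linarith
  rcases Nat.lt_or_ge b a with h | h
  · rw [Ico_eq_empty (by omega), sum_empty]; positivity
  · refine (key b h).trans ?_
    have : (0 : ℝ) ≤ 2 / b := by positivity
    linarith

theorem mix2 : ∃ C : ℝ, 0 < C ∧ ∀ k m m' A : ℕ, 1 ≤ k → 1 ≤ m' → m' ≤ k → 3 * k ≤ A →
    ∑ T ∈ range (k * A + 1), dev (FWT A k T) wwt (fun w => (Wo w : ℤ)) (k + m) m'
      ≤ C * (1 / (m' : ℝ) + (m : ℝ) ^ 3 / (k : ℝ) ^ 2) := by
  obtain ⟨C, hC, hg⟩ := gam_beyond 4
  refine ⟨2 * Real.sqrt (2 * C), by positivity, fun k m m' A hk hm' hmk hA => ?_⟩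
  have hnn : ∀ T, ∀ w ∈ FWT A k T, 0 ≤ wwt w := fun T w _ => by unfold wwt; positivity
  have hmass : ∑ T ∈ range (k * A + 1), ∑ w ∈ FWT A k T, wwt w ≤ 1 := by
    unfold FWT
    rw [sum_fiberwise_of_maps_to (g := fun w : List ℕ => w.sum)]
    · exact sum_wwt_le A k
    · intro w hw
      have := (sum_le_of_mem hw).2
      simp only [mem_range]
      omega
  have hkR : (0 : ℝ) < k := by exact_mod_cast hk
  have hm'R : (0 : ℝ) < m' := by exact_mod_cast hm'
  have hgam1 : ∀ J ∈ Ico m' k, Real.sqrt (gam A k J) ≤ Real.sqrt C * (1 / (J : ℝ)) ^ 2 := by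
    intro J hJ
    rw [mem_Ico] at hJ
    have h1 : gam A k J ≤ gam A J J := by
      obtain ⟨a, rfl⟩ := Nat.exists_eq_add_of_le hJ.2.le
      calc gam A (J + a) J ≤ gam A J (J + 0) * gam A a 0 := gam_rec A J a 0
        _ ≤ gam A J (J + 0) * 1 :=
            mul_le_mul_of_nonneg_left (gam_le_one _ _ _) (gam_nonneg _ _ _)
        _ = _ := by rw [mul_one, add_zero]
    have hJ1 : 1 ≤ J := hm'.trans hJ.1
    have h2 := hg J hJ1 0 A (by omega)
    rw [add_zero, Nat.cast_zero, zero_add] at h2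
    have h3 := h1.trans h2
    refine (Real.sqrt_le_sqrt h3).trans (le_of_eq ?_)
    rw [Real.sqrt_mul hC.le, show (1 / (J : ℝ)) ^ 4 = ((1 / (J : ℝ)) ^ 2) ^ 2 by ring,
      Real.sqrt_sq (by positivity)]
  have hgam2 : ∀ J ∈ Ico k (k + m), Real.sqrt (gam A k J) ≤ Real.sqrt C * ((m : ℝ) / k) ^ 2 := by
    intro J hJ
    rw [mem_Ico] at hJ
    obtain ⟨i, rfl⟩ := Nat.exists_eq_add_of_le hJ.1
    have h2 := hg k hk i A hA
    have him : (i : ℝ) + 1 ≤ m := by
      have : i + 1 ≤ m := by omega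
      exact_mod_cast this
    have h3 : gam A k (k + i) ≤ C * ((m : ℝ) / k) ^ 4 := by
      refine h2.trans ?_
      apply mul_le_mul_of_nonneg_left _ hC.le
      apply pow_le_pow_left₀ (by positivity)
      exact div_le_div_of_nonneg_right him hkR.le
    refine (Real.sqrt_le_sqrt h3).trans (le_of_eq ?_)
    rw [Real.sqrt_mul hC.le, show ((m : ℝ) / k) ^ 4 = (((m : ℝ) / k) ^ 2) ^ 2 by ring,
      Real.sqrt_sq (by positivity)]
  calc ∑ T ∈ range (k * A + 1), dev (FWT A k T) wwt (fun w => (Wo w : ℤ)) (k + m) m'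
      ≤ ∑ T ∈ range (k * A + 1), ∑ J ∈ Ico m' (k + m), Real.sqrt (2 * ∑ i ∈ FWT A k T, wwt i)
          * Real.sqrt (Gam (FWT A k T) wwt (fun w => (Wo w : ℤ)) J) :=
        sum_le_sum fun T _ => dev_le _ (hnn T) m' (k + m) (by omega)
    _ = ∑ J ∈ Ico m' (k + m), ∑ T ∈ range (k * A + 1), Real.sqrt (2 * ∑ i ∈ FWT A k T, wwt i)
          * Real.sqrt (Gam (FWT A k T) wwt (fun w => (Wo w : ℤ)) J) := sum_comm
    _ ≤ ∑ J ∈ Ico m' (k + m), Real.sqrt 2 * Real.sqrt (gam A k J) := by
        apply sum_le_sum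
        intro J _
        refine (Real.sum_sqrt_mul_sqrt_le (range (k * A + 1))
          (f := fun T => 2 * ∑ i ∈ FWT A k T, wwt i)
          (g := fun T => Gam (FWT A k T) wwt (fun w => (Wo w : ℤ)) J) ?_ ?_).trans ?_
        · intro T
          have := sum_nonneg (hnn T)
          positivity
        · intro T; exact Gam_nonneg _ J (hnn T)
        · apply mul_le_mul_of_nonneg_right _ (Real.sqrt_nonneg _)
          apply Real.sqrt_le_sqrt
          rw [← mul_sum]
          linarith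
    _ = Real.sqrt 2 * (∑ J ∈ Ico m' k, Real.sqrt (gam A k J)
          + ∑ J ∈ Ico k (k + m), Real.sqrt (gam A k J)) := by
        rw [← mul_sum, sum_Ico_consecutive _ hmk (by omega)]
    _ ≤ Real.sqrt 2 * (∑ J ∈ Ico m' k, Real.sqrt C * (1 / (J : ℝ)) ^ 2
          + ∑ J ∈ Ico k (k + m), Real.sqrt C * ((m : ℝ) / k) ^ 2) := by
        apply mul_le_mul_of_nonneg_left _ (Real.sqrt_nonneg _)
        exact add_le_add (sum_le_sum hgam1) (sum_le_sum hgam2)
    _ ≤ Real.sqrt 2 * (Real.sqrt C * (2 / (m' : ℝ)) + Real.sqrt C * ((m : ℝ) ^ 3 / (k : ℝ) ^ 2)) := by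
        apply mul_le_mul_of_nonneg_left _ (Real.sqrt_nonneg _)
        apply add_le_add
        · rw [← mul_sum]
          exact mul_le_mul_of_nonneg_left (sum_inv_sq m' hm' k) (Real.sqrt_nonneg _)
        · rw [sum_const, Nat.card_Ico, nsmul_eq_mul, show k + m - k = m by omega]
          apply le_of_eq
          field_simp
    _ ≤ _ := by
        rw [Real.sqrt_mul (by norm_num : (0 : ℝ) ≤ 2)]
        have h1 : 0 ≤ Real.sqrt 2 * Real.sqrt C := by positivity
        have h2 : 0 ≤ (m : ℝ) ^ 3 / (k : ℝ) ^ 2 := by positivity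
        have h3 : (2 : ℝ) / m' = 2 * (1 / m') := by ring
        rw [h3]
        nlinarith [mul_nonneg h1 h2]

end Pool.Agent.H998_PL
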