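import Pool.Agent.H998_PL.Base1

/-! Primes on trajectories, part 9: parameters. -/

set_option autoImplicit false

namespace Pool.Agent.H998_PL

open Finset
open Pool.Agent.H320R2.PD Pool.Agent.H499R2.ND
open Pool.Agent.H499R2.CO (Tz)
open Pool.Agent.R344.TH

/-- the fastest and the slowest typical rate of descent of a step -/
noncomputable def kp (η : ℝ) : ℝ := (2 + η) * Real.log 2 - Real.log 3

noncomputable def km (η : ℝ) : ℝ := (2 - η) * Real.log 2 - Real.log 3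

theorem km_ge {η : ℝ} (hη1 : η ≤ 1 / 20) : 0.24 ≤ km η := by
  unfold km
  have h1 := log3_le
  have h2 := Real.log_two_gt_d9
  nlinarith

theorem km_le {η : ℝ} (hη : 0 ≤ η) : km η ≤ 0.3 := by
  unfold km
  have h1 := log3_ge
  have h2 := Real.log_two_lt_d9
  have h3 := Real.log_two_gt_d9
  nlinarith

theorem kp_le {η : ℝ} (hη1 : η ≤ 1 / 20) : kp η ≤ 0.324 := by
  unfold kp
  have h1 := log3_ge
  have h2 := Real.log_two_lt_d9
  have h3 := Real.log_two_gt_d9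
  nlinarith

theorem kp_ge {η : ℝ} (hη : 0 ≤ η) : 0.27 ≤ kp η := by
  unfold kp
  have h1 := log3_le
  have h2 := Real.log_two_gt_d9
  nlinarith

theorem Thi_le {η : ℝ} (hη : 0 ≤ η) (k : ℕ) : (Thi η k : ℝ) ≤ (2 + η) * k := by
  unfold Thi; exact Nat.floor_le (by positivity)

theorem le_Tlo (η : ℝ) (k : ℕ) : (2 - η) * k ≤ (Tlo η k : ℝ) := by
  unfold Tlo; exact Nat.le_ceil _

theorem Thi_mono {η : ℝ} (hη : 0 ≤ η) {k l : ℕ} (h : k ≤ l) : Thi η k ≤ Thi η l := by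
  unfold Thi
  apply Nat.floor_le_floor
  have : (k : ℝ) ≤ l := by exact_mod_cast h
  nlinarith

theorem pow_exp (b : ℝ) (hb : 0 < b) (k : ℕ) : b ^ k = Real.exp (k * Real.log b) := by
  rw [Real.exp_nat_mul, Real.exp_log hb]

theorem lowL {η : ℝ} (hη : 0 ≤ η) (a : ℝ) (k : ℕ) :
    Real.exp (a - k * kp η) ≤ Real.exp a * 3 ^ k / 2 ^ (Thi η k) := by
  rw [pow_exp 3 (by norm_num), pow_exp 2 (by norm_num), ← Real.exp_add, ← Real.exp_sub]
  apply Real.exp_le_exp.2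
  unfold kp
  have h1 := mul_le_mul_of_nonneg_right (Thi_le hη k) (Real.log_nonneg (by norm_num : (1 : ℝ) ≤ 2))
  linarith

theorem upL (η a : ℝ) (k : ℕ) :
    Real.exp a * 3 ^ k / 2 ^ (Tlo η k) ≤ Real.exp (a - k * km η) := by
  rw [pow_exp 3 (by norm_num), pow_exp 2 (by norm_num), ← Real.exp_add, ← Real.exp_sub]
  apply Real.exp_le_exp.2
  unfold km
  have h1 := mul_le_mul_of_nonneg_right (le_Tlo η k) (Real.log_nonneg (by norm_num : (1 : ℝ) ≤ 2))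
  linarith

/-- the parameters -/
structure Par (δ η ε₁ l a Lb : ℝ) (m m' K k₁ k₃ : ℕ) : Prop where
  l1 : 1000 ≤ l
  a1 : l - 1 ≤ a
  a2 : a ≤ l + 3 * Real.sqrt l
  a3 : a ≤ (1 + ε₁) * l
  one : 1 ≤ k₁
  hm' : m' ≤ k₁
  k1K : k₁ ≤ K
  k3K : k₃ ≤ K
  Kle : (K : ℝ) * km η ≤ δ * l
  Kge : a + 2 - l / (1 + δ) ≤ K * km η
  k1le : (k₁ : ℝ) ≤ ε₁ * l
  k1ge : 3 * Real.sqrt l + 4 ≤ k₁ * km η
  k1sq : 3 * Real.sqrt l ≤ k₁
  k3le : (k₃ : ℝ) * kp η ≤ a - l / (1 + δ)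
  k3ge : a - l / (1 + δ) ≤ (k₃ + 1) * kp η
  mle : (m : ℝ) ≤ l / 1000
  m3 : (m : ℝ) ^ 3 ≤ ε₁ * (9 * l)
  big : Lb ≤ Real.exp (l / 2)
  dl : 1 ≤ ε₁ * l

theorem params {δ η ε₁ : ℝ} (hδ : 0 < δ) (hδ1 : δ ≤ 1 / 50) (hη : 0 < η) (hη1 : η ≤ 1 / 20)
    (hε : 0 < ε₁) (hε1 : ε₁ ≤ δ / 10) (Lb : ℝ) (m' : ℕ) :
    ∃ l₀ : ℝ, ∀ l : ℝ, l₀ ≤ l → ∀ a : ℝ, l - Real.log 2 ≤ a → a ≤ l + 3 * Real.sqrt l → ∀ m : ℕ,
      (m : ℝ) ≤ a ^ (1 / 4 : ℝ) → ∃ K k₁ k₃ : ℕ, Par δ η ε₁ l a Lb m m' K k₁ k₃ := by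
  have hkm := km_ge hη1
  have hkm2 := km_le hη.le
  have hkp := kp_ge hη.le
  have hkp2 := kp_le hη1
  have hkmp : km η ≤ kp η := by
    have : kp η - km η = 2 * η * Real.log 2 := by unfold km kp; ring
    have h2 : 0 < Real.log 2 := Real.log_pos (by norm_num)
    have h3 : 0 ≤ 2 * η * Real.log 2 := by positivity
    linarith
  obtain ⟨ε₂, hε₂⟩ : ∃ ε₂ : ℝ, ε₂ = δ ^ 2 * ε₁ / 100 := ⟨_, rfl⟩
  have hε₂0 : 0 < ε₂ := by rw [hε₂]; positivity
  have hε₂1 : ε₂ ≤ δ ^ 2 / 12 := by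
    rw [hε₂]
    have h1 : ε₁ ≤ 1 := by linarith
    have h2 := mul_le_mul_of_nonneg_left h1 (sq_nonneg δ)
    have h3 := sq_nonneg δ
    linarith
  have hε₂2 : ε₂ ≤ ε₁ / 100 := by
    rw [hε₂]
    have h1 : δ ^ 2 ≤ 1 := by nlinarith
    have h2 := mul_le_mul_of_nonneg_right h1 hε.le
    linarith
  refine ⟨max (max (max 1000 (1 / ε₂ ^ 2)) (max ((m' : ℝ) ^ 2) (2 * Real.log (max Lb 1))))
    (max ((2 / (9 * ε₁)) ^ 3 / (9 * ε₁)) (2 * 1000 ^ 4)), ?_⟩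
  intro l hl a ha1 ha2 m hm
  have hl1 : 1000 ≤ l := (le_max_left _ _).trans ((le_max_left _ _).trans ((le_max_left _ _).trans hl))
  have hl2 : 1 / ε₂ ^ 2 ≤ l :=
    (le_max_right _ _).trans ((le_max_left _ _).trans ((le_max_left _ _).trans hl))
  have hl3 : (m' : ℝ) ^ 2 ≤ l := (le_max_left _ _).trans ((le_max_right _ _).trans ((le_max_left _ _).trans hl))
  have hl4 : 2 * Real.log (max Lb 1) ≤ l :=
    (le_max_right _ _).trans ((le_max_right _ _).trans ((le_max_left _ _).trans hl))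
  have hl5 : (2 / (9 * ε₁)) ^ 3 / (9 * ε₁) ≤ l := (le_max_left _ _).trans ((le_max_right _ _).trans hl)
  have hl6 : 2 * 1000 ^ 4 ≤ l := (le_max_right _ _).trans ((le_max_right _ _).trans hl)
  have hl0 : 0 < l := by linarith
  have hln2 := Real.log_two_lt_d9
  have hs0 : 0 ≤ Real.sqrt l := Real.sqrt_nonneg l
  have hss : Real.sqrt l * Real.sqrt l = l := Real.mul_self_sqrt hl0.le
  have hs1 : Real.sqrt l ≤ ε₂ * l := by
    rw [Real.sqrt_le_left (by positivity)]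
    rw [div_le_iff₀ (by positivity)] at hl2
    have : l * 1 ≤ l * (l * ε₂ ^ 2) := mul_le_mul_of_nonneg_left hl2 hl0.le
    linarith [this]
  have hs30 : 30 ≤ Real.sqrt l := by
    rw [Real.le_sqrt (by norm_num) hl0.le]; linarith
  have hone : 1 ≤ ε₂ * l := by linarith
  have hδ0 : 0 < 1 + δ := by linarith
  have hly : l / (1 + δ) = l - δ * l / (1 + δ) := by field_simp; ring
  have hdl : δ * l / (1 + δ) ≤ δ * l - δ ^ 2 * l / 2 := by
    rw [div_le_iff₀ hδ0]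
    have e : (δ * l - δ ^ 2 * l / 2) * (1 + δ) = δ * l + δ ^ 2 * l / 2 - δ ^ 3 * l / 2 := by ring
    have e2 : δ ^ 3 * l ≤ δ ^ 2 * l := by
      apply mul_le_mul_of_nonneg_right _ hl0.le
      exact pow_le_pow_of_le_one hδ.le (by linarith) (by norm_num)
    rw [e]; linarith
  have hdl2 : δ * l / 2 ≤ δ * l / (1 + δ) := by
    apply div_le_div_of_nonneg_left (by positivity) hδ0; linarith
  have hδε : ε₂ * l ≤ δ ^ 2 / 12 * l := mul_le_mul_of_nonneg_right hε₂1 hl0.le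
  have hεε : ε₂ * l ≤ ε₁ / 100 * l := mul_le_mul_of_nonneg_right hε₂2 hl0.le
  have hε1l : ε₁ * l ≤ δ / 10 * l := mul_le_mul_of_nonneg_right hε1 hl0.le
  set Kx : ℝ := (a + 2 - l / (1 + δ)) / km η with hKx
  have hkm0 : 0 < km η := by linarith
  have hkp0 : 0 < kp η := by linarith
  have hKx0 : 0 ≤ Kx := by
    apply div_nonneg _ hkm0.le
    rw [hly]
    have : 0 ≤ δ * l / (1 + δ) := by positivity
    linarith
  set k1x : ℝ := (3 * Real.sqrt l + 4) / km η with hk1x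
  have hk1x0 : 0 ≤ k1x := by positivity
  set k3x : ℝ := (a - l / (1 + δ)) / kp η with hk3x
  have hk3x0 : 0 ≤ k3x := by
    apply div_nonneg _ hkp0.le
    rw [hly]
    have : δ * l ≥ 10 * (ε₁ * l) := by linarith
    linarith
  have hKceil := Nat.ceil_lt_add_one hKx0
  have hKceil2 := Nat.le_ceil Kx
  have hk1ceil := Nat.ceil_lt_add_one hk1x0
  have hk1ceil2 := Nat.le_ceil k1x
  have hk3fl := Nat.floor_le hk3x0
  have hk3fl2 := Nat.lt_floor_add_one k3x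
  have hKxm : Kx * km η = a + 2 - l / (1 + δ) := by rw [hKx]; field_simp
  have hk1xm : k1x * km η = 3 * Real.sqrt l + 4 := by rw [hk1x]; field_simp
  have hk3xm : k3x * kp η = a - l / (1 + δ) := by rw [hk3x]; field_simp
  have hk1le : (⌈k1x⌉₊ : ℝ) ≤ ε₁ * l := by
    have h1 : k1x ≤ (3 * Real.sqrt l + 4) / 0.24 :=
      div_le_div_of_nonneg_left (by positivity) (by norm_num) hkm
    have h2 : (3 * Real.sqrt l + 4) / 0.24 ≤ 30 * (ε₂ * l) := by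
      rw [div_le_iff₀ (by norm_num)]; linarith
    have h3 : 31 * (ε₂ * l) ≤ ε₁ * l := by linarith
    linarith
  have hk1sq : 3 * Real.sqrt l ≤ k1x := by
    rw [hk1x, le_div_iff₀ hkm0]
    have : 3 * Real.sqrt l * km η ≤ 3 * Real.sqrt l * 1 :=
      mul_le_mul_of_nonneg_left (by linarith) (by linarith)
    linarith
  have hm's : (m' : ℝ) ≤ Real.sqrt l := by
    rw [Real.le_sqrt (Nat.cast_nonneg _) hl0.le]; exact hl3
  have ha0 : 0 < a := by linarith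
  have ha2l : a ≤ 2 * l := by
    have : ε₂ * l ≤ 1 / 3 * l := by
      apply mul_le_mul_of_nonneg_right _ hl0.le
      have : ε₁ ≤ 1 := by linarith
      linarith
    linarith
  have hm4 : (m : ℝ) ^ 4 ≤ 2 * l := by
    refine le_trans ?_ ha2l
    have h1 : (m : ℝ) ^ 4 ≤ (a ^ (1 / 4 : ℝ)) ^ 4 := pow_le_pow_left₀ (Nat.cast_nonneg _) hm 4
    rw [← Real.rpow_natCast, ← Real.rpow_natCast, ← Real.rpow_mul ha0.le] at h1
    norm_num at h1
    exact_mod_cast h1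
  have hm0 : (0 : ℝ) ≤ m := Nat.cast_nonneg m
  have hkk : k1x ≤ Kx := by
    rw [hk1x, hKx]
    apply div_le_div_of_nonneg_right _ hkm0.le
    rw [hly]
    have : ε₂ * l * 7 ≤ δ * l / 2 := by
      have h1 : δ ^ 2 * l ≤ δ * l := by
        have : δ ^ 2 ≤ δ := by
          rw [sq]; exact mul_le_of_le_one_left hδ.le (by linarith)
        exact mul_le_mul_of_nonneg_right this hl0.le
      linarith
    linarith
  have hk3K : k3x ≤ Kx := by
    rw [hk3x, hKx]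
    have h1 : 0 ≤ a - l / (1 + δ) := by
      have := mul_nonneg hk3x0 hkp0.le
      rw [hk3xm] at this; exact this
    calc (a - l / (1 + δ)) / kp η ≤ (a - l / (1 + δ)) / km η :=
          div_le_div_of_nonneg_left h1 hkm0 hkmp
      _ ≤ _ := by apply div_le_div_of_nonneg_right _ hkm0.le; linarith
  refine ⟨⌈Kx⌉₊, ⌈k1x⌉₊, ⌊k3x⌋₊, hl1, by linarith, ha2, ?_, ?_, ?_, Nat.ceil_le_ceil hkk, ?_, ?_, ?_, hk1le,
    ?_, hk1sq.trans hk1ceil2, ?_, ?_, ?_, ?_, ?_, ?_⟩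
  · have : (1 + ε₁) * l = l + ε₁ * l := by ring
    rw [this]; linarith
  · have : (1 : ℝ) ≤ (⌈k1x⌉₊ : ℝ) := by linarith
    exact_mod_cast this
  · have : (m' : ℝ) ≤ (⌈k1x⌉₊ : ℝ) := by linarith
    exact_mod_cast this
  · have : (⌊k3x⌋₊ : ℝ) ≤ (⌈Kx⌉₊ : ℝ) := by linarith
    exact_mod_cast this
  · have h1 : (⌈Kx⌉₊ : ℝ) * km η ≤ (Kx + 1) * km η := mul_le_mul_of_nonneg_right hKceil.le hkm0.le
    rw [add_mul, hKxm, hly] at h1
    linarith
  · have h1 : Kx * km η ≤ (⌈Kx⌉₊ : ℝ) * km η := mul_le_mul_of_nonneg_right hKceil2 hkm0.le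
    linarith
  · have h1 : k1x * km η ≤ (⌈k1x⌉₊ : ℝ) * km η := mul_le_mul_of_nonneg_right hk1ceil2 hkm0.le
    linarith
  · have h1 : (⌊k3x⌋₊ : ℝ) * kp η ≤ k3x * kp η := mul_le_mul_of_nonneg_right hk3fl hkp0.le
    linarith
  · have h1 : k3x * kp η ≤ ((⌊k3x⌋₊ : ℝ) + 1) * kp η := mul_le_mul_of_nonneg_right hk3fl2.le hkp0.le
    linarith
  · by_contra hcon
    push Not at hcon
    have h1 : (l / 1000) ^ 4 < (m : ℝ) ^ 4 := pow_lt_pow_left₀ hcon (by positivity) (by norm_num)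
    have h2 : 2 * l ≤ (l / 1000) ^ 4 := by
      have h3 : (2 * 1000 ^ 4 : ℝ) ≤ l ^ 3 := by
        calc (2 * 1000 ^ 4 : ℝ) ≤ l := hl6
          _ = l ^ 1 := (pow_one l).symm
          _ ≤ l ^ 3 := pow_le_pow_right₀ (by linarith) (by norm_num)
      have h4 : (l / 1000) ^ 4 = l * (l ^ 3 / 1000 ^ 4) := by ring
      rw [h4]
      have h5 : 2 ≤ l ^ 3 / 1000 ^ 4 := by rw [le_div_iff₀ (by norm_num)]; exact h3
      have h6 := mul_le_mul_of_nonneg_left h5 hl0.le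
      rw [mul_comm 2 l]; exact h6
    linarith
  · by_contra hcon
    push Not at hcon
    have h1 : (m : ℝ) * (ε₁ * (9 * l)) ≤ (m : ℝ) * (m : ℝ) ^ 3 := mul_le_mul_of_nonneg_left hcon.le hm0
    have h2 : (m : ℝ) * (ε₁ * (9 * l)) ≤ 2 * l := by
      calc _ ≤ (m : ℝ) * (m : ℝ) ^ 3 := h1
        _ = (m : ℝ) ^ 4 := by ring
        _ ≤ _ := hm4
    have h3 : (m : ℝ) ≤ 2 / (9 * ε₁) := by
      rw [le_div_iff₀ (by positivity)]
      have : (m : ℝ) * (9 * ε₁) * l ≤ 2 * l := by linarith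
      exact le_of_mul_le_mul_right this hl0
    have h4 : (m : ℝ) ^ 3 ≤ (2 / (9 * ε₁)) ^ 3 := pow_le_pow_left₀ hm0 h3 3
    rw [div_le_iff₀ (by positivity)] at hl5
    linarith
  · have h1 : Lb ≤ max Lb 1 := le_max_left _ _
    have h2 : (0 : ℝ) < max Lb 1 := lt_of_lt_of_le one_pos (le_max_right _ _)
    refine h1.trans ?_
    rw [← Real.exp_log h2]
    apply Real.exp_le_exp.2
    linarith
  · linarith

end Pool.Agent.H998_PL
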