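import Pool.Agent.H998_PL.Mix
import Pool.Agent.TH423.SH.PAIP

/-! Primes on trajectories, part 2: primes in the classes modulo powers of three. -/

set_option autoImplicit false

namespace Pool.Agent.H998_PL

open Finset
open Pool.Agent.H320R2.PD Pool.Agent.H499R2.ND

/-- odd primes, equidistributed in the classes modulo powers of three over the residues `R` -/
structure Eqd (P : Set ℤ) (R : Set ℤ) (θ : ℝ) : Prop where
  odd : ∀ x ∈ P, Odd x
  prime : ∀ x ∈ P, 0 < x ∧ x.toNat.Prime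
  mod3 : ∀ x ∈ P, x % 3 ∈ R
  R12 : ∀ r ∈ R, r = 1 ∨ r = 2
  th : 0 ≤ θ ∧ θ ≤ 1
  eqd : ∀ m : ℕ, 1 ≤ m → ∀ ε : ℝ, 0 < ε → ∃ L₀ : ℝ, ∀ L : ℝ, L₀ ≤ L → ∀ c : ℤ, c % 3 ∈ R →
    |((cls P L (2 * L) m 1 c).card : ℝ) - θ * (3 / 2) * (L / (3 ^ m * Real.log L))|
      ≤ ε * (L / (3 ^ m * Real.log L))

theorem bt_nat {X : ℝ} (hX : Real.exp 100 ≤ X) (j v : ℕ) (h3j : (3 : ℝ) ^ j ≤ Real.sqrt X)
    (F : Finset ℕ) (hF : ∀ p ∈ F, p.Prime ∧ X ≤ (p : ℝ) ∧ (p : ℝ) < 2 * X ∧ p % 3 ^ j = v) :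
    (F.card : ℝ) ≤ 264 * (X / (3 ^ j * Real.log X)) := by
  have hX0 : 0 < X := lt_of_lt_of_le (Real.exp_pos _) hX
  set L := Real.log X with hL
  have hL100 : 100 ≤ L := by
    rw [hL, ← Real.log_exp 100]; exact Real.log_le_log (Real.exp_pos _) hX
  have hLexp : Real.exp L = X := Real.exp_log hX0
  have hL0 : 0 < L := by linarith
  have hsX : Real.sqrt X = Real.exp (L / 2) := by
    rw [← hLexp, Real.sqrt_eq_rpow, ← Real.exp_mul]; congr 1; ring
  have hsq : Real.sqrt X * Real.sqrt X = X := Real.mul_self_sqrt hX0.le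
  have hs1 : 4 ≤ Real.sqrt X := by
    rw [hsX]; linarith [Real.add_one_le_exp (L / 2)]
  obtain ⟨N, hN⟩ : ∃ N : ℕ, N = ⌊2 * X / 3 ^ j⌋₊ + 1 := ⟨_, rfl⟩
  have h3j0 : (0 : ℝ) < 3 ^ j := by positivity
  have h2X : 2 * Real.sqrt X ≤ 2 * X / 3 ^ j := by
    rw [le_div_iff₀ h3j0]
    nlinarith [Real.sqrt_nonneg X]
  have hN1 : (N : ℝ) ≤ 3 * (X / 3 ^ j) := by
    have e1 : (⌊2 * X / 3 ^ j⌋₊ : ℝ) ≤ 2 * X / 3 ^ j := Nat.floor_le (by positivity)
    have e2 : 2 * X / 3 ^ j = 2 * (X / 3 ^ j) := by ring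
    rw [hN]; push_cast
    linarith
  have hN2 : Real.sqrt X ≤ N := by
    have : 2 * X / 3 ^ j ≤ N := by rw [hN]; push_cast; exact (Nat.lt_floor_add_one _).le
    linarith
  have hN2' : 2 ≤ N := by
    have : (2 : ℝ) ≤ N := by linarith
    exact_mod_cast this
  have hcard : F.card ≤ ((Finset.range N).filter (fun k => (v + k * 3 ^ j).Prime)).card := by
    apply card_le_card_of_injOn (fun p => p / 3 ^ j)
    · intro p hp
      obtain ⟨h1, h2, h3, h4⟩ := hF p hp
      rw [mem_coe, mem_filter, mem_range]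
      refine ⟨?_, ?_⟩
      · show p / 3 ^ j < N
        have : p / 3 ^ j ≤ ⌊2 * X / 3 ^ j⌋₊ := by
          apply Nat.le_floor
          rw [le_div_iff₀ h3j0]
          have h5 : ((p / 3 ^ j * 3 ^ j : ℕ) : ℝ) ≤ p := by exact_mod_cast Nat.div_mul_le_self _ _
          push_cast at h5
          linarith
        omega
      · show (v + p / 3 ^ j * 3 ^ j).Prime
        have : v + p / 3 ^ j * 3 ^ j = p := by
          rw [← h4, mul_comm]; exact Nat.mod_add_div p (3 ^ j)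
        rw [this]; exact h1
    · intro p hp q hq hpq
      have h1 : p / 3 ^ j = q / 3 ^ j := hpq
      rw [← Nat.div_add_mod p (3 ^ j), ← Nat.div_add_mod q (3 ^ j), h1, (hF p hp).2.2.2,
        (hF q hq).2.2.2]
  have hbt := Pool.Agent.TH915.UC.bt_gen v (3 ^ j) N (by positivity) hN2'
  have hratio : ((3 ^ j : ℕ) : ℝ) / (Nat.totient (3 ^ j) : ℝ) ≤ 2 := by
    rw [div_le_iff₀ (by exact_mod_cast Nat.totient_pos.2 (by positivity))]
    rcases Nat.eq_zero_or_pos j with rfl | hj0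
    · simp
    · rw [Nat.totient_prime_pow Nat.prime_three hj0]
      obtain ⟨i, rfl⟩ : ∃ i, j = i + 1 := ⟨j - 1, by omega⟩
      rw [Nat.add_sub_cancel]
      push_cast
      rw [pow_succ]
      have : (0 : ℝ) < 3 ^ i := by positivity
      nlinarith
  have hratio0 : 0 ≤ ((3 ^ j : ℕ) : ℝ) / (Nat.totient (3 ^ j) : ℝ) := by positivity
  have hlogN : L / 2 ≤ Real.log N := by
    rw [hL, ← Real.log_sqrt hX0.le]
    exact Real.log_le_log (by linarith) hN2
  calc (F.card : ℝ)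
      ≤ (((Finset.range N).filter (fun k => (v + k * 3 ^ j).Prime)).card : ℝ) := by exact_mod_cast hcard
    _ ≤ 22 * (((3 ^ j : ℕ) : ℝ) / (Nat.totient (3 ^ j) : ℝ)) * N / Real.log N := hbt
    _ ≤ 22 * 2 * (3 * (X / 3 ^ j)) / (L / 2) := by
        apply div_le_div₀ (by positivity)
        · apply mul_le_mul _ hN1 (Nat.cast_nonneg _) (by norm_num)
          linarith
        · positivity
        · exact hlogN
    _ = _ := by
        field_simp
        ring

/-- Brun-Titchmarsh, in the form used below -/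
theorem bt3 {P : Set ℤ} (hP : ∀ x ∈ P, 0 < x ∧ x.toNat.Prime) {L : ℝ} (hL : Real.exp 100 ≤ L) (n : ℕ)
    (h3 : (3 : ℝ) ^ n ≤ Real.sqrt L) {u : ℤ} (hu : IsCoprime u 3) (v : ℤ) :
    ((cls P L (2 * L) n u v).card : ℝ) ≤ 264 * (L / (3 ^ n * Real.log L)) := by
  classical
  obtain ⟨c, hc⟩ := cls_unit P L (2 * L) n hu v
  rw [hc]
  have hinj : Set.InjOn (fun x : ℤ => x.toNat) (cls P L (2 * L) n 1 c : Set ℤ) := by
    intro x hx y hy hxy
    rw [mem_coe, mem_cls] at hx hy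
    have h1 := (hP x hx.2.2.1).1
    have h2 := (hP y hy.2.2.1).1
    have h3 : x.toNat = y.toNat := hxy
    omega
  rw [← card_image_of_injOn hinj]
  apply bt_nat hL n (c % 3 ^ n).toNat h3
  intro p hp
  rw [mem_image] at hp
  obtain ⟨x, hx, rfl⟩ := hp
  rw [mem_cls] at hx
  obtain ⟨⟨h1, h2⟩, -, h4, h5⟩ := hx
  obtain ⟨h6, h7⟩ := hP x h4
  have hcast : ((x.toNat : ℕ) : ℤ) = x := Int.toNat_of_nonneg h6.le
  have hcastR : ((x.toNat : ℕ) : ℝ) = x := by
    have : (((x.toNat : ℕ) : ℤ) : ℝ) = (x : ℝ) := by rw [hcast]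
    exact_mod_cast this
  refine ⟨h7, by rw [hcastR]; exact h1, by rw [hcastR]; exact h2, ?_⟩
  have h8 : x % 3 ^ n = c % 3 ^ n := by
    rw [one_mul] at h5
    exact Int.emod_eq_emod_iff_emod_sub_eq_zero.2 (Int.emod_eq_zero_of_dvd h5)
  have h9 : (((x.toNat % 3 ^ n : ℕ)) : ℤ) = (((c % 3 ^ n).toNat : ℕ) : ℤ) := by
    push_cast
    rw [hcast, h8, Int.toNat_of_nonneg (Int.emod_nonneg _ (by positivity))]
  exact_mod_cast h9

/-- the odd primes `≡ a` modulo `q` whose residue modulo `3` lies in `R` -/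
def Pq (q a : ℕ) (R : Set ℤ) : Set ℤ :=
  {x : ℤ | 0 < x ∧ x.toNat.Prime ∧ Odd x ∧ x.toNat % q = a % q ∧ x % 3 ∈ R}

theorem Pq_eqd {q a : ℕ} (hq : 1 ≤ q) (ha : a.Coprime q) (hq3 : ¬ 3 ∣ q) {R : Set ℤ}
    (hR : ∀ r ∈ R, r = 1 ∨ r = 2) : Eqd (Pq q a R) R (1 / (Nat.totient q : ℝ)) := by
  classical
  have hφ1 : 1 ≤ Nat.totient q := Nat.totient_pos.2 hq
  have hφR : (1 : ℝ) ≤ (Nat.totient q : ℝ) := by exact_mod_cast hφ1
  refine ⟨fun x hx => hx.2.2.1, fun x hx => ⟨hx.1, hx.2.1⟩, fun x hx => hx.2.2.2.2, hR,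
    ⟨by positivity, by rw [div_le_one (by linarith)]; exact hφR⟩, ?_⟩
  intro m hm ε hε
  set m₀ : ℕ := q * 3 ^ m with hm₀
  have hcop : Nat.Coprime q (3 ^ m) :=
    Nat.Coprime.pow_right m ((Nat.Prime.coprime_iff_not_dvd Nat.prime_three).2 hq3).symm
  have hφm : (Nat.totient m₀ : ℝ) = Nat.totient q * (2 * 3 ^ m / 3) := by
    rw [hm₀, Nat.totient_mul hcop, Nat.totient_prime_pow Nat.prime_three (by omega)]
    obtain ⟨i, rfl⟩ : ∃ i, m = i + 1 := ⟨m - 1, by omega⟩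
    rw [Nat.add_sub_cancel]
    push_cast
    rw [pow_succ]
    ring
  obtain ⟨x₀, hx₀⟩ := Pool.Agent.TH423.SH.pai m₀ (by rw [hm₀]; exact Nat.mul_pos hq (by positivity)) (min (ε / 6) 1) (1 / 2)
    (by positivity) (by norm_num)
  refine ⟨max (max x₀ 100) (12 / ε), fun L hL c hc => ?_⟩
  have hL1 : x₀ ≤ L := (le_max_left _ _).trans ((le_max_left _ _).trans hL)
  have hL2 : 100 ≤ L := (le_max_right _ _).trans ((le_max_left _ _).trans hL)
  have hL3 : 12 / ε ≤ L := (le_max_right _ _).trans hL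
  have hlog : 0 < Real.log L := Real.log_pos (by linarith)
  -- the class
  have h3m : (0 : ℤ) < 3 ^ m := by positivity
  obtain ⟨c₀, hc₀⟩ : ∃ c₀ : ℕ, (c₀ : ℤ) = c % 3 ^ m :=
    ⟨(c % 3 ^ m).toNat, Int.toNat_of_nonneg (Int.emod_nonneg _ h3m.ne')⟩
  obtain ⟨b, hb1, hb2⟩ := Nat.chineseRemainder hcop a c₀
  have hc3 : ¬ (3 : ℤ) ∣ c := by
    intro h
    rcases hR _ hc with h1 | h1 <;> omega
  have hc₀3 : ¬ 3 ∣ c₀ := by
    intro h
    apply hc3
    have h1 : (3 : ℤ) ∣ c % 3 ^ m := by rw [← hc₀]; exact_mod_cast h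
    have h2 : (3 : ℤ) ∣ 3 ^ m := dvd_pow_self 3 (by omega)
    have h3 := Int.emod_add_mul_ediv c (3 ^ m)
    rw [← h3]
    exact dvd_add h1 (h2.mul_right _)
  have hbq : b.Coprime q := by
    have := hb1.gcd_eq
    rw [Nat.Coprime, this]; exact ha
  have hb3 : b.Coprime (3 ^ m) := by
    have := hb2.gcd_eq
    rw [Nat.Coprime, this]
    exact Nat.Coprime.pow_right m ((Nat.Prime.coprime_iff_not_dvd Nat.prime_three).2 hc₀3).symm
  have hbm : b.Coprime m₀ := Nat.Coprime.mul_right hbq hb3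
  -- the interval
  obtain ⟨u, hu⟩ : ∃ u : ℕ, (u : ℤ) = ⌈L⌉ - 1 :=
    ⟨(⌈L⌉ - 1).toNat, Int.toNat_of_nonneg (by
      have : (1 : ℝ) ≤ ⌈L⌉ := by linarith [Int.le_ceil L]
      have h1 : (1 : ℤ) ≤ ⌈L⌉ := by exact_mod_cast this
      omega)⟩
  obtain ⟨v, hv⟩ : ∃ v : ℕ, (v : ℤ) = ⌈2 * L⌉ - 1 :=
    ⟨(⌈2 * L⌉ - 1).toNat, Int.toNat_of_nonneg (by
      have : (1 : ℝ) ≤ ⌈2 * L⌉ := by linarith [Int.le_ceil (2 * L)]
      have h1 : (1 : ℤ) ≤ ⌈2 * L⌉ := by exact_mod_cast this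
      omega)⟩
  have huR : (u : ℝ) = ⌈L⌉ - 1 := by exact_mod_cast congrArg (fun x : ℤ => (x : ℝ)) hu
  have hvR : (v : ℝ) = ⌈2 * L⌉ - 1 := by exact_mod_cast congrArg (fun x : ℤ => (x : ℝ)) hv
  have hu1 : L - 1 ≤ u := by rw [huR]; linarith [Int.le_ceil L]
  have hu2 : (u : ℝ) ≤ L := by rw [huR]; linarith [Int.ceil_lt_add_one L]
  have hv1 : 2 * L - 1 ≤ v := by rw [hvR]; linarith [Int.le_ceil (2 * L)]
  have hv2 : (v : ℝ) ≤ 2 * L := by rw [hvR]; linarith [Int.ceil_lt_add_one (2 * L)]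
  have hpai := hx₀ L hL1 u v b (by linarith) (by linarith) (by linarith) hbm
  -- the two sets
  have hset : (cls (Pq q a R) L (2 * L) m 1 c).card
      = ((Ioc u v).filter (fun p => p.Prime ∧ p % m₀ = b % m₀)).card := by
    apply card_bij (fun x _ => x.toNat)
    · intro x hx
      rw [mem_cls] at hx
      obtain ⟨⟨h1, h2⟩, -, h4, h5⟩ := hx
      obtain ⟨h6, h7, -, h8, h9⟩ := h4
      have hcast : ((x.toNat : ℕ) : ℤ) = x := Int.toNat_of_nonneg h6.le
      rw [mem_filter, mem_Ioc]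
      refine ⟨⟨?_, ?_⟩, h7, ?_⟩
      · have : (u : ℤ) < x := by
          have := Int.ceil_le.2 h1
          omega
        omega
      · have : x ≤ (v : ℤ) := by
          have := Int.lt_ceil.2 h2
          omega
        omega
      · rw [hm₀]
        have e1 : x.toNat ≡ b [MOD q] := by
          exact (show x.toNat ≡ a [MOD q] from h8).trans hb1.symm
        have e2 : x.toNat ≡ b [MOD 3 ^ m] := by
          refine Nat.ModEq.trans ?_ hb2.symm
          rw [one_mul] at h5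
          have h10 : x % 3 ^ m = c % 3 ^ m :=
            Int.emod_eq_emod_iff_emod_sub_eq_zero.2 (Int.emod_eq_zero_of_dvd h5)
          have h11 : (x.toNat : ℤ) ≡ (c₀ : ℤ) [ZMOD ((3 ^ m : ℕ) : ℤ)] := by
            show (x.toNat : ℤ) % ((3 ^ m : ℕ) : ℤ) = (c₀ : ℤ) % ((3 ^ m : ℕ) : ℤ)
            push_cast
            rw [hcast, hc₀, Int.emod_emod_of_dvd _ (dvd_refl _)]
            exact h10
          exact (Int.natCast_modEq_iff).1 h11
        exact (Nat.modEq_and_modEq_iff_modEq_mul hcop).1 ⟨e1, e2⟩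
    · intro x hx y hy hxy
      rw [mem_cls] at hx hy
      have h1 := hx.2.2.1.1
      have h2 := hy.2.2.1.1
      have h3 : x.toNat = y.toNat := hxy
      omega
    · intro p hp
      rw [mem_filter, mem_Ioc] at hp
      obtain ⟨⟨h1, h2⟩, h3, h4⟩ := hp
      refine ⟨(p : ℤ), ?_, by simp⟩
      obtain ⟨e1, e2⟩ := (Nat.modEq_and_modEq_iff_modEq_mul hcop).2 (show p ≡ b [MOD q * 3 ^ m] from h4)
      have e3 : p ≡ c₀ [MOD 3 ^ m] := e2.trans hb2
      have e4 : (3 : ℤ) ^ m ∣ (p : ℤ) - c := by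
        have h5 : (p : ℤ) ≡ (c₀ : ℤ) [ZMOD ((3 ^ m : ℕ) : ℤ)] := (Int.natCast_modEq_iff).2 e3
        have h6 := h5.symm.dvd
        push_cast at h6
        have h7 : (3 : ℤ) ^ m ∣ (c₀ : ℤ) - c := by
          rw [hc₀]
          exact Int.dvd_self_sub_emod |> fun h => by
            rw [← neg_sub]; exact (dvd_neg).2 h
        have := dvd_add h6 h7
        rwa [show (p : ℤ) - c₀ + ((c₀ : ℤ) - c) = p - c by ring] at this
      have h5 : (u : ℤ) < p := by exact_mod_cast h1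
      have h6 : (p : ℤ) ≤ v := by exact_mod_cast h2
      have hp2 : 2 < p := by
        have : (97 : ℝ) < p := by
          have h1' : (u : ℝ) < p := by exact_mod_cast h1
          linarith
        have : 97 < p := by exact_mod_cast this
        omega
      have hodd : Odd (p : ℤ) := by
        have := h3.odd_of_ne_two (by omega)
        exact_mod_cast this
      rw [mem_cls]
      refine ⟨⟨?_, ?_⟩, hodd, ⟨by omega, by simpa using h3, hodd, ?_, ?_⟩, by rw [one_mul]; exact e4⟩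
      · exact Int.ceil_le.1 (by omega)
      · exact Int.lt_ceil.1 (by omega)
      · show (p : ℤ).toNat % q = a % q
        rw [Int.toNat_natCast]
        exact (e1.trans hb1 : p ≡ a [MOD q])
      · have h7 : (3 : ℤ) ∣ (p : ℤ) - c := (dvd_pow_self (3 : ℤ) (by omega : m ≠ 0)).trans e4
        have h8 : (p : ℤ) % 3 = c % 3 :=
          Int.emod_eq_emod_iff_emod_sub_eq_zero.2 (Int.emod_eq_zero_of_dvd h7)
        rw [h8]; exact hc
  rw [hset]
  set Nc : ℝ := (((Ioc u v).filter (fun p => p.Prime ∧ p % m₀ = b % m₀)).card : ℝ) with hNc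
  have hφ0 : (0 : ℝ) < Nat.totient m₀ := by rw [hφm]; positivity
  have hE : 1 / (Nat.totient q : ℝ) * (3 / 2) * (L / (3 ^ m * Real.log L))
      = L / (Nat.totient m₀ * Real.log L) := by
    rw [hφm]
    have : (0 : ℝ) < Nat.totient q := by linarith
    field_simp
  have hle : L / (Nat.totient m₀ * Real.log L) ≤ 3 / 2 * (L / (3 ^ m * Real.log L)) := by
    rw [← hE]
    apply mul_le_mul_of_nonneg_right _ (by positivity)
    have : 1 / (Nat.totient q : ℝ) ≤ 1 := by rw [div_le_one (by linarith)]; exact hφR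
    linarith
  have hvu1 : (v : ℝ) - u ≤ L + 1 := by linarith
  have hvu2 : L - 1 ≤ (v : ℝ) - u := by linarith
  have hD0 : 0 < (Nat.totient m₀ : ℝ) * Real.log L := by positivity
  have hdiff : |((v : ℝ) - u) / (Nat.totient m₀ * Real.log L) - L / (Nat.totient m₀ * Real.log L)|
      ≤ 1 / (Nat.totient m₀ * Real.log L) := by
    rw [← sub_div, abs_div, abs_of_pos hD0]
    apply div_le_div_of_nonneg_right _ hD0.le
    rw [abs_le]; constructor <;> linarith
  have hone : 1 / (Nat.totient m₀ * Real.log L) ≤ ε / 12 * (L / (Nat.totient m₀ * Real.log L)) := by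
    rw [← mul_div_assoc]
    apply div_le_div_of_nonneg_right _ hD0.le
    rw [div_le_iff₀ hε] at hL3
    linarith
  have hmin1 : min (ε / 6) 1 ≤ ε / 6 := min_le_left _ _
  have hmin2 : min (ε / 6) 1 ≤ 1 := min_le_right _ _
  have hmin0 : 0 ≤ min (ε / 6) 1 := by positivity
  have hLD : 0 ≤ L / (Nat.totient m₀ * Real.log L) := by positivity
  have h1 : ((v : ℝ) - u) / (Nat.totient m₀ * Real.log L) ≤ 2 * (L / (Nat.totient m₀ * Real.log L)) := by
    rw [← mul_div_assoc]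
    apply div_le_div_of_nonneg_right _ hD0.le
    linarith
  have h2 : 0 ≤ ((v : ℝ) - u) / (Nat.totient m₀ * Real.log L) := by
    apply div_nonneg _ hD0.le
    linarith
  rw [hE]
  calc |Nc - L / (Nat.totient m₀ * Real.log L)|
      ≤ |Nc - ((v : ℝ) - u) / (Nat.totient m₀ * Real.log L)|
        + |((v : ℝ) - u) / (Nat.totient m₀ * Real.log L) - L / (Nat.totient m₀ * Real.log L)| := by
        have := abs_add_le (Nc - ((v : ℝ) - u) / (Nat.totient m₀ * Real.log L))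
          (((v : ℝ) - u) / (Nat.totient m₀ * Real.log L) - L / (Nat.totient m₀ * Real.log L))
        rwa [sub_add_sub_cancel] at this
    _ ≤ ε / 6 * (2 * (L / (Nat.totient m₀ * Real.log L)))
        + ε / 12 * (L / (Nat.totient m₀ * Real.log L)) := by
        apply add_le_add
        · refine hpai.trans ?_
          exact mul_le_mul hmin1 h1 h2 (by positivity)
        · exact hdiff.trans hone
    _ ≤ ε * (2 / 3 * (L / (Nat.totient m₀ * Real.log L))) := by
        have : 0 ≤ ε * (L / (Nat.totient m₀ * Real.log L)) := by positivity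
        nlinarith
    _ ≤ ε * (L / (3 ^ m * Real.log L)) := by
        apply mul_le_mul_of_nonneg_left _ hε.le
        linarith

end Pool.Agent.H998_PL
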