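import Pool.Agent.H998_PL.Words

/-! Primes on trajectories, part 7: the sets of starting points, pairs of primes. -/

set_option autoImplicit false

namespace Pool.Agent.H998_PL

open Finset
open Pool.Agent.H320R2.PD Pool.Agent.H499R2.ND
open Pool.Agent.H499R2.CO (Tz)
open Pool.Agent.R344.TH
open Pool.Agent.H998_BC (Ta pair_count2)

/-- at least `h` terms of the trajectory lie in `P`, and the least term so far lies in `[y, z)` -/
def Sh (P : Set ℤ) (y z : ℝ) (h : ℕ) : Set ℤ := {x : ℤ | ∃ s : Finset ℕ, s.card = h ∧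
  ∀ k ∈ s, (Tz 1)^[k] x ∈ P ∧ (∀ j ≤ k, y ≤ (((Tz 1)^[j] x : ℤ) : ℝ)) ∧
    ∃ j ≤ k, (((Tz 1)^[j] x : ℤ) : ℝ) < z}

theorem step_facts {Z : ℝ} (hZ : 0 < Z) {M x : ℤ} {e : ℕ} (he : 1 ≤ e) (hM : Odd M)
    (hMZ : Z ≤ M) (hxZ : Z ≤ x) (h : 3 * M + 1 = 2 ^ e * x) :
    (∀ i ≤ e, Z ≤ (((Tz 1)^[i] M : ℤ) : ℝ)) ∧ ∀ j, (Tz 1)^[j] x = (Tz 1)^[j + e] M := by
  have hx' : (Tz 1)^[e] M = x := by
    obtain ⟨i', rfl⟩ : ∃ i', e = i' + 1 := ⟨e - 1, by omega⟩
    rw [iter_syr (by norm_num) hM h i' le_rfl]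
    simp
  constructor
  · intro i hi
    rcases Nat.eq_zero_or_pos i with rfl | hi0
    · exact hMZ
    · obtain ⟨i', rfl⟩ : ∃ i', i = i' + 1 := ⟨i - 1, by omega⟩
      rw [iter_syr (by norm_num) hM h i' hi]
      push_cast
      have : (1 : ℝ) ≤ 2 ^ (e - (i' + 1)) := one_le_pow₀ (by norm_num)
      exact hxZ.trans (le_mul_of_one_le_left (by linarith) this)
  · intro j
    rw [Function.iterate_add_apply, hx']

theorem Sh_fwd (P : Set ℤ) {y z : ℝ} (hz : 0 < z) (h : ℕ) : FwdA 1 (2 * z) (Sh P y z h) := by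
  intro M x e he hM _ hMz hxz hMS hMx
  obtain ⟨hval, hsh⟩ := step_facts (by linarith) he hM hMz hxz hMx
  obtain ⟨s, hs, hs2⟩ := hMS
  have hlt : ∀ k ∈ s, e < k := by
    intro k hk
    obtain ⟨_, _, j, hj, hjz⟩ := hs2 k hk
    by_contra hcon
    have := hval j (by omega)
    linarith
  refine ⟨s.image (fun k => k - e), ?_, ?_⟩
  · rw [card_image_of_injOn, hs]
    intro a ha b hb hab
    have h1 := hlt a ha
    have h2 := hlt b hb
    simp only at hab
    omega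
  · intro k hk
    rw [mem_image] at hk
    obtain ⟨k', hk', rfl⟩ := hk
    obtain ⟨h1, h2, j, hj, hjz⟩ := hs2 k' hk'
    have h3 := hlt k' hk'
    refine ⟨?_, ?_, ?_⟩
    · rw [hsh, Nat.sub_add_cancel h3.le]; exact h1
    · intro i hi
      rw [hsh]; exact h2 _ (by omega)
    · have h4 : e < j := by
        by_contra hcon
        have := hval j (by omega)
        linarith
      exact ⟨j - e, by omega, by rw [hsh, Nat.sub_add_cancel h4.le]; exact hjz⟩

theorem Sh_compl_fwd (P : Set ℤ) {y z : ℝ} (hz : 0 < z) (hyz : y ≤ 2 * z) (h : ℕ) :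
    FwdA 1 (2 * z) (Sh P y z h)ᶜ := by
  intro M x e he hM _ hMz hxz hMS hMx hxS
  apply hMS
  obtain ⟨hval, hsh⟩ := step_facts (by linarith) he hM hMz hxz hMx
  obtain ⟨s, hs, hs2⟩ := hxS
  refine ⟨s.image (fun k => k + e), ?_, ?_⟩
  · rw [card_image_of_injective _ (add_left_injective e), hs]
  · intro k hk
    rw [mem_image] at hk
    obtain ⟨k', hk', rfl⟩ := hk
    obtain ⟨h1, h2, j, hj, hjz⟩ := hs2 k' hk'
    refine ⟨?_, ?_, ?_⟩
    · rw [← hsh]; exact h1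
    · intro i hi
      rcases le_or_gt i e with hie | hie
      · exact hyz.trans (hval i hie)
      · have := h2 (i - e) (by omega)
        rwa [hsh, Nat.sub_add_cancel hie.le] at this
    · exact ⟨j + e, by omega, by rw [← hsh]; exact hjz⟩

theorem Tz_cast (n : ℕ) : Tz 1 (n : ℤ) = (Ta n : ℕ) := by
  unfold Tz Ta
  split_ifs with h1 h2 h2
  · push_cast; rfl
  · exfalso; omega
  · exfalso; omega
  · push_cast; rfl

theorem Tz_iter_cast : ∀ (k n : ℕ), (Tz 1)^[k] (n : ℤ) = (Ta^[k] n : ℕ)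
  | 0, _ => rfl
  | k + 1, n => by
    rw [Function.iterate_succ_apply, Tz_cast, Tz_iter_cast k, ← Function.iterate_succ_apply]

/-- elements of `P` whose `τ`-th iterate is in `P` -/
def Pt (P : Set ℤ) (τ : ℕ) : Set ℤ := {p : ℤ | p ∈ P ∧ (Tz 1)^[τ] p ∈ P}

/-- pairs of primes in classes -/
theorem pair_cls : ∃ C X₀ : ℝ, 0 < C ∧ Real.exp 100 ≤ X₀ ∧ ∀ P : Set ℤ,
    (∀ x ∈ P, 0 < x ∧ x.toNat.Prime) → ∀ L : ℝ, X₀ ≤ L → ∀ τ n : ℕ, 1 ≤ τ →
    (2 : ℝ) ^ τ * 3 ^ n ≤ Real.sqrt L → ∀ u v : ℤ, IsCoprime u 3 →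
    ((cls (Pt P τ) L (2 * L) n u v).card : ℝ) ≤ C * (L / (3 ^ n * (Real.log L) ^ 2)) := by
  classical
  obtain ⟨C, X₀, hC, hX₀, h⟩ := pair_count2
  refine ⟨C, max X₀ (Real.exp 100), hC, le_max_right _ _, ?_⟩
  intro P hP L hL τ n hτ hM u v hu
  have hL1 : X₀ ≤ L := (le_max_left _ _).trans hL
  have h0 : 0 < L := by linarith
  obtain ⟨c, hc⟩ := cls_unit (Pt P τ) L (2 * L) n hu v
  rw [hc]
  refine le_trans ?_ ((h L hL1 τ n (c % 3 ^ n).toNat hτ hM).trans (le_of_eq ?_))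
  · have hinj : Set.InjOn (fun x : ℤ => x.toNat) (cls (Pt P τ) L (2 * L) n 1 c : Set ℤ) := by
      intro x hx y hy hxy
      rw [mem_coe, mem_cls] at hx hy
      have h1 := (hP x hx.2.2.1.1).1
      have h2 := (hP y hy.2.2.1.1).1
      have h3 : x.toNat = y.toNat := hxy
      omega
    rw [← card_image_of_injOn hinj]
    have : (cls (Pt P τ) L (2 * L) n 1 c).image (fun x : ℤ => x.toNat)
        ⊆ (Finset.range (⌊2 * L⌋₊ + 1)).filter (fun p : ℕ => L ≤ (p : ℝ) ∧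
          p % 3 ^ n = (c % 3 ^ n).toNat ∧ p.Prime ∧ (Ta^[τ] p).Prime) := by
      intro p hp
      rw [mem_image] at hp
      obtain ⟨x, hx, rfl⟩ := hp
      rw [mem_cls] at hx
      obtain ⟨⟨h1, h2⟩, -, ⟨h4, h4'⟩, h5⟩ := hx
      obtain ⟨h6, h7⟩ := hP x h4
      have hcast : ((x.toNat : ℕ) : ℤ) = x := Int.toNat_of_nonneg h6.le
      have hcastR : ((x.toNat : ℕ) : ℝ) = x := by
        have : (((x.toNat : ℕ) : ℤ) : ℝ) = (x : ℝ) := by rw [hcast]
        exact_mod_cast this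
      rw [mem_filter, mem_range]
      refine ⟨?_, by rw [hcastR]; exact h1, ?_, h7, ?_⟩
      · have : x.toNat ≤ ⌊2 * L⌋₊ := by
          apply Nat.le_floor
          rw [hcastR]; exact h2.le
        omega
      · have h8 : x % 3 ^ n = c % 3 ^ n := by
          rw [one_mul] at h5
          exact Int.emod_eq_emod_iff_emod_sub_eq_zero.2 (Int.emod_eq_zero_of_dvd h5)
        have h9 : (((x.toNat % 3 ^ n : ℕ)) : ℤ) = (((c % 3 ^ n).toNat : ℕ) : ℤ) := by
          push_cast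
          rw [hcast, h8, Int.toNat_of_nonneg (Int.emod_nonneg _ (by positivity))]
        exact_mod_cast h9
      · rw [← hcast, Tz_iter_cast] at h4'
        have := (hP _ h4').2
        simpa using this
    exact_mod_cast card_le_card this
  · rw [← div_div, mul_div_assoc]

theorem mem_XP_of {P : Set ℤ} {A : ℝ} {k m : ℕ} {c : ℤ} {v : List ℕ} {x p : ℤ}
    (hx : x ∈ cls Set.univ A (2 * A) m 1 c) (hl : v.length = k) (hp : Odd p) (hpP : p ∈ P)
    (hV : Vw 1 v x p) : x ∈ XP P A k m c v := by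
  classical
  unfold XP
  rw [mem_filter, mem_XX]
  rw [mem_cls] at hx
  refine ⟨⟨hx.1, ?_, hx.2.2.2⟩, p, hpP, hV⟩
  obtain ⟨q, hq⟩ := hp
  unfold Vw at hV
  rw [hl, hq] at hV
  refine ⟨q, ?_⟩
  rw [pow_succ]
  linear_combination hV

theorem XP_word {P : Set ℤ} {A : ℝ} {k m : ℕ} {c : ℤ} {v : List ℕ} {x : ℤ}
    (h : x ∈ XP P A k m c v) : ∃ p ∈ P, Vw 1 v x p := by
  classical
  unfold XP at h
  exact (mem_filter.1 h).2

open scoped Classical in
/-- the times at which the trajectory of `x` is in `P`, found from words of length at most `K` and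
size at most `t₂` -/
noncomputable def PT (P : Set ℤ) (A : ℝ) (cap K t₂ m : ℕ) (c x : ℤ) : Finset ℕ :=
  (range (t₂ + 1)).filter fun t => ∃ k ≤ K, ∃ v ∈ GW cap k 0 t₂, v.sum = t ∧ x ∈ XP P A k m c v

open scoped Classical in
noncomputable def YY (P : Set ℤ) (A : ℝ) (cap t₂ m : ℕ) (c : ℤ) (q : ℕ × ℕ) : Finset ℤ :=
  (GW cap q.1 0 t₂).biUnion fun v => XP (Pt P q.2) A q.1 m c v

open scoped Classical in
/-- the number of pairs of times -/
theorem pair_le {P : Set ℤ} (hP : ∀ x ∈ P, Odd x) {A : ℝ} {cap K t₂ m : ℕ} {c x : ℤ}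
    (hx : Odd x) :
    (PT P A cap K t₂ m c x).card * (PT P A cap K t₂ m c x).card - (PT P A cap K t₂ m c x).card
      ≤ 2 * ((range (K + 1) ×ˢ Icc 1 t₂).filter (fun q => x ∈ YY P A cap t₂ m c q)).card := by
  set s := PT P A cap K t₂ m c x with hs
  set D := (s ×ˢ s).filter (fun q : ℕ × ℕ => q.1 < q.2) with hD
  have hdata : ∀ t : ℕ, ∃ kv : ℕ × List ℕ, t ∈ s → kv.1 ≤ K ∧ kv.2 ∈ GW cap kv.1 0 t₂ ∧
      kv.2.sum = t ∧ x ∈ XP P A kv.1 m c kv.2 := by
    intro t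
    by_cases ht : t ∈ s
    · rw [hs] at ht
      unfold PT at ht
      rw [mem_filter] at ht
      obtain ⟨_, k, hk, v, hv, h1, h2⟩ := ht
      exact ⟨(k, v), fun _ => ⟨hk, hv, h1, h2⟩⟩
    · exact ⟨(0, []), fun h => (ht h).elim⟩
  choose f hf using hdata
  have hlen : ∀ t ∈ s, (f t).2.length = (f t).1 ∧ ∀ e ∈ (f t).2, 1 ≤ e := by
    intro t ht
    have := (hf t ht).2.1
    unfold GW at this
    exact FW_props (mem_filter.1 this).1
  have hT : ∀ t ∈ s, (Tz 1)^[t] x ∈ P ∧ Vw 1 (f t).2 x ((Tz 1)^[t] x) := by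
    intro t ht
    obtain ⟨h1, h2, h3, h4⟩ := hf t ht
    obtain ⟨p, hp, hV⟩ := XP_word h4
    have h5 := time_end (hlen t ht).2 hx (hP p hp) hV
    rw [h3] at h5
    rw [h5]; exact ⟨hp, hV⟩
  have hDcard : D.card ≤ ((range (K + 1) ×ˢ Icc 1 t₂).filter (fun q => x ∈ YY P A cap t₂ m c q)).card := by
    apply card_le_card_of_injOn (fun q : ℕ × ℕ => ((f q.1).1, q.2 - q.1))
    · rintro ⟨t, t'⟩ hq
      rw [hD, mem_coe, mem_filter, mem_product] at hq
      obtain ⟨⟨ht, ht'⟩, hlt⟩ := hq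
      simp only at ht ht' hlt
      obtain ⟨h1, h2, h3, h4⟩ := hf t ht
      have ht2 : t' ≤ t₂ := by
        have := ht'
        rw [hs] at this
        unfold PT at this
        rw [mem_filter, mem_range] at this
        omega
      rw [mem_coe, mem_filter, mem_product, mem_range, mem_Icc]
      refine ⟨⟨by simp only; omega, by simp only; omega⟩, ?_⟩
      unfold YY
      rw [mem_biUnion]
      refine ⟨(f t).2, h2, ?_⟩
      obtain ⟨p, hp, hV⟩ := XP_word h4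
      unfold XP at h4 ⊢
      rw [mem_filter] at h4 ⊢
      refine ⟨h4.1, (Tz 1)^[t] x, ⟨(hT t ht).1, ?_⟩, (hT t ht).2⟩
      simp only
      rw [← Function.iterate_add_apply, Nat.sub_add_cancel hlt.le]
      exact (hT t' ht').1
    · rintro ⟨t, t'⟩ hq ⟨r, r'⟩ hq' heq
      rw [hD, mem_coe, mem_filter, mem_product] at hq hq'
      obtain ⟨⟨ht, ht'⟩, hlt⟩ := hq
      obtain ⟨⟨hr, hr'⟩, hlr⟩ := hq'
      simp only at ht ht' hlt hr hr' hlr heq
      have h1 : (f t).1 = (f r).1 := (Prod.mk.inj heq).1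
      have h2 : t' - t = r' - r := (Prod.mk.inj heq).2
      have h3 := hlen t ht
      have h4 := hlen r hr
      have h5 : (f t).2 = (f r).2 := word_unique (by decide) _ h3.2 _ h4.2
        (by rw [h3.1, h4.1, h1]) x _ _ (hP _ (hT t ht).1) (hP _ (hT r hr).1) (hT t ht).2 (hT r hr).2
      have h6 : t = r := by rw [← (hf t ht).2.2.1, ← (hf r hr).2.2.1, h5]
      subst h6
      have : t' = r' := by omega
      rw [this]
  have hoff : s.offDiag ⊆ D ∪ D.image Prod.swap := by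
    rintro ⟨t, t'⟩ hq
    rw [mem_offDiag] at hq
    obtain ⟨h1, h2, h3⟩ := hq
    simp only at h1 h2 h3
    rw [mem_union, mem_image]
    rcases lt_or_gt_of_ne h3 with h4 | h4
    · left
      rw [hD, mem_filter, mem_product]
      exact ⟨⟨h1, h2⟩, h4⟩
    · right
      refine ⟨(t', t), ?_, rfl⟩
      rw [hD, mem_filter, mem_product]
      exact ⟨⟨h2, h1⟩, h4⟩
  have h7 : s.offDiag.card ≤ D.card + D.card :=
    (card_le_card hoff).trans ((card_union_le _ _).trans (by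
      apply Nat.add_le_add_left card_image_le))
  rw [offDiag_card] at h7
  omega

end Pool.Agent.H998_PL
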