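import Pool.Agent.H998_PL.All
import Pool.Agent.H998_BC.Nat

/-! Primes on trajectories, part 15: the two maps. -/

set_option autoImplicit false

namespace Pool.Agent.H998_PL

open Finset
open Pool.Agent.H499R2.CO (Tz)
open Pool.Agent.R344.TH
open Pool.Agent.H998_BC (tau tau_two tau_le tau_val tau_ge C C_iter_cast)

/-- the time of `3x+1` from the time of the shortcut map -/
def sg : ℕ → ℤ → ℕ
  | 0, _ => 0
  | t + 1, x => (if x % 2 = 0 then 1 else 2) + sg t (Tz 1 x)

theorem sg_val : ∀ (t : ℕ) (x : ℤ), (Cz 1)^[sg t x] x = (Tz 1)^[t] x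
  | 0, x => rfl
  | t + 1, x => by
    have ih := sg_val t (Tz 1 x)
    rw [Function.iterate_succ_apply, ← ih, sg]
    by_cases hp : x % 2 = 0
    · rw [if_pos hp, add_comm 1, Function.iterate_succ_apply, Cz_even hp]
    · rw [if_neg hp, add_comm 2, Function.iterate_succ_apply, Function.iterate_succ_apply,
        Cz_Cz_odd (by norm_num) hp]

theorem sg_lt : ∀ (t : ℕ) (x : ℤ), sg t x < sg (t + 1) x
  | 0, x => by
    simp only [sg]
    split_ifs <;> omega
  | t + 1, x => by
    have ih := sg_lt t (Tz 1 x)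
    rw [sg, sg]
    omega

theorem sg_ge {Y : ℝ} (hY : 0 ≤ Y) : ∀ (t : ℕ) (x : ℤ), (∀ j ≤ t, Y ≤ (((Tz 1)^[j] x : ℤ) : ℝ)) →
    ∀ j ≤ sg t x, Y ≤ (((Cz 1)^[j] x : ℤ) : ℝ)
  | 0, x, h, j, hj => by
    have : j = 0 := by simpa [sg] using hj
    subst this
    exact h 0 le_rfl
  | t + 1, x, h, j, hj => by
    have hx := h 0 (by omega)
    rw [Function.iterate_zero, id] at hx
    have hsh : ∀ i ≤ t, Y ≤ (((Tz 1)^[i] (Tz 1 x) : ℤ) : ℝ) := by
      intro i hi
      have := h (i + 1) (by omega)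
      rwa [Function.iterate_succ_apply] at this
    rcases Nat.eq_zero_or_pos j with rfl | hj0
    · exact hx
    · obtain ⟨i, rfl⟩ : ∃ i, j = i + 1 := ⟨j - 1, by omega⟩
      rw [sg] at hj
      by_cases hp : x % 2 = 0
      · rw [if_pos hp] at hj
        rw [Function.iterate_succ_apply, Cz_even hp]
        exact sg_ge hY t (Tz 1 x) hsh i (by omega)
      · rw [if_neg hp] at hj
        rcases Nat.eq_zero_or_pos i with rfl | hi0
        · rw [zero_add, Function.iterate_one, Cz_odd hp]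
          push_cast
          linarith
        · obtain ⟨i', rfl⟩ : ∃ i', i = i' + 1 := ⟨i - 1, by omega⟩
          rw [Function.iterate_succ_apply, Function.iterate_succ_apply, Cz_Cz_odd (by norm_num) hp]
          exact sg_ge hY t (Tz 1 x) hsh i' (by omega)

/-- the times at which the trajectory is in `P`, before it goes below `Y` -/
def HT (P : Set ℤ) (Y : ℝ) (x : ℤ) : Set ℕ := {k : ℕ | (Tz 1)^[k] x ∈ P ∧
  ∀ j ≤ k, Y ≤ (((Tz 1)^[j] x : ℤ) : ℝ)}

/-- the same for `3x+1` -/
def HC (S : Set ℕ) (Y : ℝ) (n : ℕ) : Set ℕ := {k : ℕ | C^[k] n ∈ S ∧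
  ∀ j ≤ k, Y ≤ ((C^[j] n : ℕ) : ℝ)}

theorem HC_HT {P : Set ℤ} (hP : ∀ x ∈ P, Odd x) {Y : ℝ} (hY : 1 ≤ Y) (n : ℕ) :
    (HC {m : ℕ | (m : ℤ) ∈ P} Y n).encard = (HT P Y (n : ℤ)).encard := by
  apply le_antisymm
  · have hodd : ∀ k ∈ HC {m : ℕ | (m : ℤ) ∈ P} Y n, Odd ((Cz 1)^[k] (n : ℤ)) := by
      intro k hk
      rw [C_iter_cast]
      exact hP _ hk.1
    have hge : ∀ k ∈ HC {m : ℕ | (m : ℤ) ∈ P} Y n, ∀ j ≤ k, Y ≤ (((Cz 1)^[j] (n : ℤ) : ℤ) : ℝ) := by
      intro k hk j hj
      rw [C_iter_cast]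
      exact_mod_cast hk.2 j hj
    apply Set.encard_le_encard_of_injOn (f := fun k => tau 1 k (n : ℤ))
    · intro k hk
      have h1 := hodd k hk
      have h2 := tau_val (d := 1) (by norm_num) k (n : ℤ)
      have h3 : (Tz 1)^[tau 1 k (n : ℤ)] (n : ℤ) = (Cz 1)^[k] (n : ℤ) := by
        rcases h2 with h2 | h2
        · exact h2
        · exfalso
          rw [← h2] at h1
          obtain ⟨t, ht⟩ := h1
          omega
      refine ⟨?_, tau_ge (by norm_num) (by simpa using hY) k (n : ℤ) (hge k hk)⟩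
      rw [h3, C_iter_cast]
      exact hk.1
    · have key : ∀ a ∈ HC {m : ℕ | (m : ℤ) ∈ P} Y n, ∀ b ∈ HC {m : ℕ | (m : ℤ) ∈ P} Y n,
          a < b → tau 1 a (n : ℤ) = tau 1 b (n : ℤ) → False := by
        intro a ha b hb hab he
        rcases Nat.eq_or_lt_of_le (Nat.succ_le_of_lt hab) with h1 | h1
        · have h2 := hodd a ha
          have h3 := hodd b hb
          rw [← h1, Nat.succ_eq_add_one, Function.iterate_succ_apply'] at h3
          rw [Cz_odd (by obtain ⟨t, ht⟩ := h2; omega)] at h3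
          obtain ⟨t, ht⟩ := h2
          obtain ⟨t', ht'⟩ := h3
          omega
        · have h2 := tau_two 1 a (n : ℤ)
          have h3 := tau_le 1 (n : ℤ) (show a + 2 ≤ b by omega)
          simp only at h3
          omega
      intro a ha b hb hab
      rcases lt_trichotomy a b with h | h | h
      · exact (key a ha b hb h hab).elim
      · exact h
      · exact (key b hb a ha h hab.symm).elim
  · apply Set.encard_le_encard_of_injOn (f := fun k => sg k (n : ℤ))
    · intro k hk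
      refine ⟨?_, ?_⟩
      · show ((C^[sg k (n : ℤ)] n : ℕ) : ℤ) ∈ P
        rw [← C_iter_cast, sg_val]
        exact hk.1
      · intro j hj
        have := sg_ge (by linarith) k (n : ℤ) hk.2 j hj
        rw [C_iter_cast] at this
        exact_mod_cast this
    · have hm : StrictMono (fun k => sg k (n : ℤ)) := strictMono_nat_of_lt_succ fun k => sg_lt k _
      exact hm.injective.injOn

/-- blocks -/
theorem HT_split (P : Set ℤ) {y z : ℝ} (hyz : y ≤ z) (x : ℤ) :
    (HT P y x).encard = (HT P z x).encard + (BB P y z x).encard := by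
  have h1 : HT P y x = HT P z x ∪ BB P y z x := by
    ext k
    simp only [HT, BB, Set.mem_union, Set.mem_ofPred_eq]
    constructor
    · rintro ⟨h1, h2⟩
      by_cases h3 : ∀ j ≤ k, z ≤ (((Tz 1)^[j] x : ℤ) : ℝ)
      · exact Or.inl ⟨h1, h3⟩
      · push Not at h3
        exact Or.inr ⟨h1, h2, h3⟩
    · rintro (⟨h1, h2⟩ | ⟨h1, h2, _⟩)
      · exact ⟨h1, fun j hj => hyz.trans (h2 j hj)⟩
      · exact ⟨h1, h2⟩
  have h2 : Disjoint (HT P z x) (BB P y z x) := by
    rw [Set.disjoint_left]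
    rintro k ⟨_, h4⟩ ⟨_, _, j, hj, hjz⟩
    have := h4 j hj
    linarith
  rw [h1, Set.encard_union_eq h2]

theorem HT_blocks (P : Set ℤ) {z : ℕ → ℝ} (hz : Antitone z) (x : ℤ) (a : ℕ) : ∀ n : ℕ,
    (HT P (z (a + n)) x).encard
      = (HT P (z a) x).encard + ∑ i ∈ range n, (BB P (z (a + i + 1)) (z (a + i)) x).encard
  | 0 => by simp
  | n + 1 => by
    rw [sum_range_succ, ← add_assoc ((HT P (z a) x).encard), ← HT_blocks P hz x a n]
    exact HT_split P (hz (by omega)) x

end Pool.Agent.H998_PL
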