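import Pool.Agent.H998_PL.Blk
import Pool.Agent.H998_BC.Fin

/-! Primes on trajectories, part 18: the top block. -/

set_option autoImplicit false

namespace Pool.Agent.H998_PL

open Finset
open Pool.Agent.H998_BC (Visits primes_quant C)

theorem harm_le (Q : ℕ) : ∑ j ∈ Icc 1 Q, 1 / (j : ℝ) ≤ 1 + Real.log Q := by
  have h := harmonic_le_one_add_log Q
  rw [harmonic_eq_sum_Icc] at h
  push_cast at h
  simp only [one_div]
  exact h

theorem HC_visits {P R : Set ℤ} {θ : ℝ} (hP : Eqd P R θ) {z : ℝ} {j n : ℕ}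
    (h : (j : ℕ∞) ≤ (HC {m : ℕ | (m : ℤ) ∈ P} z n).encard) : Visits {p : ℕ | p.Prime} z j n := by
  obtain ⟨t, ht, htc⟩ := Set.exists_subset_encard_eq h
  have hf : t.Finite := Set.finite_of_encard_eq_coe htc
  refine ⟨hf.toFinset, ?_, ?_⟩
  · rw [hf.encard_eq_coe_toFinset_card] at htc
    exact_mod_cast htc
  · intro k hk
    have h1 := ht (hf.mem_toFinset.1 hk)
    refine ⟨?_, h1.2⟩
    have h2 := (hP.prime _ h1.1).2
    simpa using h2

theorem top_bound : ∃ K : ℝ, 0 < K ∧ ∀ (P R : Set ℤ) (θ : ℝ), Eqd P R θ → ∀ (z : ℝ) (N Q : ℕ),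
    2 ≤ z → z ≤ N → 1 ≤ Q →
    ∑ n ∈ Icc 1 N, tr Q (HT P z (n : ℤ)).encard
      ≤ K * N * ((1 + Real.log (Real.log N / Real.log z)) * (1 + Real.log Q) + Q / Real.log z) := by
  classical
  obtain ⟨K, hK, h⟩ := primes_quant
  refine ⟨K, hK, ?_⟩
  intro P R θ hP z N Q hz hzN hQ
  simp_rw [← HC_HT hP.odd (show (1 : ℝ) ≤ z by linarith), tr_eq]
  rw [sum_comm]
  have h1 : ∀ j ∈ Icc 1 Q, ∑ n ∈ Icc 1 N,
      (if (j : ℕ∞) ≤ (HC {m : ℕ | (m : ℤ) ∈ P} z n).encard then (1 : ℝ) else 0)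
      ≤ K * N * ((1 + Real.log (Real.log N / Real.log z)) / j + 1 / Real.log z) := by
    intro j hj
    rw [Finset.mem_Icc] at hj
    refine le_trans ?_ (h z N j hz hzN hj.1)
    rw [← sum_filter, sum_const, nsmul_eq_mul, mul_one]
    rw [← Set.ncard_coe_finset]
    have hfin : {n : ℕ | 1 ≤ n ∧ n ≤ N ∧ Visits {p : ℕ | p.Prime} z j n}.Finite :=
      (Set.finite_Icc 1 N).subset fun n hn => ⟨hn.1, hn.2.1⟩
    have h2 := Set.ncard_le_ncard (s := ((Icc 1 N).filter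
      (fun n => (j : ℕ∞) ≤ (HC {m : ℕ | (m : ℤ) ∈ P} z n).encard) : Set ℕ)) (by
      intro n hn
      rw [mem_coe, mem_filter, Finset.mem_Icc] at hn
      exact ⟨hn.1.1, hn.1.2, HC_visits hP hn.2⟩) hfin
    exact_mod_cast h2
  refine (sum_le_sum h1).trans ?_
  rw [← mul_sum]
  apply mul_le_mul_of_nonneg_left _ (by positivity)
  rw [sum_add_distrib, sum_const, nsmul_eq_mul, Nat.card_Icc, Nat.add_sub_cancel]
  have hlz : 0 < Real.log z := Real.log_pos (by linarith)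
  have h2 : 0 ≤ 1 + Real.log (Real.log N / Real.log z) := by
    have : 0 ≤ Real.log (Real.log N / Real.log z) := by
      apply Real.log_nonneg
      rw [le_div_iff₀ hlz, one_mul]
      exact Real.log_le_log (by linarith) hzN
    linarith
  have h3 : ∑ j ∈ Icc 1 Q, (1 + Real.log (Real.log N / Real.log z)) / (j : ℝ)
      = (1 + Real.log (Real.log N / Real.log z)) * ∑ j ∈ Icc 1 Q, 1 / (j : ℝ) := by
    rw [mul_sum]
    apply sum_congr rfl
    intro j _
    ring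
  rw [h3]
  have h4 := mul_le_mul_of_nonneg_left (harm_le Q) h2
  have h5 : (Q : ℝ) * (1 / Real.log z) = Q / Real.log z := by ring
  linarith

end Pool.Agent.H998_PL
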