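import Pool.Agent.H998_PL.Time

/-! Primes on trajectories, part 16: truncated counts. -/

set_option autoImplicit false

namespace Pool.Agent.H998_PL

open Finset

/-- the truncation of `v` at `Q` -/
noncomputable def tr (Q : ℕ) (v : ℕ∞) : ℝ := ((min v (Q : ℕ∞)).toNat : ℝ)

theorem tr_coe (Q n : ℕ) : tr Q (n : ℕ∞) = min (n : ℝ) Q := by
  unfold tr
  rcases le_total n Q with h | h
  · rw [min_eq_left (by exact_mod_cast h), min_eq_left (by exact_mod_cast h), ENat.toNat_natCast]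
  · rw [min_eq_right (by exact_mod_cast h), min_eq_right (by exact_mod_cast h), ENat.toNat_natCast]

theorem tr_top (Q : ℕ) : tr Q ⊤ = Q := by
  unfold tr
  rw [min_eq_right le_top, ENat.toNat_natCast]

theorem tr_nonneg (Q : ℕ) (v : ℕ∞) : 0 ≤ tr Q v := by unfold tr; positivity

theorem tr_le (Q : ℕ) (v : ℕ∞) : tr Q v ≤ Q := by
  unfold tr
  have : (min v (Q : ℕ∞)).toNat ≤ Q := by
    have := ENat.toNat_le_toNat (min_le_right v (Q : ℕ∞)) (ENat.natCast_ne_top Q)
    rwa [ENat.toNat_natCast] at this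
  exact_mod_cast this

theorem tr_mono (Q : ℕ) {v w : ℕ∞} (h : v ≤ w) : tr Q v ≤ tr Q w := by
  unfold tr
  have h1 : min w (Q : ℕ∞) ≠ ⊤ := ne_top_of_le_ne_top (ENat.natCast_ne_top Q) (min_le_right _ _)
  have := ENat.toNat_le_toNat (min_le_min_right (Q : ℕ∞) h) h1
  exact_mod_cast this

theorem tr_add (Q : ℕ) (v w : ℕ∞) : tr Q (v + w) ≤ tr Q v + tr Q w := by
  induction v using ENat.recTopCoe with
  | top =>
    rw [top_add, tr_top]
    have := tr_nonneg Q w
    linarith
  | coe v =>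
    induction w using ENat.recTopCoe with
    | top =>
      rw [add_top, tr_top]
      have := tr_nonneg Q (v : ℕ∞)
      linarith
    | coe w =>
      rw [← Nat.cast_add, tr_coe, tr_coe, tr_coe]
      push_cast
      have h1 : (0 : ℝ) ≤ v := Nat.cast_nonneg v
      have h2 : (0 : ℝ) ≤ w := Nat.cast_nonneg w
      have h3 : (0 : ℝ) ≤ Q := Nat.cast_nonneg Q
      rcases le_total (v : ℝ) Q with h4 | h4 <;> rcases le_total (w : ℝ) Q with h5 | h5
      · rw [min_eq_left h4, min_eq_left h5]; exact min_le_left _ _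
      · rw [min_eq_left h4, min_eq_right h5]; exact (min_le_right _ _).trans (by linarith)
      · rw [min_eq_right h4, min_eq_left h5]; exact (min_le_right _ _).trans (by linarith)
      · rw [min_eq_right h4, min_eq_right h5]; exact (min_le_right _ _).trans (by linarith)

theorem tr_sum (Q : ℕ) (v : ℕ∞) (f : ℕ → ℕ∞) : ∀ n : ℕ,
    tr Q (v + ∑ i ∈ range n, f i) ≤ tr Q v + ∑ i ∈ range n, tr Q (f i)
  | 0 => by simp
  | n + 1 => by
    rw [sum_range_succ, sum_range_succ, ← add_assoc, ← add_assoc]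
    exact (tr_add Q _ _).trans (add_le_add (tr_sum Q v f n) le_rfl)

open scoped Classical in
theorem tr_eq (Q : ℕ) (v : ℕ∞) :
    tr Q v = ∑ j ∈ Icc 1 Q, (if (j : ℕ∞) ≤ v then (1 : ℝ) else 0) := by
  induction v using ENat.recTopCoe with
  | top => rw [tr_top]; simp
  | coe v =>
    rw [tr_coe]
    simp only [Nat.cast_le]
    rw [← sum_filter, sum_const, nsmul_eq_mul, mul_one]
    have : (Icc 1 Q).filter (fun j => j ≤ v) = Icc 1 (min v Q) := by
      ext j
      simp only [mem_filter, Finset.mem_Icc, le_min_iff]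
      omega
    rw [this, Nat.card_Icc, Nat.add_sub_cancel]
    push_cast
    rfl

theorem le_tr {Q m : ℕ} {v : ℕ∞} (h1 : (m : ℕ∞) ≤ v) (h2 : m ≤ Q) : (m : ℝ) ≤ tr Q v := by
  have h3 := tr_mono Q h1
  rw [tr_coe, min_eq_left (by exact_mod_cast h2)] at h3
  exact h3

theorem le_of_tr {Q : ℕ} {v : ℕ∞} {a : ℝ} (h : a < tr Q v) : ∃ m : ℕ, a < m ∧ (m : ℕ∞) ≤ v := by
  refine ⟨(min v (Q : ℕ∞)).toNat, h, ?_⟩
  have h1 : min v (Q : ℕ∞) ≠ ⊤ := ne_top_of_le_ne_top (ENat.natCast_ne_top Q) (min_le_right _ _)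
  rw [ENat.natCast_toNat h1]
  exact min_le_left _ _

end Pool.Agent.H998_PL
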