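import Pool.Agent.H998_PL.Mass

/-! Primes on trajectories, part 6: words and times. -/

set_option autoImplicit false

namespace Pool.Agent.H998_PL

open Finset
open Pool.Agent.H320R2.PD Pool.Agent.H499R2.ND
open Pool.Agent.H499R2.CO (Tz)
open Pool.Agent.R344.TH

/-- splitting a word: `v` comes first in time -/
theorem Vw_split (u : List ℕ) (v : List ℕ) : (∀ a ∈ u ++ v, 1 ≤ a) → ∀ M x : ℤ, Odd x →
    Vw 1 (u ++ v) M x → ∃ M₁ : ℤ, Odd M₁ ∧ Vw 1 v M M₁ ∧ Vw 1 u M₁ x := by
  induction v using List.reverseRecOn with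
  | nil =>
    intro hw M x hx h
    rw [List.append_nil] at h hw
    refine ⟨M, ?_, by unfold Vw; simp [Wo], h⟩
    rcases eq_or_ne u [] with rfl | hne
    · unfold Vw at h; simp [Wo] at h; rw [h]; exact hx
    · exact Vw_odd_left (by decide) hw hne h
  | append_singleton v e ih =>
    intro hw M x hx h
    rw [← List.append_assoc] at h hw
    obtain ⟨M₂, hM₂, h1, h2⟩ := Vw_snoc (by decide) (fun a ha => hw a (by simp at ha ⊢; tauto)) hx h
    obtain ⟨M₁, hM₁, h3, h4⟩ := ih (fun a ha => hw a (by simp at ha ⊢; tauto)) M₂ x hx h2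
    refine ⟨M₁, hM₁, ?_, h4⟩
    unfold Vw at h3 ⊢
    rw [Wo_snoc', List.length_append, List.sum_append, List.length_singleton, List.sum_singleton,
      pow_succ, pow_add]
    linear_combination (3 ^ v.length) * h1 + (2 ^ e) * h3

/-- the terms of the trajectory of `M` up to the end of the word -/
theorem time_word (w : List ℕ) : (∀ a ∈ w, 1 ≤ a) → ∀ M x : ℤ, Odd M → Odd x → Vw 1 w M x →
    ∀ t ≤ w.sum, ∃ u v : List ℕ, ∃ M₁ : ℤ, w = u ++ v ∧ t ≤ v.sum ∧ Odd M₁ ∧ Vw 1 v M M₁ ∧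
      Vw 1 u M₁ x ∧ (Tz 1)^[t] M = 2 ^ (v.sum - t) * M₁ := by
  induction w using List.reverseRecOn with
  | nil =>
    intro _ M x hM _ h t ht
    simp at ht
    subst ht
    exact ⟨[], [], M, rfl, le_rfl, hM, by unfold Vw; simp [Wo], h, by simp⟩
  | append_singleton w' e ih =>
    intro hw M x hM hx h t ht
    have hw' : ∀ a ∈ w', 1 ≤ a := fun a ha => hw a (by simp [ha])
    have he : 1 ≤ e := hw e (by simp)
    obtain ⟨M₂, hM₂, h1, h2⟩ := Vw_snoc (by decide) hw' hx h
    rcases Nat.eq_zero_or_pos t with rfl | ht0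
    · exact ⟨w' ++ [e], [], M, by simp, Nat.zero_le _, hM, by unfold Vw; simp [Wo], h, by simp⟩
    rcases le_or_gt t e with hte | hte
    · refine ⟨w', [e], M₂, rfl, by simpa using hte, hM₂, ?_, h2, ?_⟩
      · unfold Vw; simp [Wo]; linarith
      · obtain ⟨i, rfl⟩ : ∃ i, t = i + 1 := ⟨t - 1, by omega⟩
        rw [List.sum_singleton]
        exact iter_syr (by norm_num) hM h1 i hte
    · have hTe : (Tz 1)^[e] M = M₂ := by
        obtain ⟨i, rfl⟩ : ∃ i, e = i + 1 := ⟨e - 1, by omega⟩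
        rw [iter_syr (by norm_num) hM h1 i le_rfl]
        simp
      rw [List.sum_append, List.sum_singleton] at ht
      obtain ⟨u, v, M₁, h3, h4, h5, h6, h7, h8⟩ := ih hw' M₂ x hM₂ hx h2 (t - e) (by omega)
      refine ⟨u, v ++ [e], M₁, by rw [h3, List.append_assoc], ?_, h5, ?_, h7, ?_⟩
      · rw [List.sum_append, List.sum_singleton]; omega
      · unfold Vw at h6 ⊢
        rw [Wo_snoc', List.length_append, List.sum_append, List.length_singleton,
          List.sum_singleton, pow_succ, pow_add]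
        linear_combination (3 ^ v.length) * h1 + (2 ^ e) * h6
      · have e1 : (Tz 1)^[t] M = (Tz 1)^[t - e] M₂ := by
          rw [← hTe, ← Function.iterate_add_apply, Nat.sub_add_cancel hte.le]
        rw [e1, h8, List.sum_append, List.sum_singleton]
        congr 2
        omega

/-- at odd values the time is the size of a word -/
theorem time_odd {w : List ℕ} (hw : ∀ a ∈ w, 1 ≤ a) {M x : ℤ} (hM : Odd M) (hx : Odd x)
    (h : Vw 1 w M x) {t : ℕ} (ht : t ≤ w.sum) (hodd : Odd ((Tz 1)^[t] M)) :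
    ∃ u v : List ℕ, w = u ++ v ∧ v.sum = t ∧ Vw 1 v M ((Tz 1)^[t] M) := by
  obtain ⟨u, v, M₁, h1, h2, h3, h4, _, h6⟩ := time_word w hw M x hM hx h t ht
  have h7 : v.sum - t = 0 := by
    by_contra hcon
    rw [h6] at hodd
    have : Even ((2 : ℤ) ^ (v.sum - t) * M₁) := (even_two.pow_of_ne_zero hcon).mul_right _
    exact (Int.not_even_iff_odd.2 hodd) this
  refine ⟨u, v, h1, by omega, ?_⟩
  rw [h6, h7, pow_zero, one_mul]; exact h4

theorem time_end {w : List ℕ} (hw : ∀ a ∈ w, 1 ≤ a) {M x : ℤ} (hM : Odd M) (hx : Odd x)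
    (h : Vw 1 w M x) : (Tz 1)^[w.sum] M = x := by
  obtain ⟨u, v, M₁, h1, h2, h3, h4, h5, h6⟩ := time_word w hw M x hM hx h w.sum le_rfl
  have h7 : u = [] := by
    by_contra hne
    obtain ⟨a, u', rfl⟩ := List.exists_cons_of_ne_nil hne
    have ha : 1 ≤ a := hw a (by rw [h1]; simp)
    rw [h1] at h2
    simp only [List.cons_append, List.sum_cons, List.sum_append] at h2
    omega
  subst h7
  rw [List.nil_append] at h1
  subst h1
  rw [h6, Nat.sub_self, pow_zero, one_mul]
  unfold Vw at h5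
  simp [Wo] at h5
  exact h5

/-- a good starting point: a word of length `K` all of whose beginnings of length at least `k₁` are
typical -/
def Good (η : ℝ) (cap k₁ K : ℕ) (x : ℤ) : Prop := Odd x ∧ ∃ (w : List ℕ) (x' : ℤ), w ∈ FW cap K ∧
  Odd x' ∧ Vw 1 w x x' ∧ ∀ u v : List ℕ, w = u ++ v → k₁ ≤ v.length →
    Tlo η v.length ≤ v.sum ∧ v.sum ≤ Thi η v.length

theorem FW_suffix {cap K : ℕ} {w u v : List ℕ} (hw : w ∈ FW cap K) (h : w = u ++ v) :
    v ∈ FW cap v.length := by
  rw [mem_FW] at hw ⊢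
  refine ⟨rfl, fun e he => hw.2 e (by rw [h]; simp [he])⟩

open scoped Classical in
/-- few starting points have no typical word of length `k` -/
theorem notyp_card {A : ℝ} (hA : 0 ≤ A) (cap k m Tl Tm : ℕ) (c : ℤ) :
    (((cls Set.univ A (2 * A) m 1 c).filter
      (fun x => ∀ w ∈ GW cap k Tl Tm, x ∉ XX 1 A k m c w)).card : ℝ)
      ≤ A / (2 * 3 ^ m) * (1 - ∑ w ∈ GW cap k Tl Tm, wwt w) + 1 + 2 ^ Tm := by
  set G := GW cap k Tl Tm with hG
  set All := cls Set.univ A (2 * A) m 1 c with hAll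
  have hGprop : ∀ w ∈ G, w.length = k ∧ (∀ e ∈ w, 1 ≤ e) := by
    intro w hw
    rw [hG] at hw; unfold GW at hw
    rw [mem_filter] at hw
    exact FW_props hw.1
  have hXall : ∀ w ∈ G, XX 1 A k m c w ⊆ All := by
    intro w hw M hM
    obtain ⟨x, hx, hV⟩ := XX_word (hGprop w hw).1 hM
    have hMo : Odd M := by
      rcases eq_or_ne w [] with rfl | hne
      · unfold Vw at hV; simp [Wo] at hV; rw [hV]; exact hx
      · exact Vw_odd_left (by decide) (hGprop w hw).2 hne hV
    rw [hAll, mem_cls]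
    rw [mem_XX] at hM
    exact ⟨hM.1, hMo, Set.mem_univ _, hM.2.2⟩
  have hdisj : (G : Set (List ℕ)).PairwiseDisjoint (fun w => XX 1 A k m c w) := by
    intro w hw w' hw' hww
    rw [Function.onFun, Finset.disjoint_left]
    intro M hM hM'
    apply hww
    have hw1 := hGprop w (mem_coe.1 hw)
    have hw2 := hGprop w' (mem_coe.1 hw')
    obtain ⟨x, hx, hV⟩ := XX_word hw1.1 hM
    obtain ⟨x', hx', hV'⟩ := XX_word hw2.1 hM'
    exact word_unique (by decide) w hw1.2 w' hw2.2 (hw1.1.trans hw2.1.symm) M x x' hx hx' hV hV'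
  have hUsub : (G.biUnion fun w => XX 1 A k m c w) ⊆ All := biUnion_subset.2 hXall
  have hsub : All.filter (fun x => ∀ w ∈ G, x ∉ XX 1 A k m c w)
      ⊆ All \ G.biUnion fun w => XX 1 A k m c w := by
    intro x hx
    rw [mem_filter] at hx
    rw [mem_sdiff, mem_biUnion]
    refine ⟨hx.1, ?_⟩
    rintro ⟨w, hw, hxw⟩
    exact hx.2 w hw hxw
  have h3 : (All \ G.biUnion fun w => XX 1 A k m c w).card + (G.biUnion fun w => XX 1 A k m c w).card
      = All.card := card_sdiff_add_card_eq_card hUsub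
  have h4 : (G.biUnion fun w => XX 1 A k m c w).card = ∑ w ∈ G, (XX 1 A k m c w).card :=
    card_biUnion hdisj
  rw [h4] at h3
  have h3' : ((All \ G.biUnion fun w => XX 1 A k m c w).card : ℝ)
      + ∑ w ∈ G, ((XX 1 A k m c w).card : ℝ) = All.card := by exact_mod_cast h3
  have hAllcard : (All.card : ℝ) ≤ A / (2 * 3 ^ m) + 1 := by
    have := cls_card_le Set.univ (by linarith : A ≤ 2 * A) m isCoprime_one_left c
    rw [show 2 * A - A = A by ring] at this
    exact this
  have hXcard : ∑ w ∈ G, (A / (2 * 3 ^ m) * wwt w - 1) ≤ ∑ w ∈ G, ((XX 1 A k m c w).card : ℝ) :=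
    sum_le_sum fun w _ => XX_card 1 k m c w
  rw [sum_sub_distrib, ← mul_sum, sum_const, nsmul_eq_mul, mul_one] at hXcard
  have hGc := GW_card cap k Tl Tm
  rw [← hG] at hGc
  have h5 : ((All.filter (fun x => ∀ w ∈ G, x ∉ XX 1 A k m c w)).card : ℝ)
      ≤ ((All \ G.biUnion fun w => XX 1 A k m c w).card : ℝ) := by exact_mod_cast card_le_card hsub
  rw [mul_sub, mul_one]
  linarith

open scoped Classical in
/-- few starting points are not good -/
theorem bad_card {A : ℝ} (hA : 0 ≤ A) {η : ℝ} (cap k₁ K m : ℕ) (hK : k₁ ≤ K) (c : ℤ) :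
    (((cls Set.univ A (2 * A) m 1 c).filter (fun x => ¬ Good η cap k₁ K x)).card : ℝ)
      ≤ ∑ k ∈ Icc k₁ K, (A / (2 * 3 ^ m) * (1 - ∑ w ∈ GW cap k (Tlo η k) (Thi η k), wwt w)
        + 1 + 2 ^ (Thi η k)) := by
  have hsub : (cls Set.univ A (2 * A) m 1 c).filter (fun x => ¬ Good η cap k₁ K x)
      ⊆ (Icc k₁ K).biUnion (fun k => (cls Set.univ A (2 * A) m 1 c).filter
      (fun x => ∀ w ∈ GW cap k (Tlo η k) (Thi η k), x ∉ XX 1 A k m c w)) := by
    intro x hx
    rw [mem_filter] at hx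
    rw [mem_biUnion]
    by_contra hcon
    push Not at hcon
    have hall : ∀ k ∈ Icc k₁ K, ∃ w ∈ GW cap k (Tlo η k) (Thi η k), x ∈ XX 1 A k m c w := by
      intro k hk
      have := hcon k hk
      rw [mem_filter] at this
      push Not at this
      exact this hx.1
    apply hx.2
    obtain ⟨w, hw, hxw⟩ := hall K (mem_Icc.2 ⟨hK, le_rfl⟩)
    unfold GW at hw
    rw [mem_filter] at hw
    obtain ⟨hl, hlet⟩ := FW_props hw.1
    obtain ⟨x', hx', hV⟩ := XX_word hl hxw
    have hxodd : Odd x := by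
      have := hx.1
      rw [mem_cls] at this
      exact this.2.1
    refine ⟨hxodd, w, x', hw.1, hx', hV, ?_⟩
    intro u v huv hv
    have hvlen : v.length ≤ K := by rw [← hl, huv, List.length_append]; omega
    obtain ⟨w', hw', hxw'⟩ := hall v.length (mem_Icc.2 ⟨hv, hvlen⟩)
    unfold GW at hw'
    rw [mem_filter] at hw'
    obtain ⟨hl', hlet'⟩ := FW_props hw'.1
    obtain ⟨x'', hx'', hV'⟩ := XX_word hl' hxw'
    rw [huv] at hV hlet
    obtain ⟨M₁, hM₁, h3, _⟩ := Vw_split u v hlet x x' hx' hV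
    have hvw : v = w' := word_unique (by decide) v (fun a ha => hlet a (by simp [ha])) w' hlet'
      hl'.symm x M₁ x'' hM₁ hx'' h3 hV'
    rw [← hvw] at hw'
    exact hw'.2
  have h1 : (((cls Set.univ A (2 * A) m 1 c).filter (fun x => ¬ Good η cap k₁ K x)).card : ℝ)
      ≤ ∑ k ∈ Icc k₁ K, (((cls Set.univ A (2 * A) m 1 c).filter
      (fun x => ∀ w ∈ GW cap k (Tlo η k) (Thi η k), x ∉ XX 1 A k m c w)).card : ℝ) := by
    exact_mod_cast (card_le_card hsub).trans card_biUnion_le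
  exact h1.trans (sum_le_sum fun k _ => notyp_card hA cap k m _ _ c)

end Pool.Agent.H998_PL
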